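import Pool.Agent.Helper600R2.CM.Stm

set_option autoImplicit false

namespace Pool.Agent.Helper600R2.CM.M10

open Finset Pool.Agent.Helper600R2 Pool.Agent.H564R2.QF Pool.Agent.Helper600R2.CM
  Pool.Agent.Helper600R2.Sharp

theorem QD_mono {V : Type} {F : Set ((V → Bool) → Bool)} {D : ℕ} {f : (V → Bool) → Bool}
    (h : QD F D f) : ∀ D' : ℕ, D ≤ D' → QD F D' f := by
  induction h with
  | leaf hf => intro D' _; exact QD.leaf hf
  | node v g _ hfg ih =>
    intro D' hD
    obtain ⟨D'', rfl⟩ : ∃ D'', D' = D'' + 1 := ⟨D' - 1, by omega⟩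
    exact QD.node v g (fun b => ih b D'' (by omega)) hfg

/-- override -/
def ov {V : Type} [DecidableEq V] (X : Finset V) (ρ y : V → Bool) : V → Bool :=
  fun v => if v ∈ X then ρ v else y v

theorem query {V : Type} [DecidableEq V] (D : ℕ) (X : Finset V) :
    ∀ f : (V → Bool) → Bool, (∀ ρ : V → Bool, QD Cst D (fun y => f (ov X ρ y))) →
      QD Cst (X.card + D) f := by
  induction X using Finset.induction_on with
  | empty =>
    intro f h
    have h1 := h (fun _ => false)
    have h2 : (fun y => f (ov ∅ (fun _ => false) y)) = f := by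
      funext y
      congr 1
    rw [h2] at h1
    simpa using h1
  | insert v X hv ih =>
    intro f h
    rw [Finset.card_insert_of_notMem hv]
    have e : X.card + 1 + D = (X.card + D) + 1 := by omega
    rw [e]
    refine QD.node v (fun b y => f (Function.update y v b)) ?_ ?_
    · intro b
      apply ih
      intro ρ
      have h1 := h (Function.update ρ v b)
      have h2 : (fun y => f (ov (insert v X) (Function.update ρ v b) y)) =
          fun y => f (Function.update (ov X ρ y) v b) := by
        funext y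
        congr 1
        funext u
        by_cases hu : u = v
        · subst hu; simp [ov]
        · by_cases hX : u ∈ X <;> simp [ov, hu, hX, Function.update_of_ne]
      rw [h2] at h1
      exact h1
    · intro y
      simp

theorem chi_flip {V : Type} [DecidableEq V] (S U : Finset V) (y : V → Bool) :
    Pool.Agent.H564R2.QF.chi S (flip y U) = Pool.Agent.H564R2.QF.chi S y * ∏ v ∈ U, (if v ∈ S then (-1 : ℝ) else 1) := by
  have h1 : ∏ v ∈ U, (if v ∈ S then (-1 : ℝ) else 1) = ∏ v ∈ S, (if v ∈ U then (-1 : ℝ) else 1) := by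
    rw [Finset.prod_ite_mem, Finset.prod_ite_mem, Finset.inter_comm]
  rw [h1]
  unfold Pool.Agent.H564R2.QF.chi
  rw [← Finset.prod_mul_distrib]
  refine Finset.prod_congr rfl (fun v _ => ?_)
  unfold flip
  by_cases hU : v ∈ U <;> cases hy : y v <;> simp [hU, hy]

theorem sens {V : Type} [Fintype V] [DecidableEq V] (f : (V → Bool) → Bool) (A : Finset V)
    (hf : tr f ∈ LowDeg V A.card) (hA : A.Nonempty) (hc : coef (tr f) A ≠ 0) (y : V → Bool) :
    ∃ U ⊆ A, f (flip y U) ≠ f y := by
  by_contra hcon
  push Not at hcon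
  have hsum1 : ∑ U ∈ A.powerset, tr f (flip y U) * Pool.Agent.H564R2.QF.chi A (flip y U) = 0 := by
    have h1 : ∀ U ∈ A.powerset, tr f (flip y U) * Pool.Agent.H564R2.QF.chi A (flip y U) =
        tr f y * Pool.Agent.H564R2.QF.chi A y * ∏ v ∈ U, (if v ∈ A then (-1 : ℝ) else 1) := by
      intro U hU
      rw [chi_flip]
      have h2 : tr f (flip y U) = tr f y := by
        unfold tr; rw [hcon U (Finset.mem_powerset.mp hU)]
      rw [h2]; ring
    rw [Finset.sum_congr rfl h1, ← Finset.mul_sum, ← Finset.prod_one_add]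
    obtain ⟨v, hv⟩ := hA
    rw [Finset.prod_eq_zero hv (by simp [hv]), mul_zero]
  have hsum2 : ∑ U ∈ A.powerset, tr f (flip y U) * Pool.Agent.H564R2.QF.chi A (flip y U) =
      coef (tr f) A * 2 ^ A.card := by
    have h1 : ∀ U ∈ A.powerset, tr f (flip y U) * Pool.Agent.H564R2.QF.chi A (flip y U) =
        ∑ S : Finset V, coef (tr f) S * (Pool.Agent.H564R2.QF.chi S y * Pool.Agent.H564R2.QF.chi A y) *
          ∏ v ∈ U, ((if v ∈ S then (-1 : ℝ) else 1) * (if v ∈ A then (-1 : ℝ) else 1)) := by
      intro U _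
      rw [inversion (tr f) (flip y U), Finset.sum_mul]
      refine Finset.sum_congr rfl (fun S _ => ?_)
      rw [chi_flip, chi_flip, Finset.prod_mul_distrib]
      ring
    rw [Finset.sum_congr rfl h1, Finset.sum_comm]
    have h3 : ∀ S : Finset V, ∑ U ∈ A.powerset, coef (tr f) S * (Pool.Agent.H564R2.QF.chi S y * Pool.Agent.H564R2.QF.chi A y) *
          ∏ v ∈ U, ((if v ∈ S then (-1 : ℝ) else 1) * (if v ∈ A then (-1 : ℝ) else 1)) =
        if S = A then coef (tr f) A * 2 ^ A.card else 0 := by
      intro S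
      rw [← Finset.mul_sum, ← Finset.prod_one_add]
      by_cases hSA : S = A
      · subst hSA
        rw [if_pos rfl]
        have h4 : ∏ v ∈ S, (1 + (if v ∈ S then (-1 : ℝ) else 1) * (if v ∈ S then (-1 : ℝ) else 1)) =
            2 ^ S.card := by
          rw [Finset.prod_congr rfl (fun v hv => by rw [if_pos hv]), Finset.prod_const]
          norm_num
        have h5 : Pool.Agent.H564R2.QF.chi S y * Pool.Agent.H564R2.QF.chi S y = 1 := by
          rw [chi_eq, ← Finset.prod_mul_distrib]
          exact Finset.prod_eq_one (fun v _ => sg_sq _)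
        rw [h4, h5, mul_one]
      · rw [if_neg hSA]
        by_cases hsub : A ⊆ S
        · have hcard : A.card < S.card :=
            Finset.card_lt_card (Finset.ssubset_iff_subset_ne.mpr ⟨hsub, fun h => hSA h.symm⟩)
          rw [lowDeg_coef hf S hcard]
          ring
        · obtain ⟨v, hvA, hvS⟩ := Finset.not_subset.mp hsub
          rw [Finset.prod_eq_zero hvA (by simp [hvA, hvS]), mul_zero]
    simp only [h3]
    simp
  rw [hsum1] at hsum2
  have : coef (tr f) A * 2 ^ A.card ≠ 0 := mul_ne_zero hc (by positivity)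
  exact this hsum2.symm

theorem chi_ov {V : Type} [DecidableEq V] (S X : Finset V) (ρ y : V → Bool) :
    Pool.Agent.H564R2.QF.chi S (ov X ρ y) = Pool.Agent.H564R2.QF.chi (S ∩ X) ρ * Pool.Agent.H564R2.QF.chi (S \ X) y := by
  unfold Pool.Agent.H564R2.QF.chi
  have h : S = (S ∩ X) ∪ (S \ X) := by
    ext v; simp only [mem_union, mem_inter, mem_sdiff]; tauto
  have hd : Disjoint (S ∩ X) (S \ X) := by
    rw [Finset.disjoint_left]
    intro v hv hv'
    exact (Finset.mem_sdiff.1 hv').2 (Finset.mem_inter.1 hv).2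
  conv_lhs => rw [h]
  rw [Finset.prod_union hd]
  congr 1
  · refine Finset.prod_congr rfl (fun v hv => ?_)
    simp [ov, (Finset.mem_inter.1 hv).2]
  · refine Finset.prod_congr rfl (fun v hv => ?_)
    simp [ov, (Finset.mem_sdiff.1 hv).2]

theorem restr {V : Type} [Fintype V] [DecidableEq V] (d : ℕ) (f : (V → Bool) → Bool)
    (hf : tr f ∈ LowDeg V (d + 1)) (X : Finset V)
    (hX : ∀ A : Finset V, A.card = d + 1 → coef (tr f) A ≠ 0 → (A ∩ X).Nonempty)
    (ρ : V → Bool) : tr (fun y => f (ov X ρ y)) ∈ LowDeg V d := by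
  have h : tr (fun y => f (ov X ρ y)) =
      ∑ S : Finset V, (coef (tr f) S * Pool.Agent.H564R2.QF.chi (S ∩ X) ρ) • Pool.Agent.H564R2.QF.chi (S \ X) := by
    funext y
    rw [Finset.sum_apply]
    have h1 : tr (fun y => f (ov X ρ y)) y = tr f (ov X ρ y) := rfl
    rw [h1, inversion (tr f)]
    refine Finset.sum_congr rfl (fun S _ => ?_)
    rw [chi_ov]
    simp only [Pi.smul_apply, smul_eq_mul]
    ring
  rw [h]
  refine Submodule.sum_mem _ (fun S _ => ?_)
  by_cases hc : coef (tr f) S = 0
  · rw [hc, zero_mul, zero_smul]; exact Submodule.zero_mem _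
  · apply Submodule.smul_mem
    apply Pool.Agent.H564R2.QF.chi_mem
    have hS : S.card ≤ d + 1 := by
      by_contra hcon
      exact hc (lowDeg_coef hf S (by omega))
    rcases Nat.lt_or_ge S.card (d + 1) with hlt | hge
    · exact (Finset.card_le_card Finset.sdiff_subset).trans (by omega)
    · have hne := hX S (by omega) hc
      have hcard := Finset.card_sdiff_add_card_inter S X
      have : 0 < (S ∩ X).card := Finset.card_pos.mpr hne
      omega

theorem maxfam {V : Type} [Fintype V] [DecidableEq V] (P : Finset V → Prop) :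
    ∃ F : Finset (Finset V), (∀ A ∈ F, P A) ∧ (∀ A ∈ F, ∀ B ∈ F, A ≠ B → Disjoint A B) ∧
      ∀ A : Finset V, P A → A.Nonempty → ∃ B ∈ F, ¬ Disjoint A B := by
  classical
  let Q : Finset (Finset V) → Prop := fun F =>
    (∀ A ∈ F, P A) ∧ (∀ A ∈ F, ∀ B ∈ F, A ≠ B → Disjoint A B)
  have hne : ((univ : Finset (Finset (Finset V))).filter Q).Nonempty :=
    ⟨∅, by simp [Q]⟩
  obtain ⟨F, hF, hmax⟩ := Finset.exists_max_image _ Finset.card hne
  rw [Finset.mem_filter] at hF
  refine ⟨F, hF.2.1, hF.2.2, ?_⟩
  intro A hPA hA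
  by_contra hcon
  push Not at hcon
  have hAF : A ∉ F := by
    intro hAF
    have := hcon A hAF
    rw [Finset.disjoint_self_iff_empty] at this
    exact hA.ne_empty this
  have hins : insert A F ∈ (univ : Finset (Finset (Finset V))).filter Q := by
    rw [Finset.mem_filter]
    refine ⟨mem_univ _, ?_, ?_⟩
    · intro B hB
      rcases Finset.mem_insert.mp hB with rfl | hB
      · exact hPA
      · exact hF.2.1 B hB
    · intro B hB C hC hBC
      rw [Finset.mem_insert] at hB hC
      rcases hB with hB | hB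
      · rcases hC with hC | hC
        · exact absurd (hB.trans hC.symm) hBC
        · rw [hB]; exact hcon C hC
      · rcases hC with hC | hC
        · rw [hC]; exact (hcon B hB).symm
        · exact hF.2.2 B hB C hC hBC
  have := hmax _ hins
  rw [Finset.card_insert_of_notMem hAF] at this
  omega

theorem proof_M10 (h9 : S_BS) : S_DT := by
  intro V _ _ d
  induction d with
  | zero =>
    intro f hf
    apply QD.leaf
    intro y y'
    have h1 : ∀ y, tr f y = coef (tr f) ∅ := by
      intro y
      rw [inversion (tr f) y, Finset.sum_eq_single ∅]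
      · rw [chi_empty, mul_one]
      · intro S _ hS
        rw [lowDeg_coef hf S (Finset.card_pos.mpr (Finset.nonempty_iff_ne_empty.mpr hS)), zero_mul]
      · intro h; exact absurd (mem_univ _) h
    have h2 : tr f y = tr f y' := by rw [h1 y, h1 y']
    unfold tr at h2
    cases hy : f y <;> cases hy' : f y' <;> simp [hy, hy'] at h2 ⊢
  | succ d ih =>
    intro f hf
    obtain ⟨F, hFP, hFd, hFm⟩ := maxfam (fun A : Finset V => A.card = d + 1 ∧ coef (tr f) A ≠ 0)
    -- the number of members
    have hcard : F.card ≤ 5 * (d + 1) ^ 2 := by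
      have hs : ∀ A ∈ F, ∃ U ⊆ A, f (flip (fun _ => false) U) ≠ f (fun _ => false) := by
        intro A hA
        obtain ⟨hc, hco⟩ := hFP A hA
        exact sens f A (by rw [hc]; exact hf) (Finset.card_pos.mp (by omega)) hco _
      choose! U hUA hU using hs
      refine h9 V f (d + 1) F.card hf (fun _ => false) (fun i => U (F.equivFin.symm i).1) ?_ ?_
      · intro i j hij
        have hne : (F.equivFin.symm i).1 ≠ (F.equivFin.symm j).1 := by
          intro h
          exact hij (F.equivFin.symm.injective (Subtype.ext h))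
        have hd := hFd _ (F.equivFin.symm i).2 _ (F.equivFin.symm j).2 hne
        exact Finset.disjoint_of_subset_left (hUA _ (F.equivFin.symm i).2)
          (Finset.disjoint_of_subset_right (hUA _ (F.equivFin.symm j).2) hd)
      · intro i
        exact hU _ (F.equivFin.symm i).2
    let X : Finset V := F.biUnion id
    have hXcard : X.card ≤ 5 * (d + 1) ^ 3 := by
      calc X.card ≤ F.card * (d + 1) :=
            Finset.card_biUnion_le_card_mul F id (d + 1) (fun A hA => (hFP A hA).1.le)
        _ ≤ 5 * (d + 1) ^ 2 * (d + 1) := Nat.mul_le_mul_right _ hcard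
        _ = 5 * (d + 1) ^ 3 := by ring
    have hX : ∀ A : Finset V, A.card = d + 1 → coef (tr f) A ≠ 0 → (A ∩ X).Nonempty := by
      intro A hA hc
      obtain ⟨B, hB, hAB⟩ := hFm A ⟨hA, hc⟩ (Finset.card_pos.mp (by omega))
      obtain ⟨v, hvA, hvB⟩ := Finset.not_disjoint_iff.mp hAB
      exact ⟨v, Finset.mem_inter.mpr ⟨hvA, Finset.mem_biUnion.mpr ⟨B, hB, hvB⟩⟩⟩
    have hq : QD Cst (X.card + 5 * d ^ 4) f := by
      apply query
      intro ρ
      exact ih _ (restr d f hf X hX ρ)
    refine QD_mono hq _ ?_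
    have : 5 * (d + 1) ^ 3 + 5 * d ^ 4 ≤ 5 * (d + 1) ^ 4 := by
      have e : 5 * (d + 1) ^ 4 = 5 * (d + 1) ^ 3 + 5 * d ^ 4 + (15 * d ^ 3 + 15 * d ^ 2 + 5 * d) := by
        ring
      omega
    omega

end Pool.Agent.Helper600R2.CM.M10
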