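import Pool.Agent.Helper600R2.CM.Stm

/-!
M11: composition of decision trees.
-/

namespace Pool.Agent.Helper600R2.CM.M11

open Finset Pool.Agent.Helper600R2 Pool.Agent.H564R2.QF Pool.Agent.Helper600R2.CM

theorem mono {V : Type} {F : Set ((V → Bool) → Bool)} {D : ℕ} {f : (V → Bool) → Bool}
    (h : QD F D f) : ∀ D' : ℕ, D ≤ D' → QD F D' f := by
  induction h with
  | leaf hf => intro D' _; exact QD.leaf hf
  | node v g _ hfg ih =>
    intro D' hD
    obtain ⟨D'', rfl⟩ : ∃ D'', D' = D'' + 1 := ⟨D' - 1, by omega⟩
    exact QD.node v g (fun b => ih b D'' (by omega)) hfg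

theorem subst {V : Type} {F : Set ((V → Bool) → Bool)} {D : ℕ} {f : (V → Bool) → Bool}
    (h : QD Cst D f) (D' : ℕ) (g : Bool → (V → Bool) → Bool) (hg : ∀ b, QD F D' (g b)) :
    QD F (D + D') (fun y => g (f y) y) := by
  induction h with
  | @leaf D f hf =>
    have e : (fun y => g (f y) y) = g (f (fun _ => false)) := by
      funext y
      rw [hf y (fun _ => false)]
    rw [e]
    exact mono (hg _) _ (by omega)
  | @node D f v f' _ hff ih =>
    have e : D + 1 + D' = (D + D') + 1 := by ring
    rw [e]
    refine QD.node v (fun b y => g (f' b y) y) ih ?_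
    intro y
    rw [hff y]

theorem proof_M11 : S_Comb := by
  intro V F r D
  induction r with
  | zero =>
    intro f _ Ψ hΨ
    have e : (fun y => Ψ (fun l => f l y) y) = Ψ (fun l => Fin.elim0 l) := by
      funext y
      congr 1
      funext l
      exact Fin.elim0 l
    rw [e]
    exact QD.leaf (hΨ _)
  | succ r ih =>
    intro f hf Ψ hΨ
    have h1 : ∀ b : Bool, QD F (r * D)
        (fun y => Ψ (Fin.cons b (fun l : Fin r => f l.succ y)) y) := fun b =>
      ih (fun l => f l.succ) (fun l => hf l.succ) (fun u' => Ψ (Fin.cons b u')) (fun u' => hΨ _)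
    have h2 := subst (hf 0) (r * D)
      (fun b y => Ψ (Fin.cons b (fun l : Fin r => f l.succ y)) y) h1
    have e : (r + 1) * D = D + r * D := by ring
    rw [e]
    have e2 : (fun y => Ψ (fun l => f l y) y) =
        fun y => Ψ (Fin.cons (f 0 y) (fun l : Fin r => f l.succ y)) y := by
      funext y
      congr 1
      funext l
      refine Fin.cases ?_ (fun l => ?_) l
      · simp
      · simp
    rw [e2]
    exact h2

end Pool.Agent.Helper600R2.CM.M11
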