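import Pool.Agent.Helper600R2.Lift
import Pool.Agent.Helper600R2.Sharp.Lower

/-!
Definitions and statements: refutations whose lines read few sums modulo `m` (composite) of
literals and few functions of small degree.
-/

namespace Pool.Agent.Helper600R2.CM

open Finset Pool.Agent.Helper600R2 Pool.Agent.H564R2.QF

/-- the linear form with coefficients `c` modulo `m` -/
def frm {V : Type} [Fintype V] {m : ℕ} (c : V → ZMod m) (y : V → Bool) : ZMod m :=
  ∑ v, if y v = true then c v else 0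

/-- the block sums modulo `q` -/
def bsum (q : ℕ) {E : Type} {B : ℕ} (y : E × Fin B → Bool) (e : E) : ZMod q :=
  ∑ t : Fin B, if y (e, t) = true then (1 : ZMod q) else 0

/-- the combination with coefficients `a` of the forms `c` -/
def cmb {E I : Type} [Fintype I] {m B : ℕ} (c : I → E × Fin B → ZMod m) (a : I → ZMod m)
    (x : E × Fin B) : ZMod m := ∑ i, a i * c i x

open Classical in
/-- the blocks on which the combination does not vanish -/
noncomputable def live {E I : Type} [Fintype E] [Fintype I] {m B : ℕ}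
    (c : I → E × Fin B → ZMod m) (a : I → ZMod m) : Finset E :=
  univ.filter fun e => ∃ t, cmb c a (e, t) ≠ 0

/-- every combination of the forms vanishes outside `S` or is nonzero on at least `r` blocks
outside `S` -/
def Closed {E I : Type} [Fintype E] [DecidableEq E] [Fintype I] {m B : ℕ} (r : ℕ)
    (c : I → E × Fin B → ZMod m) (S : Finset E) : Prop :=
  ∀ a : I → ZMod m, live c a ⊆ S ∨ r ≤ (live c a \ S).card

/-- M1: a linear form which is constant on a residue class of the sum vanishes -/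
def S_NC : Prop := ∀ (m q B : ℕ), 2 ≤ m → 2 ≤ q → Nat.Coprime m q → 2 * q + 1 ≤ B →
  ∀ (c : Fin B → ZMod m), (∃ t, c t ≠ 0) → ∀ z : ZMod q,
    ∃ x x' : Fin B → Bool, (∑ t, (if x t = true then (1 : ZMod q) else 0)) = z ∧
      (∑ t, (if x' t = true then (1 : ZMod q) else 0)) = z ∧ frm c x ≠ frm c x'

open Classical in
/-- the residue class `z` of the sum -/
noncomputable def cls (q B : ℕ) (z : ZMod q) : Finset (Fin B → Bool) :=
  univ.filter fun x => (∑ t, (if x t = true then (1 : ZMod q) else 0)) = z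

/-- M2: bounded exponential sums -/
def S_Ratio : Prop := ∀ (m q B : ℕ) [NeZero m], 2 ≤ m → 2 ≤ q → Nat.Coprime m q →
  2 * q + 1 ≤ B → ∃ θ : ℝ, 0 < θ ∧ θ < 1 ∧ ∀ (c : Fin B → ZMod m), (∃ t, c t ≠ 0) →
    ∀ z : ZMod q, ‖∑ x ∈ cls q B z, ZMod.stdAddChar (N := m) (frm c x)‖ ≤
      θ * ((cls q B z).card : ℝ)

/-- M3: outside a closed set the block sums are free -/
def S_Hom : Prop := ∀ (m q B : ℕ), 2 ≤ m → 2 ≤ q → Nat.Coprime m q → 2 * q + 1 ≤ B →
  ∃ C0 : ℕ, ∀ (E I : Type) [Fintype E] [DecidableEq E] [Fintype I] (c : I → E × Fin B → ZMod m)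
    (S : Finset E), Closed (C0 * (Fintype.card I + 1)) c S →
    ∀ (y : E × Fin B → Bool) (z : E → ZMod q), (∀ e ∈ S, z e = bsum q y e) →
      ∃ y' : E × Fin B → Bool, (∀ e ∈ S, ∀ t, y' (e, t) = y (e, t)) ∧
        (∀ e, bsum q y' e = z e) ∧ ∀ i, frm (c i) y' = frm (c i) y

/-- M4: small closed sets -/
def S_Closure : Prop := ∀ (m B : ℕ), 2 ≤ m → ∀ (E I : Type) [Fintype E] [DecidableEq E]
    [Fintype I] (c : I → E × Fin B → ZMod m) (r : ℕ) (S0 : Finset E),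
    ∃ S : Finset E, S0 ⊆ S ∧ Closed r c S ∧
      S.card ≤ S0.card + r * (Fintype.card I * m) ∧
      ∀ S' : Finset E, S0 ⊆ S' → Closed r c S' → S ⊆ S'

/-- locally consistent partial assignments for the constraints `Cn v` on the variables `st v` -/
def IsGame {E Vt : Type} [DecidableEq E] {q : ℕ} (W : ℕ) (st : Vt → Finset E)
    (Cn : Vt → (E → ZMod q) → Prop) (H : Finset E → (E → ZMod q) → Prop) : Prop :=
  (∃ z, H ∅ z) ∧
  (∀ S z z', (∀ e ∈ S, z e = z' e) → H S z → H S z') ∧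
  (∀ S S' z, S' ⊆ S → H S z → H S' z) ∧
  (∀ S z e, S.card < W → H S z → ∃ z', (∀ e' ∈ S, z' e' = z e') ∧ H (insert e S) z') ∧
  (∀ S z v, H S z → st v ⊆ S → Cn v z)

/-- M5: the Tseitin systems of expanders are locally consistent -/
def S_Game : Prop := ∀ (n q : ℕ) [NeZero q], 2 ≤ q → 4 ≤ n → ∀ π : Equiv.Perm (Fin n),
  (∀ U : Finset (Fin n), n ≤ 3 * U.card → 3 * U.card ≤ 2 * n →
    n / 60 < (bd (finRotate n) U).card ∨ n / 60 < (bd π U).card) →
  ∀ (b : Fin n → ZMod q) (W : ℕ), 2 * (W + 4) ≤ n / 60 →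
  ∃ H : Finset (Fin n × Bool) → (Fin n × Bool → ZMod q) → Prop,
    IsGame W (fun v => nsupp (q := q) (dd (ghd π) gtl (Pi.single v (1 : ZMod q))))
      (fun v z => flow (ghd π) gtl v z = b v) H

/-- functions computed by decision trees of depth `D` with leaves in the class `F` -/
inductive QD {V : Type} (F : Set ((V → Bool) → Bool)) : ℕ → ((V → Bool) → Bool) → Prop
  | leaf {D : ℕ} {f : (V → Bool) → Bool} : f ∈ F → QD F D f
  | node {D : ℕ} {f : (V → Bool) → Bool} (v : V) (g : Bool → (V → Bool) → Bool) :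
      (∀ b, QD F D (g b)) → (∀ y, f y = g (y v) y) → QD F (D + 1) f

/-- functions of the values of the forms `c` -/
def Leaf {V I : Type} [Fintype V] {m : ℕ} (c : I → V → ZMod m) : Set ((V → Bool) → Bool) :=
  {f | ∀ y y', (∀ i, frm (c i) y = frm (c i) y') → f y = f y'}

/-- M6: the walk -/
def S_Main : Prop := ∀ (m q B : ℕ), 2 ≤ m → 2 ≤ q → Nat.Coprime m q → 2 * q + 1 ≤ B →
  ∃ C : ℕ, ∀ (E Vt : Type) [Fintype E] [DecidableEq E] (W : ℕ) (st : Vt → Finset E)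
    (Cn : Vt → (E → ZMod q) → Prop) (H : Finset E → (E → ZMod q) → Prop),
    IsGame W st Cn H → (∀ v, (st v).card ≤ 4) →
    ∀ (a G D S : ℕ), C * ((a + 1) ^ 2 * (G + 1) ^ 2 * (D + 1)) ≤ W →
    ∀ (c : Fin S → Fin G → E × Fin B → ZMod m) (f : Fin S → (E × Fin B → Bool) → Bool),
      (∀ j, QD (Leaf (c j)) D (f j)) →
      Sound (fun v y => Cn v (bsum q y)) a f → ∀ j, ∃ y, f j y = true

/-- functions which are constant -/
def Cst {V : Type} : Set ((V → Bool) → Bool) := {f | ∀ y y', f y = f y'}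

/-- M7: a polynomial bounded on an interval of integers cannot jump -/
def S_Lag : Prop := ∀ (d t : ℕ) (p : Polynomial ℝ), p.natDegree ≤ d → 5 * d ^ 2 ≤ t →
  (∀ k : ℕ, k ≤ t → 0 ≤ p.eval (k : ℝ) ∧ p.eval (k : ℝ) ≤ 1) → p.eval 0 = 0 →
  p.eval 1 ≠ 1

/-- M8: symmetrisation -/
def S_Sym : Prop := ∀ (t d : ℕ) (g : (Fin t → Bool) → ℝ), g ∈ LowDeg (Fin t) d →
  ∃ p : Polynomial ℝ, p.natDegree ≤ d ∧ ∀ k : ℕ, k ≤ t →
    p.eval (k : ℝ) = (∑ U ∈ powersetCard k (univ : Finset (Fin t)),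
      g (fun i => decide (i ∈ U))) / (t.choose k : ℝ)

/-- real version of a Boolean function -/
def tr {V : Type} (f : (V → Bool) → Bool) (y : V → Bool) : ℝ := if f y = true then 1 else 0

/-- flip the values on `U` -/
def flip {V : Type} [DecidableEq V] (y : V → Bool) (U : Finset V) : V → Bool :=
  fun v => if v ∈ U then !(y v) else y v

/-- M9: block sensitivity -/
def S_BS : Prop := ∀ (V : Type) [Fintype V] [DecidableEq V] (f : (V → Bool) → Bool) (d t : ℕ),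
  tr f ∈ LowDeg V d → ∀ (y : V → Bool) (U : Fin t → Finset V),
    (∀ i j, i ≠ j → Disjoint (U i) (U j)) → (∀ i, f (flip y (U i)) ≠ f y) → t ≤ 5 * d ^ 2

/-- M10: Boolean functions of small degree have shallow decision trees -/
def S_DT : Prop := ∀ (V : Type) [Fintype V] [DecidableEq V] (d : ℕ) (f : (V → Bool) → Bool),
  tr f ∈ LowDeg V d → QD Cst (5 * d ^ 4) f

/-- M11: composition of decision trees -/
def S_Comb : Prop := ∀ (V : Type) (F : Set ((V → Bool) → Bool)) (r D : ℕ)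
  (f : Fin r → (V → Bool) → Bool), (∀ l, QD Cst D (f l)) →
  ∀ Ψ : (Fin r → Bool) → (V → Bool) → Bool, (∀ u, Ψ u ∈ F) →
    QD F (r * D) (fun y => Ψ (fun l => f l y) y)

/-- M12: the parameters -/
def S_Num : Prop := ∀ (B C : ℕ) (p : ℝ), 1 ≤ B → 0 < p → 64 * p ≤ 1 / 2 →
    ∃ N0 : ℕ, ∀ N : ℕ, N0 ≤ N → ∃ (n k κ s d mm T : ℕ), 25 ≤ n ∧ 1 ≤ k ∧
      2 * n * B * k + 2 * n * B * κ ≤ N ∧ κ = 2 * (Nat.log 2 N + 1) ∧
      (∀ s' : ℕ, (s' : ℝ) ≤ (N : ℝ) ^ (2 - 64 * p) → s' ≤ s) ∧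
      1 ≤ T ∧ 2440980 * T ≤ k ∧ s ≤ d * T ^ 2 ∧
      (((2 * N + 3) ^ (2 * s) : ℕ) : ℝ) * ((1 / 4) ^ d *
        Real.exp ((2 * n * B : ℝ) * ((192 - 1) * mm / 2 ^ κ))) ^ mm <
        (Real.exp (-(N : ℝ) ^ (2 * p))) ^ mm ∧
      (∀ a r g : ℕ, (a : ℝ) ≤ (N : ℝ) ^ p → (r : ℝ) ≤ (N : ℝ) ^ p → (g : ℝ) ≤ (N : ℝ) ^ p →
        2 * (C * ((a + 1) ^ 2 * (g + 1) ^ 2 * (r * (5 * d ^ 4) + 1)) + 4) ≤ n / 60) ∧
      (∀ r : ℕ, ∀ S : ℝ, 0 ≤ S → (r : ℝ) ≤ (N : ℝ) ^ p → S < Real.exp ((N : ℝ) ^ p) →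
        (S * r) * Real.exp (-(N : ℝ) ^ (2 * p)) ≤ 1) ∧
      n * (2 ^ κ * 2) ^ (4 * B) ≤ N ^ (12 * B + 1)

end Pool.Agent.Helper600R2.CM
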