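import Mathlib
import Pool.Agent.Helper600R2.CM.Stm
import Pool.Agent.Helper600R2.Quad.Numeric

/-!
M12: the choice of the parameters.
-/

namespace Pool.Agent.Helper600R2.CM.M12

open Filter H542
open Pool.Agent.Helper600R2.Quad (count_ineq2)

theorem proof_M12 : S_Num := by
  intro B C p hB hp hp1
  have hBR : (1 : ℝ) ≤ B := by exact_mod_cast hB
  have hCR : (0 : ℝ) ≤ C := by positivity
  have hall : ∀ᶠ x : ℝ in atTop, (2 : ℝ) ^ 24 ≤ x ∧ 4 * x ^ (0 : ℝ) ≤ x ^ p ∧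
      (64000000 * B) * x ^ (24 * p) ≤ x ^ (1 : ℝ) ∧
      (56 * B) * x ^ (24 * p + 1 / 4) ≤ x ^ (1 : ℝ) ∧
      (64 * 5000000 ^ 2 * (B : ℝ) ^ 2) * x ^ (2 - 64 * p) ≤ x ^ (2 - 48 * p) ∧
      (382 * B * (4 / p + 1)) * x ^ (2 - 39 * p) ≤ x ^ (2 : ℝ) ∧
      4 * x ^ (2 * p) ≤ x ^ (3 * p) ∧
      (20000 * (C + 1)) * x ^ (17 * p) ≤ x ^ (24 * p) := by
    filter_upwards [eventually_ge_atTop ((2 : ℝ) ^ 24), ev_pow 0 p 4 hp,
      ev_pow (24 * p) 1 (64000000 * B) (by linarith),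
      ev_pow (24 * p + 1 / 4) 1 (56 * B) (by linarith),
      ev_pow (2 - 64 * p) (2 - 48 * p) (64 * 5000000 ^ 2 * (B : ℝ) ^ 2) (by linarith),
      ev_pow (2 - 39 * p) 2 (382 * B * (4 / p + 1)) (by linarith),
      ev_pow (2 * p) (3 * p) 4 (by linarith),
      ev_pow (17 * p) (24 * p) (20000 * (C + 1)) (by linarith)] with x h1 h2 h3 h4 h5 h6 h7 h8
    exact ⟨h1, h2, h3, h4, h5, h6, h7, h8⟩
  rw [eventually_atTop] at hall
  obtain ⟨x0, hx0⟩ := hall
  obtain ⟨N0, hN0⟩ := exists_nat_ge x0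
  refine ⟨N0, fun N hN => ?_⟩
  have hNx : x0 ≤ (N : ℝ) := hN0.trans (by exact_mod_cast hN)
  obtain ⟨e1, e2, e3, e4, e5, e6, e7, e8⟩ := hx0 (N : ℝ) hNx
  set x : ℝ := (N : ℝ) with hx
  have hx1 : (1 : ℝ) ≤ x := le_trans (by norm_num) e1
  have hxpos : (0 : ℝ) < x := by linarith
  rw [Real.rpow_zero, mul_one] at e2
  rw [Real.rpow_one] at e3 e4
  have hone : ∀ {a : ℝ}, 0 ≤ a → 1 ≤ x ^ a := fun h => Real.one_le_rpow hx1 h
  -- n
  obtain ⟨n, hn⟩ : ∃ n : ℕ, n = ⌊x ^ (24 * p)⌋₊ := ⟨_, rfl⟩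
  have hn1 : (n : ℝ) ≤ x ^ (24 * p) := by rw [hn]; exact Nat.floor_le (by positivity)
  have hn2 : x ^ (24 * p) < n + 1 := by rw [hn]; exact Nat.lt_floor_add_one _
  have h17p : 1 ≤ x ^ (17 * p) := hone (by linarith)
  have hC17 : 0 ≤ (C : ℝ) * x ^ (17 * p) := by positivity
  have hn25 : 25 ≤ n := by
    have : (25 : ℝ) ≤ n := by nlinarith
    exact_mod_cast this
  have hnpos : 0 < n := by omega
  have hnR : (25 : ℝ) ≤ n := by exact_mod_cast hn25
  have hnB : 0 < 4 * B * n := Nat.mul_pos (Nat.mul_pos (by norm_num) hB) hnpos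
  -- k
  obtain ⟨k, hk⟩ : ∃ k : ℕ, k = N / (4 * B * n) := ⟨_, rfl⟩
  have hk1 : x < (k + 1) * (4 * B * n) := by
    have h1 : N < 4 * B * n * (N / (4 * B * n) + 1) := Nat.lt_mul_div_succ N hnB
    rw [← hk] at h1
    have h2 : (N : ℝ) < 4 * B * n * (k + 1) := by exact_mod_cast h1
    rw [← hx] at h2
    linarith
  have hsplit : x = x ^ (24 * p) * x ^ (1 - 24 * p) := by
    rw [← Real.rpow_add hxpos]
    have : 24 * p + (1 - 24 * p) = 1 := by ring
    rw [this, Real.rpow_one]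
  have hkge' : x ^ (1 - 24 * p) < 4 * B * (k + 1) := by
    have hq : 0 < x ^ (24 * p) := by positivity
    have h2 : x < (k + 1) * (4 * B * x ^ (24 * p)) := by
      refine hk1.trans_le ?_
      apply mul_le_mul_of_nonneg_left _ (by positivity)
      exact mul_le_mul_of_nonneg_left hn1 (by positivity)
    have h3 : x ^ (24 * p) * x ^ (1 - 24 * p) < x ^ (24 * p) * (4 * B * (k + 1)) := by
      rw [← hsplit]
      linarith
    exact lt_of_mul_lt_mul_left h3 hq.le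
  have hbig : 64000000 * B ≤ x ^ (1 - 24 * p) := by
    have hq : 0 < x ^ (24 * p) := by positivity
    have : x ^ (24 * p) * (64000000 * B) ≤ x ^ (24 * p) * x ^ (1 - 24 * p) := by
      rw [← hsplit]
      linarith
    exact le_of_mul_le_mul_left this hq
  have hkge : x ^ (1 - 24 * p) ≤ 8 * B * k := by
    have h1 : 8 * (B : ℝ) ≤ x ^ (1 - 24 * p) := by linarith
    linarith
  have hk5 : 5000000 ≤ k := by
    have h1 : (8 * (B : ℝ)) * 5000000 ≤ (8 * B) * k := by linarith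
    have : (5000000 : ℝ) ≤ k := le_of_mul_le_mul_left h1 (by positivity)
    exact_mod_cast this
  -- κ
  obtain ⟨κ, hκ⟩ : ∃ κ, κ = 2 * (Nat.log 2 N + 1) := ⟨_, rfl⟩
  have hNne : N ≠ 0 := by
    intro h
    rw [h] at hx
    simp at hx
    linarith
  have hlog : (Nat.log 2 N : ℝ) ≤ 3 / 2 * Real.log x := by
    have h1 : 2 ^ Nat.log 2 N ≤ N := Nat.pow_log_le_self 2 hNne
    have h2 : ((2 : ℝ) ^ Nat.log 2 N) ≤ x := by
      rw [hx]
      exact_mod_cast h1
    have h3 := Real.log_le_log (by positivity) h2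
    rw [Real.log_pow] at h3
    have h4 := Real.log_two_gt_d9
    have h5 : (0 : ℝ) ≤ Nat.log 2 N := by positivity
    have h6 : (Nat.log 2 N : ℝ) * (2 / 3) ≤ Nat.log 2 N * Real.log 2 :=
      mul_le_mul_of_nonneg_left (by linarith) h5
    linarith
  have hlog4 : Real.log x ≤ 4 * x ^ (1 / 4 : ℝ) := by
    have := Real.log_le_rpow_div hxpos.le (show (0 : ℝ) < 1 / 4 by norm_num)
    linarith
  have hnκ : 2 * (n : ℝ) * B * κ ≤ x / 2 := by
    have h1 : (κ : ℝ) ≤ 14 * x ^ (1 / 4 : ℝ) := by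
      rw [hκ]
      push_cast
      have : 1 ≤ x ^ (1 / 4 : ℝ) := hone (by norm_num)
      linarith
    calc 2 * (n : ℝ) * B * κ ≤ 2 * x ^ (24 * p) * B * (14 * x ^ (1 / 4 : ℝ)) := by
          apply mul_le_mul _ h1 (by positivity) (by positivity)
          apply mul_le_mul_of_nonneg_right _ (by positivity)
          linarith
      _ = ((56 * B) * x ^ (24 * p + 1 / 4)) / 2 := by
          rw [Real.rpow_add hxpos]; ring
      _ ≤ x / 2 := by linarith
  have hsum : 2 * n * B * k + 2 * n * B * κ ≤ N := by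
    have h1 : 2 * (n : ℝ) * B * k ≤ x / 2 := by
      have h2 : 4 * B * n * k ≤ N := by rw [hk]; exact Nat.mul_div_le N (4 * B * n)
      have h3 : (4 : ℝ) * B * n * k ≤ x := by rw [hx]; exact_mod_cast h2
      linarith
    have h2 : ((2 * n * B * k + 2 * n * B * κ : ℕ) : ℝ) ≤ N := by
      push_cast
      rw [← hx]
      linarith
    exact_mod_cast h2
  -- s
  obtain ⟨s, hs⟩ : ∃ s : ℕ, s = ⌊x ^ (2 - 64 * p)⌋₊ := ⟨_, rfl⟩
  have hs1 : (s : ℝ) ≤ x ^ (2 - 64 * p) := by rw [hs]; exact Nat.floor_le (by positivity)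
  -- T
  obtain ⟨T, hT⟩ : ∃ T : ℕ, T = k / 2440980 := ⟨_, rfl⟩
  have hT1 : 1 ≤ T := by
    rw [hT, Nat.le_div_iff_mul_le (by norm_num)]; omega
  have hTk : 2440980 * T ≤ k := by rw [hT]; exact Nat.mul_div_le k 2440980
  have hTk2 : k ≤ 5000000 * T := by
    have : k < 2440980 * (T + 1) := by rw [hT]; exact Nat.lt_mul_div_succ k (by norm_num)
    omega
  -- d
  obtain ⟨d, hd⟩ : ∃ d : ℕ, d = ⌊x ^ (3 * p)⌋₊ := ⟨_, rfl⟩
  have hd1 : (d : ℝ) ≤ x ^ (3 * p) := by rw [hd]; exact Nat.floor_le (by positivity)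
  have hd2 : x ^ (3 * p) < d + 1 := by rw [hd]; exact Nat.lt_floor_add_one _
  have h2p : 1 ≤ x ^ (2 * p) := hone (by linarith)
  have htd : x ^ (2 * p) + 2 ≤ d := by linarith
  have hd1' : 1 ≤ d := by
    have : (1 : ℝ) ≤ d := by linarith
    exact_mod_cast this
  have hsT : s ≤ d * T ^ 2 := by
    have h1 : (x ^ (1 - 24 * p)) ^ 2 ≤ (8 * B * k) ^ 2 :=
      pow_le_pow_left₀ (by positivity) hkge 2
    have h2 : (k : ℝ) ^ 2 ≤ (5000000 * T) ^ 2 := by
      apply pow_le_pow_left₀ (by positivity)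
      exact_mod_cast hTk2
    have h3 : (x ^ (1 - 24 * p)) ^ 2 = x ^ (2 - 48 * p) := by
      rw [← Real.rpow_natCast, ← Real.rpow_mul hxpos.le]
      congr 1
      push_cast
      ring
    have h4 : (s : ℝ) ≤ T ^ 2 := by
      have h5 : (64 * 5000000 ^ 2 * (B : ℝ) ^ 2) * s ≤ (64 * 5000000 ^ 2 * (B : ℝ) ^ 2) * T ^ 2 := by
        calc (64 * 5000000 ^ 2 * (B : ℝ) ^ 2) * s
            ≤ (64 * 5000000 ^ 2 * (B : ℝ) ^ 2) * x ^ (2 - 64 * p) :=
              mul_le_mul_of_nonneg_left hs1 (by positivity)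
          _ ≤ x ^ (2 - 48 * p) := e5
          _ = (x ^ (1 - 24 * p)) ^ 2 := h3.symm
          _ ≤ (8 * B * k) ^ 2 := h1
          _ = 64 * (B : ℝ) ^ 2 * k ^ 2 := by ring
          _ ≤ 64 * (B : ℝ) ^ 2 * (5000000 * T) ^ 2 :=
              mul_le_mul_of_nonneg_left h2 (by positivity)
          _ = (64 * 5000000 ^ 2 * (B : ℝ) ^ 2) * T ^ 2 := by ring
      exact le_of_mul_le_mul_left h5 (by positivity)
    have h6 : s ≤ T ^ 2 := by exact_mod_cast h4
    calc s ≤ T ^ 2 := h6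
      _ = 1 * T ^ 2 := (one_mul _).symm
      _ ≤ d * T ^ 2 := Nat.mul_le_mul_right _ hd1'
  -- m
  obtain ⟨m, hm⟩ : ∃ m : ℕ, m = ⌊2 * s * Real.log (2 * x + 3)⌋₊ + 1 := ⟨_, rfl⟩
  have hlog2x : 0 ≤ Real.log (2 * x + 3) := Real.log_nonneg (by linarith)
  have hm1 : 2 * s * Real.log (2 * x + 3) < m := by
    rw [hm]; push_cast; exact Nat.lt_floor_add_one _
  have hm2 : (m : ℝ) ≤ 2 * s * Real.log (2 * x + 3) + 1 := by
    rw [hm]; push_cast
    have := Nat.floor_le (show 0 ≤ 2 * s * Real.log (2 * x + 3) by positivity)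
    linarith
  have hlogx : Real.log (2 * x + 3) ≤ 2 * (x ^ p / p) := by
    have h1 : 2 * x + 3 ≤ x ^ 2 := by
      have h0 : 2 ^ 24 * x ≤ x * x := mul_le_mul_of_nonneg_right e1 hxpos.le
      rw [sq]
      linarith
    have h2 := Real.log_le_log (by linarith) h1
    rw [Real.log_pow] at h2
    have h3 := Real.log_le_rpow_div hxpos.le hp
    push_cast at h2
    linarith
  have hmle : (m : ℝ) ≤ (4 / p + 1) * x ^ (2 - 63 * p) := by
    have h1 : 2 * (s : ℝ) * Real.log (2 * x + 3) ≤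
        2 * x ^ (2 - 64 * p) * (2 * (x ^ p / p)) :=
      mul_le_mul (by linarith) hlogx hlog2x (by positivity)
    have h2 : 2 * x ^ (2 - 64 * p) * (2 * (x ^ p / p)) = 4 / p * x ^ (2 - 63 * p) := by
      have h3 : x ^ (2 - 63 * p) = x ^ (2 - 64 * p) * x ^ p := by
        rw [← Real.rpow_add hxpos]; congr 1; ring
      rw [h3]
      ring
    have h3 : 1 ≤ x ^ (2 - 63 * p) := hone (by linarith)
    rw [h2] at h1
    linarith
  have h2κ : x ^ 2 ≤ 2 ^ κ := by
    have h1 : N < 2 ^ (Nat.log 2 N + 1) := Nat.lt_pow_succ_log_self (by norm_num) N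
    have h2 : x ≤ 2 ^ (Nat.log 2 N + 1) := by rw [hx]; exact_mod_cast h1.le
    rw [hκ, mul_comm 2, pow_mul]
    exact pow_le_pow_left₀ hxpos.le h2 2
  have hE : (2 * n * B : ℝ) * ((192 - 1) * m / 2 ^ κ) ≤ 1 := by
    have hk2 : (0 : ℝ) < 2 ^ κ := by positivity
    rw [← mul_div_assoc, div_le_one hk2]
    refine le_trans ?_ h2κ
    calc (2 * n * B : ℝ) * ((192 - 1) * m)
        ≤ (2 * x ^ (24 * p) * B) * (191 * ((4 / p + 1) * x ^ (2 - 63 * p))) := by
          apply mul_le_mul _ _ (by positivity) (by positivity)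
          · apply mul_le_mul_of_nonneg_right _ (by positivity)
            linarith
          · norm_num
            linarith
      _ = (382 * B * (4 / p + 1)) * x ^ (2 - 39 * p) := by
          have h3 : x ^ (2 - 39 * p) = x ^ (24 * p) * x ^ (2 - 63 * p) := by
            rw [← Real.rpow_add hxpos]; congr 1; ring
          rw [h3]; ring
      _ ≤ x ^ (2 : ℝ) := e6
      _ = x ^ 2 := by norm_num
  have h2κ' : 2 ^ κ ≤ (2 * N) ^ 2 := by
    have h2 : 2 ^ (Nat.log 2 N + 1) ≤ 2 * N := by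
      rw [pow_succ, mul_comm]
      exact Nat.mul_le_mul_left 2 (Nat.pow_log_le_self 2 hNne)
    rw [hκ, mul_comm 2 (Nat.log 2 N + 1), pow_mul]
    exact Nat.pow_le_pow_left h2 2
  have hn1000 : 1000000 * n ≤ N := by
    have h3 : ((1000000 * n : ℕ) : ℝ) ≤ N := by
      push_cast
      rw [← hx]
      have h4 : (1000000 : ℝ) * n ≤ (64000000 * B) * x ^ (24 * p) := by
        apply mul_le_mul _ hn1 (by positivity) (by positivity)
        linarith
      linarith
    exact_mod_cast h3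
  refine ⟨n, k, κ, s, d, m, T, hn25, by omega, hsum, hκ, ?_, hT1, hTk, hsT, ?_, ?_, ?_, ?_⟩
  · intro s' hs'
    rw [hs]
    exact Nat.le_floor hs'
  · exact count_ineq2 N s m d x _ _ hx hxpos hm1 hE htd
  · intro a r g ha hr hg
    have hp1' : 1 ≤ x ^ p := by linarith
    have ha1 : ((a + 1 : ℕ) : ℝ) ≤ 2 * x ^ p := by
      push_cast
      linarith
    have hg1 : ((g + 1 : ℕ) : ℝ) ≤ 2 * x ^ p := by
      push_cast
      linarith
    have ha2 : ((a + 1 : ℕ) : ℝ) ^ 2 ≤ (2 * x ^ p) ^ 2 := pow_le_pow_left₀ (by positivity) ha1 2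
    have hg2 : ((g + 1 : ℕ) : ℝ) ^ 2 ≤ (2 * x ^ p) ^ 2 := pow_le_pow_left₀ (by positivity) hg1 2
    have hd4 : (d : ℝ) ^ 4 ≤ x ^ (12 * p) := by
      calc (d : ℝ) ^ 4 ≤ (x ^ (3 * p)) ^ 4 := pow_le_pow_left₀ (by positivity) hd1 4
        _ = x ^ (12 * p) := by
            rw [← Real.rpow_natCast, ← Real.rpow_mul hxpos.le]
            congr 1
            push_cast
            ring
    have h13 : 1 ≤ x ^ (13 * p) := hone (by linarith)
    have hr4 : (r : ℝ) * (5 * (d : ℝ) ^ 4) + 1 ≤ 6 * x ^ (13 * p) := by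
      have h1 : (r : ℝ) * (5 * (d : ℝ) ^ 4) ≤ x ^ p * (5 * x ^ (12 * p)) :=
        mul_le_mul hr (by linarith) (by positivity) (by positivity)
      have h2 : x ^ p * (5 * x ^ (12 * p)) = 5 * x ^ (13 * p) := by
        have : x ^ (13 * p) = x ^ p * x ^ (12 * p) := by
          rw [← Real.rpow_add hxpos]; congr 1; ring
        rw [this]; ring
      linarith
    have h1 : (C : ℝ) * (((a + 1 : ℕ) : ℝ) ^ 2 * ((g + 1 : ℕ) : ℝ) ^ 2 *
        ((r : ℝ) * (5 * (d : ℝ) ^ 4) + 1)) ≤ 96 * (C * x ^ (17 * p)) := by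
      calc (C : ℝ) * (((a + 1 : ℕ) : ℝ) ^ 2 * ((g + 1 : ℕ) : ℝ) ^ 2 *
            ((r : ℝ) * (5 * (d : ℝ) ^ 4) + 1))
          ≤ C * ((2 * x ^ p) ^ 2 * (2 * x ^ p) ^ 2 * (6 * x ^ (13 * p))) := by
            apply mul_le_mul_of_nonneg_left _ hCR
            apply mul_le_mul _ hr4 (by positivity) (by positivity)
            exact mul_le_mul ha2 hg2 (by positivity) (by positivity)
        _ = 96 * (C * x ^ (17 * p)) := by
            have h5 : x ^ (17 * p) = (x ^ p) ^ 4 * x ^ (13 * p) := by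
              rw [← Real.rpow_natCast, ← Real.rpow_mul hxpos.le, ← Real.rpow_add hxpos]
              congr 1
              push_cast
              ring
            rw [h5]; ring
    have h6 : (n : ℝ) < 60 * ((n / 60 : ℕ) + 1) := by
      have : n < 60 * (n / 60 + 1) := Nat.lt_mul_div_succ n (by norm_num)
      exact_mod_cast this
    have h7 : ((2 * (C * ((a + 1) ^ 2 * (g + 1) ^ 2 * (r * (5 * d ^ 4) + 1)) + 4) : ℕ) : ℝ) ≤
        ((n / 60 : ℕ) : ℝ) := by
      push_cast at h1 ⊢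
      linarith
    exact_mod_cast h7
  · intro r S hS0 hr hS
    have h1 : (r : ℝ) ≤ Real.exp (x ^ p) := by
      have := Real.add_one_le_exp (x ^ p)
      linarith
    have h2 : x ^ (2 * p) = x ^ p * x ^ p := by
      rw [← Real.rpow_add hxpos]; congr 1; ring
    calc (S * r) * Real.exp (-x ^ (2 * p))
        ≤ (Real.exp (x ^ p) * Real.exp (x ^ p)) * Real.exp (-x ^ (2 * p)) := by
          apply mul_le_mul_of_nonneg_right _ (Real.exp_pos _).le
          exact mul_le_mul hS.le h1 (by positivity) (Real.exp_pos _).le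
      _ = Real.exp (x ^ p + x ^ p + -x ^ (2 * p)) := by rw [Real.exp_add, Real.exp_add]
      _ ≤ Real.exp 0 := by
          apply Real.exp_le_exp.mpr
          rw [h2]
          have h3 : 4 * x ^ p ≤ x ^ p * x ^ p := mul_le_mul_of_nonneg_right e2 (by positivity)
          have h4 : 0 ≤ x ^ p := by positivity
          linarith
      _ = 1 := Real.exp_zero
  · have h8 : 8 ≤ N := by omega
    have h9 : 2 ^ κ * 2 ≤ N ^ 3 := by
      calc 2 ^ κ * 2 ≤ (2 * N) ^ 2 * 2 := Nat.mul_le_mul_right 2 h2κ'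
        _ = 8 * N ^ 2 := by ring
        _ ≤ N * N ^ 2 := Nat.mul_le_mul_right _ h8
        _ = N ^ 3 := by ring
    calc n * (2 ^ κ * 2) ^ (4 * B) ≤ N * (N ^ 3) ^ (4 * B) :=
          Nat.mul_le_mul (by omega) (Nat.pow_le_pow_left h9 _)
      _ = N ^ (12 * B + 1) := by
          rw [← pow_mul, pow_succ, mul_comm]
          congr 2
          ring

end Pool.Agent.Helper600R2.CM.M12
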