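import Pool.Agent.Helper600R2.CM.Stm

/-!
# Exponential sums over residue classes
-/

set_option autoImplicit false

namespace Pool.Agent.Helper600R2.CM.M2

open Finset Pool.Agent.Helper600R2 Pool.Agent.H564R2.QF Pool.Agent.Helper600R2.CM

theorem norm_add_lt_two {a b : ℂ} (ha : ‖a‖ = 1) (hb : ‖b‖ = 1) (hab : a ≠ b) :
    ‖a + b‖ < 2 := by
  have h := parallelogram_law_with_norm ℝ a b
  rw [ha, hb] at h
  have h1 : 0 < ‖a - b‖ := norm_pos_iff.2 (sub_ne_zero.2 hab)
  nlinarith [norm_nonneg (a + b)]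

theorem norm_char {m : ℕ} [NeZero m] (x : ZMod m) : ‖ZMod.stdAddChar (N := m) x‖ = 1 := by
  haveI : Finite (ZMod m) := inferInstance
  exact AddChar.norm_apply _ _

theorem strict (h1 : S_NC) {m q B : ℕ} [NeZero m] (hm : 2 ≤ m) (hq : 2 ≤ q)
    (hc : Nat.Coprime m q) (hB : 2 * q + 1 ≤ B) (c : Fin B → ZMod m) (hc0 : ∃ t, c t ≠ 0)
    (z : ZMod q) : ‖∑ x ∈ cls q B z, ZMod.stdAddChar (N := m) (frm c x)‖ <
      ((cls q B z).card : ℝ) := by
  classical
  obtain ⟨x, x', hx, hx', hne⟩ := h1 m q B hm hq hc hB c hc0 z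
  have mx : x ∈ cls q B z := by
    unfold cls
    rw [Finset.mem_filter]
    exact ⟨Finset.mem_univ _, hx⟩
  have mx' : x' ∈ cls q B z := by
    unfold cls
    rw [Finset.mem_filter]
    exact ⟨Finset.mem_univ _, hx'⟩
  have hxx : x' ≠ x := by
    rintro rfl
    exact hne rfl
  have m2 : x' ∈ (cls q B z).erase x := Finset.mem_erase.2 ⟨hxx, mx'⟩
  have hcard : ((cls q B z).card : ℝ) = 2 + (((cls q B z).erase x).erase x').card := by
    have e1 := Finset.card_erase_add_one m2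
    have e2 := Finset.card_erase_add_one mx
    have e3 : (cls q B z).card = 2 + (((cls q B z).erase x).erase x').card := by omega
    exact_mod_cast e3
  rw [← Finset.add_sum_erase _ _ mx, ← Finset.add_sum_erase _ _ m2, ← add_assoc, hcard]
  have hlt : ‖ZMod.stdAddChar (N := m) (frm c x) + ZMod.stdAddChar (N := m) (frm c x')‖ < 2 :=
    norm_add_lt_two (norm_char _) (norm_char _)
      (fun h => hne (ZMod.injective_stdAddChar h))
  have hrest : ‖∑ y ∈ ((cls q B z).erase x).erase x', ZMod.stdAddChar (N := m) (frm c y)‖ ≤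
      ((((cls q B z).erase x).erase x').card : ℝ) := by
    refine (norm_sum_le _ _).trans ?_
    refine le_of_eq ?_
    rw [Finset.sum_congr rfl (fun y _ => norm_char (frm c y)), Finset.sum_const, nsmul_eq_mul,
      mul_one]
  exact lt_of_le_of_lt (norm_add_le _ _) (add_lt_add_of_lt_of_le hlt hrest)

theorem proof_M2 (h1 : S_NC) : S_Ratio := by
  classical
  intro m q B _ hm hq hc hB
  haveI : NeZero q := ⟨by omega⟩
  let ρ : (Fin B → ZMod m) × ZMod q → ℝ := fun p =>
    if (∃ t, p.1 t ≠ 0) then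
      ‖∑ x ∈ cls q B p.2, ZMod.stdAddChar (N := m) (frm p.1 x)‖ / ((cls q B p.2).card : ℝ)
    else 0
  obtain ⟨p0, -, hp0⟩ := Finset.exists_max_image (Finset.univ : Finset ((Fin B → ZMod m) × ZMod q))
    ρ ⟨(0, 0), Finset.mem_univ _⟩
  have hpos : ∀ (c : Fin B → ZMod m), (∃ t, c t ≠ 0) → ∀ z : ZMod q,
      (0 : ℝ) < ((cls q B z).card : ℝ) := by
    intro c hc0 z
    exact lt_of_le_of_lt (norm_nonneg _) (strict h1 hm hq hc hB c hc0 z)
  have hlt : ∀ p, ρ p < 1 := by
    intro p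
    simp only [ρ]
    split_ifs with h
    · rw [div_lt_one (hpos p.1 h p.2)]
      exact strict h1 hm hq hc hB p.1 h p.2
    · exact zero_lt_one
  refine ⟨max (1 / 2) (ρ p0), lt_of_lt_of_le (by norm_num) (le_max_left _ _),
    max_lt (by norm_num) (hlt p0), ?_⟩
  intro c hc0 z
  have h2 := hp0 (c, z) (Finset.mem_univ _)
  have h3 : ρ (c, z) =
      ‖∑ x ∈ cls q B z, ZMod.stdAddChar (N := m) (frm c x)‖ / ((cls q B z).card : ℝ) := by
    simp only [ρ]
    rw [if_pos hc0]
  rw [h3] at h2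
  rw [← div_le_iff₀ (hpos c hc0 z)]
  exact h2.trans (le_max_right _ _)

end Pool.Agent.Helper600R2.CM.M2
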