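import Pool.Agent.Helper600R2.CM.Stm

/-! M3: outside a closed set the block sums are free (character sums). -/

namespace Pool.Agent.Helper600R2.CM.M3

open Finset Pool.Agent.Helper600R2 Pool.Agent.H564R2.QF Pool.Agent.Helper600R2.CM

theorem cls_nonempty (q B : ℕ) (hq : 2 ≤ q) (hB : q ≤ B) (z : ZMod q) :
    (cls q B z).Nonempty := by
  classical
  haveI : NeZero q := ⟨by omega⟩
  have hz := ZMod.val_lt z
  refine ⟨fun t => decide (t.val < z.val), ?_⟩
  unfold cls
  rw [mem_filter]
  refine ⟨mem_univ _, ?_⟩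
  have h1 : (∑ t : Fin B, (if decide (t.val < z.val) = true then (1 : ZMod q) else 0)) =
      ((z.val : ℕ) : ZMod q) := by
    simp only [decide_eq_true_eq]
    rw [Fin.sum_univ_eq_sum_range (fun t => if t < z.val then (1 : ZMod q) else 0) B,
      Finset.sum_boole]
    have h2 : (range B).filter (fun t => t < z.val) = range z.val := by
      ext t
      simp only [mem_filter, mem_range]
      omega
    rw [h2, card_range]
  rw [h1, ZMod.natCast_zmod_val]

theorem char_sum {m : ℕ} [NeZero m] {ι : Type} (s : Finset ι) (f : ι → ZMod m) :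
    ZMod.stdAddChar (N := m) (∑ i ∈ s, f i) = ∏ i ∈ s, ZMod.stdAddChar (N := m) (f i) := by
  classical
  induction s using Finset.induction_on with
  | empty => simp
  | insert a s ha ih => rw [sum_insert ha, prod_insert ha, AddChar.map_add_eq_mul, ih]

theorem norm_char {m : ℕ} [NeZero m] (x : ZMod m) : ‖ZMod.stdAddChar (N := m) x‖ = 1 := by
  rw [ZMod.stdAddChar_apply]
  exact Circle.norm_coe _

theorem char_zero_sum {m : ℕ} [NeZero m] {I : Type} [Fintype I] [DecidableEq I] (d : I → ZMod m)
    (hd : ∃ i, d i ≠ 0) :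
    ∑ a : I → ZMod m, ZMod.stdAddChar (N := m) (∑ i, a i * d i) = 0 := by
  obtain ⟨i, hi⟩ := hd
  have h1 : ∀ a : I → ZMod m, ZMod.stdAddChar (N := m) (∑ i, a i * d i) =
      ∏ i, ZMod.stdAddChar (N := m) (a i * d i) := fun a => char_sum _ _
  simp only [h1]
  have h2 := Finset.prod_univ_sum (fun _ : I => (univ : Finset (ZMod m)))
    (fun i x => ZMod.stdAddChar (N := m) (x * d i))
  rw [Fintype.piFinset_univ] at h2
  rw [← h2]
  apply prod_eq_zero (mem_univ i)
  rw [AddChar.sum_mulShift _ (ZMod.isPrimitive_stdAddChar m), if_neg hi, Nat.cast_zero]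

theorem frm_split {E : Type} [Fintype E] {m B : ℕ} (c : E × Fin B → ZMod m)
    (Y : E → Fin B → Bool) :
    frm c (fun p => Y p.1 p.2) = ∑ e, frm (fun t => c (e, t)) (Y e) := by
  unfold frm
  rw [Fintype.sum_prod_type]

theorem frm_cmb {E I : Type} [Fintype E] [Fintype I] {m B : ℕ} (c : I → E × Fin B → ZMod m)
    (a : I → ZMod m) (y : E × Fin B → Bool) :
    frm (cmb c a) y = ∑ i, a i * frm (c i) y := by
  unfold frm cmb
  simp only [mul_sum]
  rw [sum_comm]
  refine sum_congr rfl fun v _ => ?_
  split_ifs with h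
  · rfl
  · simp

theorem proof_M3 (h2 : S_Ratio) : S_Hom := by
  classical
  intro m q B hm hq hco hB
  haveI : NeZero m := ⟨by omega⟩
  obtain ⟨θ, hθ0, hθ1, hθ⟩ := h2 m q B hm hq hco hB
  have hmpos : (0 : ℝ) < m := by exact_mod_cast (by omega : 0 < m)
  obtain ⟨C0, hC0⟩ := exists_pow_lt_of_lt_one (show (0 : ℝ) < 1 / m by positivity) hθ1
  refine ⟨C0, ?_⟩
  intro E I _ _ _ c S hcl y z hz
  set r := C0 * (Fintype.card I + 1) with hr
  let X : E → Finset (Fin B → Bool) := fun e => if e ∈ S then {fun t => y (e, t)} else cls q B (z e)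
  have hXne : ∀ e, (X e).Nonempty := by
    intro e
    by_cases he : e ∈ S
    · simp only [X, if_pos he]
      exact singleton_nonempty _
    · simp only [X, if_neg he]
      exact cls_nonempty q B hq (by omega) _
  let P : ℝ := ∏ e, ((X e).card : ℝ)
  have hP : 0 < P := prod_pos fun e _ => by exact_mod_cast (hXne e).card_pos
  -- the properties of an element of the product
  have hprop : ∀ Y ∈ Fintype.piFinset X, (∀ e ∈ S, ∀ t, Y e t = y (e, t)) ∧
      ∀ e, bsum q (fun p => Y p.1 p.2) e = z e := by
    intro Y hY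
    rw [Fintype.mem_piFinset] at hY
    have h1 : ∀ e ∈ S, Y e = fun t => y (e, t) := by
      intro e he
      have := hY e
      simp only [X, if_pos he, mem_singleton] at this
      exact this
    refine ⟨fun e he t => by rw [h1 e he], fun e => ?_⟩
    by_cases he : e ∈ S
    · rw [hz e he]
      unfold bsum
      simp only [h1 e he]
    · have := hY e
      simp only [X, if_neg he, cls, mem_filter, mem_univ, true_and] at this
      exact this
  by_contra hcon
  push Not at hcon
  -- no solution
  have hno : ∀ Y ∈ Fintype.piFinset X, ∃ i, frm (c i) (fun p => Y p.1 p.2) - frm (c i) y ≠ 0 := by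
    intro Y hY
    obtain ⟨hp1, hp2⟩ := hprop Y hY
    obtain ⟨i, hi⟩ := hcon (fun p => Y p.1 p.2) hp1 hp2
    exact ⟨i, sub_ne_zero.mpr hi⟩
  let F : (I → ZMod m) → ℂ := fun a => ∑ Y ∈ Fintype.piFinset X,
    ZMod.stdAddChar (N := m) (∑ i, a i * (frm (c i) (fun p => Y p.1 p.2) - frm (c i) y))
  have hF0 : ∑ a, F a = 0 := by
    simp only [F]
    rw [sum_comm]
    exact sum_eq_zero fun Y hY => char_zero_sum _ (hno Y hY)
  have hcomb : ∀ (a : I → ZMod m) (Y : E → Fin B → Bool),
      ∑ i, a i * (frm (c i) (fun p => Y p.1 p.2) - frm (c i) y) =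
        frm (cmb c a) (fun p => Y p.1 p.2) - frm (cmb c a) y := by
    intro a Y
    rw [frm_cmb, frm_cmb, ← sum_sub_distrib]
    exact sum_congr rfl fun i _ => mul_sub _ _ _
  -- live set inside S
  have hin : ∀ a : I → ZMod m, live c a ⊆ S → F a = (P : ℂ) := by
    intro a ha
    have h1 : ∀ Y ∈ Fintype.piFinset X, ZMod.stdAddChar (N := m)
        (∑ i, a i * (frm (c i) (fun p => Y p.1 p.2) - frm (c i) y)) = 1 := by
      intro Y hY
      obtain ⟨hp1, _⟩ := hprop Y hY
      rw [hcomb]
      have h3 : frm (cmb c a) (fun p => Y p.1 p.2) = frm (cmb c a) y := by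
        unfold frm
        refine sum_congr rfl fun v _ => ?_
        by_cases hv : v.1 ∈ S
        · have := hp1 v.1 hv v.2
          simp only [this]
        · have h4 : cmb c a v = 0 := by
            by_contra h5
            apply hv
            apply ha
            unfold live
            rw [mem_filter]
            exact ⟨mem_univ _, v.2, h5⟩
          simp only [h4, ite_self]
      rw [h3, sub_self, AddChar.map_zero_eq_one]
    simp only [F]
    rw [sum_congr rfl h1, sum_const, nsmul_eq_mul, mul_one, Fintype.card_piFinset]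
    simp only [P]
    push_cast
    rfl
  -- live set with many elements outside S
  have hout : ∀ a : I → ZMod m, r ≤ (live c a \ S).card → ‖F a‖ ≤ P * θ ^ r := by
    intro a ha
    have h1 : F a = (∏ e, ∑ x ∈ X e, ZMod.stdAddChar (N := m)
        (frm (fun t => cmb c a (e, t)) x)) * ZMod.stdAddChar (N := m) (-frm (cmb c a) y) := by
      rw [Finset.prod_univ_sum, sum_mul]
      refine sum_congr rfl fun Y _ => ?_
      rw [hcomb, sub_eq_add_neg, AddChar.map_add_eq_mul, frm_split, char_sum]
    rw [h1, norm_mul, norm_char, mul_one, norm_prod]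
    have h3 : ∀ e, ‖∑ x ∈ X e, ZMod.stdAddChar (N := m) (frm (fun t => cmb c a (e, t)) x)‖ ≤
        (if e ∈ live c a \ S then θ else 1) * ((X e).card : ℝ) := by
      intro e
      split_ifs with he
      · obtain ⟨he1, he2⟩ := mem_sdiff.mp he
        have h4 : X e = cls q B (z e) := by simp only [X, if_neg he2]
        rw [h4]
        refine hθ _ ?_ (z e)
        unfold live at he1
        exact (mem_filter.mp he1).2
      · refine (norm_sum_le _ _).trans ?_
        rw [one_mul]
        refine le_of_eq ?_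
        rw [sum_congr rfl (fun x _ => norm_char _), sum_const, nsmul_eq_mul, mul_one]
    refine (prod_le_prod (fun e _ => norm_nonneg _) (fun e _ => h3 e)).trans ?_
    rw [prod_mul_distrib, prod_ite, prod_const_one, mul_one, prod_const, mul_comm]
    refine mul_le_mul_of_nonneg_left ?_ hP.le
    have h5 : (univ.filter fun e => e ∈ live c a \ S).card = (live c a \ S).card := by
      congr 1
      ext e
      simp
    rw [h5]
    exact pow_le_pow_of_le_one hθ0.le hθ1.le ha
  have hθr : 0 < θ ^ r := pow_pos hθ0 r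
  have hre : ∀ a : I → ZMod m, 0 ≤ (F a).re + P * θ ^ r := by
    intro a
    have h3 : 0 < P * θ ^ r := mul_pos hP hθr
    rcases hcl a with h4 | h4
    · rw [hin a h4, Complex.ofReal_re]
      linarith
    · have h5 := hout a h4
      have h6 := Complex.abs_re_le_norm (F a)
      have h7 := (abs_le.mp h6).1
      linarith
  have hF00 : (F 0).re = P := by
    have h3 : live c (0 : I → ZMod m) ⊆ S := by
      intro e he
      unfold live at he
      obtain ⟨t, ht⟩ := (mem_filter.mp he).2
      exact absurd (by simp [cmb]) ht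
    rw [hin 0 h3, Complex.ofReal_re]
  have hsum : (F 0).re + P * θ ^ r ≤ ∑ a, ((F a).re + P * θ ^ r) :=
    single_le_sum (fun a _ => hre a) (mem_univ (0 : I → ZMod m))
  have hre0 : ∑ a, (F a).re = 0 := by
    rw [← Complex.re_sum, hF0, Complex.zero_re]
  rw [sum_add_distrib, hre0, zero_add, sum_const, nsmul_eq_mul, hF00, card_univ,
    Fintype.card_fun, ZMod.card] at hsum
  -- the numbers
  have hpow : θ ^ r ≤ (1 / (m : ℝ)) ^ (Fintype.card I + 1) := by
    rw [hr, pow_mul]
    exact pow_le_pow_left₀ (pow_nonneg hθ0.le _) hC0.le _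
  have hnum : ((m ^ Fintype.card I : ℕ) : ℝ) * θ ^ r ≤ 1 / m := by
    calc ((m ^ Fintype.card I : ℕ) : ℝ) * θ ^ r
        ≤ ((m ^ Fintype.card I : ℕ) : ℝ) * (1 / (m : ℝ)) ^ (Fintype.card I + 1) :=
          mul_le_mul_of_nonneg_left hpow (Nat.cast_nonneg _)
      _ = 1 / m := by
          push_cast
          rw [pow_succ, ← mul_assoc, ← mul_pow, mul_one_div_cancel hmpos.ne', one_pow, one_mul]
  have hm2 : 1 / (m : ℝ) ≤ 1 / 2 := by
    apply one_div_le_one_div_of_le (by norm_num)
    exact_mod_cast hm
  have h8 : ((m ^ Fintype.card I : ℕ) : ℝ) * (P * θ ^ r) ≤ P * (1 / 2) := by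
    calc ((m ^ Fintype.card I : ℕ) : ℝ) * (P * θ ^ r)
        = P * (((m ^ Fintype.card I : ℕ) : ℝ) * θ ^ r) := by ring
      _ ≤ P * (1 / 2) := mul_le_mul_of_nonneg_left (hnum.trans hm2) hP.le
  have h9 : 0 < P * θ ^ r := mul_pos hP hθr
  linarith

end Pool.Agent.Helper600R2.CM.M3
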