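import Pool.Agent.Helper600R2.CM.Stm

/-!
# M4: small closed sets
-/

namespace Pool.Agent.Helper600R2.CM.M4

open Finset Pool.Agent.Helper600R2 Pool.Agent.H564R2.QF

lemma live_sub {E I : Type} [Fintype E] [DecidableEq E] [Fintype I] {m B : ℕ}
    (c : I → E × Fin B → ZMod m) (a b : I → ZMod m) :
    live c (a - b) ⊆ live c a ∪ live c b := by
  intro e he
  rw [live, Finset.mem_filter] at he
  obtain ⟨t, ht⟩ := he.2
  rw [Finset.mem_union]
  by_contra hne
  push Not at hne
  have h1 : cmb c a (e, t) = 0 := by
    by_contra h
    exact hne.1 (by rw [live, Finset.mem_filter]; exact ⟨Finset.mem_univ _, t, h⟩)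
  have h2 : cmb c b (e, t) = 0 := by
    by_contra h
    exact hne.2 (by rw [live, Finset.mem_filter]; exact ⟨Finset.mem_univ _, t, h⟩)
  apply ht
  have : cmb c (a - b) (e, t) = cmb c a (e, t) - cmb c b (e, t) := by
    unfold cmb
    rw [← Finset.sum_sub_distrib]
    exact Finset.sum_congr rfl fun i _ => by rw [Pi.sub_apply, sub_mul]
  rw [this, h1, h2, sub_zero]

lemma live_zero {E I : Type} [Fintype E] [Fintype I] {m B : ℕ}
    (c : I → E × Fin B → ZMod m) : live c (0 : I → ZMod m) = ∅ := by
  apply Finset.eq_empty_of_forall_notMem
  intro e he
  rw [live, Finset.mem_filter] at he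
  obtain ⟨t, ht⟩ := he.2
  apply ht
  unfold cmb
  exact Finset.sum_eq_zero fun i _ => by rw [Pi.zero_apply, zero_mul]

theorem proof_M4 : S_Closure := by
  classical
  intro m B hm E I _ hE _ c r S0
  have : NeZero m := ⟨by omega⟩
  -- the combinations supported in `S`
  set A : Finset E → Finset (I → ZMod m) := fun S => univ.filter fun a => live c a ⊆ S with hA
  have memA : ∀ S a, a ∈ A S ↔ live c a ⊆ S := by
    intro S a
    rw [hA, Finset.mem_filter]
    exact ⟨fun h => h.2, fun h => ⟨Finset.mem_univ _, h⟩⟩
  set K := Fintype.card I * m with hK
  have hcard : ∀ S, (A S).card ≤ 2 ^ K := by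
    intro S
    refine (Finset.card_le_univ _).trans ?_
    rw [Fintype.card_fun, ZMod.card, hK, mul_comm, pow_mul]
    exact Nat.pow_le_pow_left Nat.lt_two_pow_self.le _
  have key : ∀ j : ℕ, j ≤ K + 1 → ∃ S : Finset E, S0 ⊆ S ∧
      (∀ S' : Finset E, S0 ⊆ S' → Closed r c S' → S ⊆ S') ∧
      ((Closed r c S ∧ S.card ≤ S0.card + r * K) ∨
        (2 ^ j ≤ (A S).card ∧ S.card ≤ S0.card + r * j)) := by
    intro j
    induction j with
    | zero =>
      intro _
      refine ⟨S0, Finset.Subset.refl _, fun S' h _ => h, Or.inr ⟨?_, by simp⟩⟩
      rw [pow_zero]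
      apply Finset.card_pos.2
      refine ⟨0, (memA _ _).2 ?_⟩
      rw [live_zero]
      exact Finset.empty_subset _
    | succ j ih =>
      intro hj
      obtain ⟨S, h0, h1, h2⟩ := ih (by omega)
      rcases h2 with h2 | ⟨h2, h3⟩
      · exact ⟨S, h0, h1, Or.inl h2⟩
      by_cases hc : Closed r c S
      · refine ⟨S, h0, h1, Or.inl ⟨hc, h3.trans ?_⟩⟩
        have : r * j ≤ r * K := Nat.mul_le_mul_left _ (by omega)
        omega
      unfold Closed at hc
      push Not at hc
      obtain ⟨a, ha1, ha2⟩ := hc
      refine ⟨S ∪ live c a, h0.trans Finset.subset_union_left, ?_, Or.inr ⟨?_, ?_⟩⟩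
      · intro S' hS' hC
        have hs := h1 S' hS' hC
        refine Finset.union_subset hs ?_
        rcases hC a with h | h
        · exact h
        · exfalso
          have h4 : (live c a \ S').card ≤ (live c a \ S).card :=
            Finset.card_le_card (Finset.sdiff_subset_sdiff (Finset.Subset.refl _) hs)
          have h5 : (live c a \ S').card < r := lt_of_le_of_lt h4 (by convert ha2)
          have h6 : r ≤ (live c a \ S').card := by convert h
          omega
      · -- doubling
        have hsub : A S ∪ (A S).image (fun b => a - b) ⊆ A (S ∪ live c a) := by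
          apply Finset.union_subset
          · intro b hb
            rw [memA] at hb ⊢
            exact hb.trans Finset.subset_union_left
          · intro b hb
            rw [Finset.mem_image] at hb
            obtain ⟨b', hb', rfl⟩ := hb
            rw [memA] at hb' ⊢
            refine (live_sub c a b').trans ?_
            intro e he
            rw [Finset.mem_union] at he ⊢
            rcases he with he | he
            · exact Or.inr he
            · exact Or.inl (hb' he)
        have hdis : Disjoint (A S) ((A S).image (fun b => a - b)) := by
          rw [Finset.disjoint_left]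
          intro b hb hb2
          rw [Finset.mem_image] at hb2
          obtain ⟨b', hb', hbb⟩ := hb2
          apply ha1
          rw [memA] at hb hb'
          have h7 : a = b - (-b') := by
            rw [← hbb]
            abel
          have h8 : live c (-b') ⊆ live c b' := by
            have := live_sub c 0 b'
            rw [live_zero, Finset.empty_union, zero_sub] at this
            exact this
          rw [h7]
          refine (live_sub c b (-b')).trans ?_
          exact Finset.union_subset hb (h8.trans hb')
        have hci : ((A S).image (fun b => a - b)).card = (A S).card :=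
          Finset.card_image_of_injective _ (fun x y hxy => by
            have : a - x = a - y := hxy
            exact sub_right_injective this)
        have h9 := Finset.card_le_card hsub
        rw [Finset.card_union_of_disjoint hdis, hci] at h9
        rw [pow_succ]
        omega
      · have h10 : (S ∪ live c a).card ≤ S.card + (live c a \ S).card := by
          rw [← Finset.union_sdiff_self_eq_union]
          exact Finset.card_union_le _ _
        have h11 : (live c a \ S).card < r := by convert ha2
        have h12 : (S ∪ live c a).card ≤ S0.card + r * j + r := by omega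
        rw [Nat.mul_succ]
        omega
  obtain ⟨S, h0, h1, h2⟩ := key (K + 1) le_rfl
  rcases h2 with ⟨h2, h3⟩ | ⟨h2, h3⟩
  · exact ⟨S, h0, h2, h3, h1⟩
  · exfalso
    have h4 := h2.trans (hcard S)
    have h5 : 2 ^ K < 2 ^ (K + 1) := Nat.pow_lt_pow_right (by norm_num) (Nat.lt_succ_self _)
    omega

end Pool.Agent.Helper600R2.CM.M4
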