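import Pool.Agent.Helper600R2.CM.Stm

/-!
M5: the Tseitin systems of expanders are locally consistent.
-/

namespace Pool.Agent.Helper600R2.CM.M5

set_option linter.unusedSectionVars false

open Finset Pool.Agent.Helper600R2 Pool.Agent.Helper600R2.CM

section

variable {E : Type} [Fintype E] [DecidableEq E] {q : ℕ} [NeZero q]

open Classical in
/-- indicator of the partial assignment -/
noncomputable def ind (S : Finset E) (z : E → ZMod q) : (E → ZMod q) → ℂ :=
  fun x => if ∀ e ∈ S, x e = z e then 1 else 0

theorem ind_empty (z : E → ZMod q) : ind (∅ : Finset E) z = 1 := by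
  funext x; simp [ind]

theorem ind_congr (S : Finset E) (z z' : E → ZMod q) (h : ∀ e ∈ S, z e = z' e) :
    ind S z = ind S z' := by
  funext x
  simp only [ind]
  congr 1
  apply propext
  constructor
  · intro h1 e he; rw [h1 e he, h e he]
  · intro h1 e he; rw [h1 e he, h e he]

theorem ind_union (S S' : Finset E) (z : E → ZMod q) :
    ind (S ∪ S') z = ind S z * ind S' z := by
  funext x
  simp only [ind, Pi.mul_apply, mem_union]
  by_cases h1 : ∀ e ∈ S, x e = z e
  · by_cases h2 : ∀ e ∈ S', x e = z e
    · rw [if_pos h1, if_pos h2, if_pos, one_mul]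
      rintro e (he | he)
      · exact h1 e he
      · exact h2 e he
    · rw [if_neg h2, if_neg, mul_zero]
      intro h; exact h2 fun e he => h e (Or.inr he)
  · rw [if_neg h1, if_neg, zero_mul]
    intro h; exact h1 fun e he => h e (Or.inl he)

theorem ind_single_DC (ψ : AddChar (ZMod q) ℂ) (hψ : ψ.IsPrimitive) (e : E) (z : E → ZMod q) :
    ind {e} z ∈ DC ψ 1 := by
  have hq : (q : ℂ) ≠ 0 := by exact_mod_cast NeZero.ne q
  have heq : ind {e} z = (q : ℂ)⁻¹ • ∑ c : ZMod q, ψ (-(c * z e)) • chi ψ (Pi.single e c) := by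
    funext x
    have h4 : ∀ c : ZMod q, chi ψ (Pi.single e c) x = ψ (c * x e) := by
      intro c
      simp only [chi]
      congr 1
      rw [Finset.sum_eq_single e]
      · simp
      · intro i _ hi
        simp [Pi.single_eq_of_ne hi]
      · intro h; exact absurd (mem_univ _) h
    have h6 : ∑ c : ZMod q, ψ (-(c * z e)) * ψ (c * x e) =
        if x e - z e = 0 then (q : ℂ) else 0 := by
      have h7 := AddChar.sum_mulShift (R' := ℂ) (x e - z e) hψ
      rw [ZMod.card] at h7
      rw [Nat.cast_ite, Nat.cast_zero] at h7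
      rw [← h7]
      refine Finset.sum_congr rfl (fun c _ => ?_)
      rw [← AddChar.map_add_eq_mul]
      congr 1; ring
    simp only [Pi.smul_apply, Finset.sum_apply, smul_eq_mul, h4, h6, ind, mem_singleton,
      forall_eq]
    by_cases hz : x e = z e
    · rw [if_pos hz, if_pos (by rw [hz, sub_self]), inv_mul_cancel₀ hq]
    · rw [if_neg hz, if_neg (sub_ne_zero.mpr hz), mul_zero]
  rw [heq]
  refine Submodule.smul_mem _ _ (Submodule.sum_mem _ fun c _ => Submodule.smul_mem _ _ ?_)
  apply chi_mem_DC
  refine (card_le_card (t := {e}) ?_).trans (by simp)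
  intro i hi
  simp only [nsupp, mem_filter, mem_univ, true_and, mem_singleton] at hi ⊢
  by_contra hne
  exact hi (by simp [Pi.single_eq_of_ne hne])

theorem ind_DC (ψ : AddChar (ZMod q) ℂ) (hψ : ψ.IsPrimitive) (S : Finset E) (z : E → ZMod q) :
    ind S z ∈ DC ψ S.card := by
  induction S using Finset.induction_on with
  | empty =>
    rw [ind_empty]; exact one_mem_DC ψ _
  | insert e S he ih =>
    rw [card_insert_of_notMem he, insert_eq, ind_union, add_comm]
    exact DC_mul ψ (ind_single_DC ψ hψ e z) ih

theorem ind_sum (S : Finset E) (z : E → ZMod q) (e : E) (he : e ∉ S) :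
    ind S z = ∑ c : ZMod q, ind (insert e S) (Function.update z e c) := by
  funext x
  rw [Finset.sum_apply]
  have key : ∀ c : ZMod q, (∀ e' ∈ insert e S, x e' = Function.update z e c e') ↔
      (x e = c ∧ ∀ e' ∈ S, x e' = z e') := by
    intro c
    constructor
    · intro h
      refine ⟨by simpa using h e (mem_insert_self _ _), fun e' he' => ?_⟩
      have hne : e' ≠ e := by rintro rfl; exact he he'
      have := h e' (mem_insert_of_mem he')
      rwa [Function.update_of_ne hne] at this
    · rintro ⟨h1, h2⟩ e' he'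
      by_cases hee : e' = e
      · rw [hee]; simpa using h1
      · rw [Function.update_of_ne hee]
        exact h2 e' (mem_of_mem_insert_of_ne he' hee)
  simp only [ind, key]
  by_cases h : ∀ e' ∈ S, x e' = z e'
  · rw [if_pos h]
    rw [Finset.sum_eq_single (x e)]
    · rw [if_pos ⟨rfl, h⟩]
    · intro c _ hc
      rw [if_neg]
      rintro ⟨h1, -⟩
      exact hc h1.symm
    · intro h'; exact absurd (mem_univ _) h'
  · rw [if_neg h]
    symm
    apply Finset.sum_eq_zero
    intro c _
    rw [if_neg]
    rintro ⟨-, h1⟩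
    exact h h1

end

theorem proof_M5 : S_Game := by
  intro n q _ hq2 hn π hπ b W hW
  classical
  let ψ : AddChar (ZMod q) ℂ := ZMod.stdAddChar
  have hψ : ψ.IsPrimitive := ZMod.isPrimitive_stdAddChar q
  have hq : (q : ℂ) ≠ 0 := by exact_mod_cast NeZero.ne q
  obtain ⟨R, hR1, hR2, hR3⟩ := exists_reduction (ghd π) gtl ψ hψ b (W + 4)
    (by rw [Fintype.card_fin]; omega) (graph_conn π) (graph_exp π hπ hW)
  have hdown : ∀ w, w ≤ W + 4 → ∀ g ∈ DC ψ w, g ∈ NF (ghd π) gtl ψ b (W + 4) →
      g ∈ NF (ghd π) gtl ψ b w := by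
    intro w hw g hg hg'
    have h1 := hR2 w hw g hg
    rw [hR1 g hg', sub_zero] at h1
    exact h1
  refine ⟨fun S z => S.card ≤ W ∧ ind S z ∉ NF (ghd π) gtl ψ b (W + 4), ?_, ?_, ?_, ?_, ?_⟩
  · refine ⟨0, by simp, ?_⟩
    rw [ind_empty]
    exact fun h => hR3 (hR1 1 h)
  · rintro S z z' h ⟨h1, h2⟩
    refine ⟨h1, ?_⟩
    rwa [ind_congr S z' z fun e he => (h e he).symm]
  · rintro S S' z hSS ⟨h1, h2⟩
    have hc : S'.card ≤ S.card := card_le_card hSS
    refine ⟨hc.trans h1, fun h => h2 ?_⟩
    have h3 := hdown S'.card (by omega) _ (ind_DC ψ hψ S' z) h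
    have h4 := NF_mul (ghd π) gtl ψ h3 (ind_DC ψ hψ (S \ S') z)
    rw [← ind_union, union_sdiff_of_subset hSS] at h4
    refine NF_mono (ghd π) gtl ψ ?_ h4
    rw [card_sdiff_of_subset hSS]
    omega
  · rintro S z e hSW ⟨h1, h2⟩
    by_cases he : e ∈ S
    · exact ⟨z, fun _ _ => rfl, by rw [insert_eq_of_mem he]; exact ⟨h1, h2⟩⟩
    · by_contra hcon
      push Not at hcon
      apply h2
      rw [ind_sum S z e he]
      refine Submodule.sum_mem _ fun c _ => ?_
      apply hcon (Function.update z e c)
      · intro e' he'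
        have hne : e' ≠ e := by rintro rfl; exact he he'
        rw [Function.update_of_ne hne]
      · rw [card_insert_of_notMem he]; omega
  · rintro S z v ⟨h1, h2⟩ hst
    by_contra hne
    apply h2
    let Cind : (Fin n × Bool → ZMod q) → ℂ := fun x => if flow (ghd π) gtl v x = b v then 1 else 0
    have h3 := NF_constraint (ghd π) gtl ψ hψ hq b (by rw [Fintype.card_fin]; omega) 4
      (graph_deg π) v Cind (fun x hx => by simp [Cind, hx]) (fun x hx => by simp [Cind, hx])
    have h4 := NF_mul (ghd π) gtl ψ h3 (ind_DC ψ hψ S z)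
    have h5 : (1 - Cind) * ind S z = ind S z := by
      funext x
      simp only [Pi.mul_apply, Pi.sub_apply, Pi.one_apply, ind]
      by_cases hx : ∀ e ∈ S, x e = z e
      · rw [if_pos hx]
        have hf : flow (ghd π) gtl v x = flow (ghd π) gtl v z := by
          simp only [flow]
          refine Finset.sum_congr rfl fun e _ => ?_
          by_cases hz : dd (ghd π) gtl (Pi.single v (1 : ZMod q)) e = 0
          · rw [hz, zero_mul, zero_mul]
          · rw [hx e (hst (by simp [nsupp, hz]))]
        have hCx : Cind x = 0 := by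
          simp only [Cind]
          rw [if_neg]
          rw [hf]; exact hne
        rw [hCx, sub_zero, one_mul]
      · rw [if_neg hx, mul_zero]
    rw [h5] at h4
    exact NF_mono (ghd π) gtl ψ (by omega) h4

end Pool.Agent.Helper600R2.CM.M5
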