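import Pool.Agent.Helper600R2.CM.Stm

/-! Task M7: a polynomial bounded on an interval of integers cannot jump. -/

set_option autoImplicit false

namespace Pool.Agent.Helper600R2.CM.M7

open Finset

theorem prod1 (j : ℕ) : ∀ m, m + 1 ≤ j →
    (∏ i ∈ Icc 1 m, ((j : ℝ) ^ 2 - (i : ℝ) ^ 2)) * ((j - 1 - m).factorial : ℝ) *
      (j.factorial : ℝ) = ((j - 1).factorial : ℝ) * ((j + m).factorial : ℝ) := by
  intro m
  induction m with
  | zero => intro _; simp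
  | succ m ih =>
    intro h
    obtain ⟨s, rfl⟩ : ∃ s, j = m + 2 + s := ⟨j - (m + 2), by omega⟩
    have ih' := ih (by omega)
    rw [Finset.prod_Icc_succ_top (by omega)]
    have e1 : m + 2 + s - 1 - m = s + 1 := by omega
    have e2 : m + 2 + s - 1 - (m + 1) = s := by omega
    have e3 : m + 2 + s + (m + 1) = (m + 2 + s + m) + 1 := by omega
    rw [e1, Nat.factorial_succ] at ih'
    rw [e2, e3, Nat.factorial_succ (m + 2 + s + m)]
    push_cast at ih' ⊢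
    linear_combination ((m : ℝ) + 2 + s + m + 1) * ih'

theorem prodA (k : ℕ) : ∀ s : ℕ,
    (∏ i ∈ (Icc 1 (k + 1 + s)).erase (k + 1), |(i : ℝ) ^ 2 - ((k + 1 : ℕ) : ℝ) ^ 2|) *
      (2 * ((k + 1 : ℕ) : ℝ) ^ 2) =
      (s.factorial : ℝ) * ((k + 1 + s + (k + 1)).factorial : ℝ) := by
  intro s
  induction s with
  | zero =>
    have e1 : (Icc 1 (k + 1 + 0)).erase (k + 1) = Icc 1 k := by
      ext i
      simp only [mem_erase, mem_Icc]
      omega
    have e2 : ∏ i ∈ Icc 1 k, |(i : ℝ) ^ 2 - ((k + 1 : ℕ) : ℝ) ^ 2| =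
        ∏ i ∈ Icc 1 k, (((k + 1 : ℕ) : ℝ) ^ 2 - (i : ℝ) ^ 2) := by
      apply Finset.prod_congr rfl
      intro i hi
      rw [mem_Icc] at hi
      rw [abs_sub_comm, abs_of_nonneg]
      have h1 : (i : ℝ) ≤ ((k + 1 : ℕ) : ℝ) := by
        have : i ≤ k + 1 := by omega
        exact_mod_cast this
      have h2 : (0 : ℝ) ≤ i := Nat.cast_nonneg i
      nlinarith
    rw [e1, e2]
    have h := prod1 (k + 1) k le_rfl
    have e3 : k + 1 - 1 - k = 0 := by omega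
    have e4 : k + 1 - 1 = k := by omega
    have e5 : k + 1 + 0 + (k + 1) = (k + 1 + k) + 1 := by omega
    rw [e3, e4, Nat.factorial_zero, Nat.factorial_succ k] at h
    rw [e5, Nat.factorial_succ (k + 1 + k)]
    have hk : ((k.factorial : ℕ) : ℝ) ≠ 0 := by exact_mod_cast k.factorial_ne_zero
    have h' : (∏ i ∈ Icc 1 k, (((k + 1 : ℕ) : ℝ) ^ 2 - (i : ℝ) ^ 2)) * ((k : ℝ) + 1) =
        ((k + 1 + k).factorial : ℝ) := by
      apply mul_left_cancel₀ hk
      push_cast at h ⊢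
      linear_combination h
    push_cast at h' ⊢
    rw [← h']
    simp only [Nat.factorial_zero, Nat.cast_one]
    ring
  | succ s ih =>
    have e1 : (Icc 1 (k + 1 + (s + 1))).erase (k + 1) =
        insert (k + 1 + s + 1) ((Icc 1 (k + 1 + s)).erase (k + 1)) := by
      ext i
      simp only [mem_erase, mem_Icc, mem_insert]
      omega
    have e2 : k + 1 + s + 1 ∉ (Icc 1 (k + 1 + s)).erase (k + 1) := by
      simp only [mem_erase, mem_Icc]
      omega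
    rw [e1, Finset.prod_insert e2]
    have e3 : |((k + 1 + s + 1 : ℕ) : ℝ) ^ 2 - ((k + 1 : ℕ) : ℝ) ^ 2| =
        ((s : ℝ) + 1) * (k + 1 + s + (k + 1) + 1) := by
      rw [abs_of_nonneg]
      · push_cast
        ring
      · have h1 : ((k + 1 : ℕ) : ℝ) ≤ ((k + 1 + s + 1 : ℕ) : ℝ) := by
          have : k + 1 ≤ k + 1 + s + 1 := by omega
          exact_mod_cast this
        have h2 : (0 : ℝ) ≤ ((k + 1 : ℕ) : ℝ) := Nat.cast_nonneg _
        nlinarith
    have e5 : k + 1 + (s + 1) + (k + 1) = (k + 1 + s + (k + 1)) + 1 := by omega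
    rw [e3, e5, Nat.factorial_succ (k + 1 + s + (k + 1)), Nat.factorial_succ s]
    push_cast at ih ⊢
    linear_combination (((s : ℝ) + 1) * (k + 1 + s + (k + 1) + 1)) * ih

theorem fact_le (s : ℕ) : ∀ j : ℕ, (((s + j).factorial : ℕ) : ℝ) ^ 2 ≤
    ((s.factorial : ℕ) : ℝ) * (((s + j + j).factorial : ℕ) : ℝ) := by
  intro j
  have key : ∀ i, i ≤ j → ((s + j).factorial) ^ 2 ≤
      (s + j - i).factorial * (s + j + i).factorial := by
    intro i
    induction i with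
    | zero => intro _; simp [sq]
    | succ i ih =>
      intro hi
      have ih' := ih (by omega)
      refine ih'.trans ?_
      obtain ⟨a, ha⟩ : ∃ a, s + j - i = a + 1 := ⟨s + j - i - 1, by omega⟩
      have e1 : s + j - (i + 1) = a := by omega
      have e2 : s + j + (i + 1) = (s + j + i) + 1 := by omega
      rw [ha, e1, e2, Nat.factorial_succ a, Nat.factorial_succ (s + j + i)]
      have h1 : a + 1 ≤ s + j + i + 1 := by omega
      calc (a + 1) * a.factorial * (s + j + i).factorial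
          = (a + 1) * (a.factorial * (s + j + i).factorial) := by ring
        _ ≤ (s + j + i + 1) * (a.factorial * (s + j + i).factorial) :=
            Nat.mul_le_mul_right _ h1
        _ = a.factorial * ((s + j + i + 1) * (s + j + i).factorial) := by ring
  have h := key j le_rfl
  have e : s + j - j = s := by omega
  rw [e] at h
  exact_mod_cast h

theorem prodB (k s : ℕ) :
    ∏ i ∈ (Icc 1 (k + 1 + s)).erase (k + 1),
      ((i : ℝ) ^ 2 / |(i : ℝ) ^ 2 - ((k + 1 : ℕ) : ℝ) ^ 2|) ≤ 2 := by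
  rw [Finset.prod_div_distrib]
  have hA := prodA k s
  have hj : (0 : ℝ) < ((k + 1 : ℕ) : ℝ) := by positivity
  have hN : (∏ i ∈ (Icc 1 (k + 1 + s)).erase (k + 1), (i : ℝ) ^ 2) *
      ((k + 1 : ℕ) : ℝ) ^ 2 = (((k + 1 + s).factorial : ℕ) : ℝ) ^ 2 := by
    rw [Finset.prod_erase_mul _ _ (by rw [mem_Icc]; omega), Finset.prod_pow]
    congr 1
    have e0 : Icc 1 (k + 1 + s) = Ico 1 (k + 1 + s + 1) := by
      ext i
      simp only [mem_Icc, mem_Ico]
      omega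
    rw [e0, ← Finset.prod_Ico_id_eq_factorial, Nat.cast_prod]
  have hf := fact_le s (k + 1)
  have e1 : s + (k + 1) = k + 1 + s := by omega
  rw [e1, ← hN, ← hA] at hf
  have hpos : 0 < (∏ i ∈ (Icc 1 (k + 1 + s)).erase (k + 1),
      |(i : ℝ) ^ 2 - ((k + 1 : ℕ) : ℝ) ^ 2|) := by
    by_contra hcon
    rw [not_lt] at hcon
    have h1 : (s.factorial : ℝ) * ((k + 1 + s + (k + 1)).factorial : ℝ) ≤ 0 := by
      rw [← hA]
      exact mul_nonpos_of_nonpos_of_nonneg hcon (by positivity)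
    have h2 : 0 < (s.factorial : ℝ) * ((k + 1 + s + (k + 1)).factorial : ℝ) := by positivity
    linarith
  rw [div_le_iff₀ hpos]
  have h3 : (∏ i ∈ (Icc 1 (k + 1 + s)).erase (k + 1), (i : ℝ) ^ 2) *
      ((k + 1 : ℕ) : ℝ) ^ 2 ≤ (2 * (∏ i ∈ (Icc 1 (k + 1 + s)).erase (k + 1),
      |(i : ℝ) ^ 2 - ((k + 1 : ℕ) : ℝ) ^ 2|)) * ((k + 1 : ℕ) : ℝ) ^ 2 := by
    linarith
  exact le_of_mul_le_mul_right h3 (by positivity)

theorem sum_le : ∀ d : ℕ, ∑ j ∈ Icc 1 d, 1 / (j : ℝ) ^ 2 ≤ 2 - 1 / (d : ℝ) := by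
  intro d
  induction d with
  | zero => simp
  | succ d ih =>
    rw [Finset.sum_Icc_succ_top (by omega)]
    rcases Nat.eq_zero_or_pos d with h | h
    · subst h
      norm_num
    · have hd : (0 : ℝ) < d := by exact_mod_cast h
      have h1 : 1 / (((d + 1 : ℕ) : ℝ)) ^ 2 ≤ 1 / (d : ℝ) - 1 / ((d + 1 : ℕ) : ℝ) := by
        push_cast
        rw [div_sub_div _ _ hd.ne' (by positivity), div_le_div_iff₀ (by positivity) (by positivity)]
        nlinarith
      linarith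

theorem basis_le (d j : ℕ) (hj : j ∈ Icc 1 d) :
    |∏ i ∈ (range (d + 1)).erase j,
      ((5 * (j : ℝ) ^ 2 - 5 * (i : ℝ) ^ 2)⁻¹ * (1 - 5 * (i : ℝ) ^ 2))| ≤
      2 / 5 * (1 / (j : ℝ) ^ 2) := by
  rw [mem_Icc] at hj
  obtain ⟨k, rfl⟩ : ∃ k, j = k + 1 := ⟨j - 1, by omega⟩
  obtain ⟨s, rfl⟩ : ∃ s, d = k + 1 + s := ⟨d - (k + 1), by omega⟩
  have e1 : (range (k + 1 + s + 1)).erase (k + 1) =
      insert 0 ((Icc 1 (k + 1 + s)).erase (k + 1)) := by
    ext i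
    simp only [mem_erase, mem_Icc, mem_insert, mem_range]
    omega
  have e2 : 0 ∉ (Icc 1 (k + 1 + s)).erase (k + 1) := by
    simp only [mem_erase, mem_Icc]
    omega
  have hj0 : (0 : ℝ) < ((k + 1 : ℕ) : ℝ) := by positivity
  rw [e1, Finset.prod_insert e2, abs_mul, Finset.abs_prod]
  have h0 : |(5 * ((k + 1 : ℕ) : ℝ) ^ 2 - 5 * ((0 : ℕ) : ℝ) ^ 2)⁻¹ *
      (1 - 5 * ((0 : ℕ) : ℝ) ^ 2)| = 1 / 5 * (1 / ((k + 1 : ℕ) : ℝ) ^ 2) := by
    rw [abs_of_nonneg]
    · push_cast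
      field_simp
      ring
    · have : (0 : ℝ) ≤ (5 * ((k + 1 : ℕ) : ℝ) ^ 2)⁻¹ := by positivity
      simpa using this
  have h1 : ∏ i ∈ (Icc 1 (k + 1 + s)).erase (k + 1),
      |(5 * ((k + 1 : ℕ) : ℝ) ^ 2 - 5 * (i : ℝ) ^ 2)⁻¹ * (1 - 5 * (i : ℝ) ^ 2)| ≤
      ∏ i ∈ (Icc 1 (k + 1 + s)).erase (k + 1),
      ((i : ℝ) ^ 2 / |(i : ℝ) ^ 2 - ((k + 1 : ℕ) : ℝ) ^ 2|) := by
    apply Finset.prod_le_prod
    · intro i _
      positivity
    · intro i hi
      rw [mem_erase, mem_Icc] at hi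
      have hi1 : (1 : ℝ) ≤ i := by exact_mod_cast hi.2.1
      have e3 : (5 * ((k + 1 : ℕ) : ℝ) ^ 2 - 5 * (i : ℝ) ^ 2) =
          -(5 * ((i : ℝ) ^ 2 - ((k + 1 : ℕ) : ℝ) ^ 2)) := by ring
      have e4 : |1 - 5 * (i : ℝ) ^ 2| = 5 * (i : ℝ) ^ 2 - 1 := by
        rw [abs_sub_comm, abs_of_nonneg]
        nlinarith
      rw [abs_mul, abs_inv, e3, abs_neg, abs_mul, e4, abs_of_pos (by norm_num : (0 : ℝ) < 5),
        mul_inv, div_eq_mul_inv]
      have h2 : 0 ≤ |(i : ℝ) ^ 2 - ((k + 1 : ℕ) : ℝ) ^ 2|⁻¹ := by positivity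
      nlinarith
  rw [h0]
  calc 1 / 5 * (1 / ((k + 1 : ℕ) : ℝ) ^ 2) * ∏ i ∈ (Icc 1 (k + 1 + s)).erase (k + 1),
      |(5 * ((k + 1 : ℕ) : ℝ) ^ 2 - 5 * (i : ℝ) ^ 2)⁻¹ * (1 - 5 * (i : ℝ) ^ 2)|
      ≤ 1 / 5 * (1 / ((k + 1 : ℕ) : ℝ) ^ 2) * 2 :=
        mul_le_mul_of_nonneg_left (h1.trans (prodB k s)) (by positivity)
    _ = 2 / 5 * (1 / ((k + 1 : ℕ) : ℝ) ^ 2) := by ring

theorem proof_M7 : S_Lag := by
  intro d t p hp ht hb h0 h1
  have hinj : Set.InjOn (fun i : ℕ => 5 * (i : ℝ) ^ 2) (range (d + 1) : Finset ℕ) := by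
    intro a _ b _ hab
    simp only at hab
    have h2 : (a : ℝ) ^ 2 = (b : ℝ) ^ 2 := by linarith
    have h3 : a ^ 2 = b ^ 2 := by exact_mod_cast h2
    exact Nat.pow_left_injective (by norm_num : 2 ≠ 0) h3
  have hdeg : p.degree < ((range (d + 1)).card : ℕ) := by
    rw [card_range]
    calc p.degree ≤ (p.natDegree : ℕ) := Polynomial.degree_le_natDegree
      _ < ((d + 1 : ℕ) : WithBot ℕ) := by
        exact_mod_cast Nat.lt_succ_of_le hp
  have hint := Lagrange.eq_interpolate hinj hdeg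
  have hev : p.eval 1 = ∑ j ∈ range (d + 1), p.eval (5 * (j : ℝ) ^ 2) *
      ∏ i ∈ (range (d + 1)).erase j,
        ((5 * (j : ℝ) ^ 2 - 5 * (i : ℝ) ^ 2)⁻¹ * (1 - 5 * (i : ℝ) ^ 2)) := by
    conv_lhs => rw [hint]
    rw [Lagrange.interpolate_apply, Polynomial.eval_finsetSum]
    apply Finset.sum_congr rfl
    intro j _
    rw [Polynomial.eval_mul, Polynomial.eval_C, Lagrange.basis, Polynomial.eval_prod]
    congr 1
    apply Finset.prod_congr rfl
    intro i _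
    simp [Lagrange.basisDivisor]
  have hsplit : range (d + 1) = insert 0 (Icc 1 d) := by
    ext i
    simp only [mem_range, mem_insert, mem_Icc]
    omega
  have h00 : 0 ∉ Icc 1 d := by simp
  have hle : p.eval 1 ≤ 4 / 5 := by
    rw [hev]
    conv_lhs => rw [hsplit]
    rw [Finset.sum_insert h00]
    have hz : p.eval (5 * ((0 : ℕ) : ℝ) ^ 2) = 0 := by
      rw [Nat.cast_zero, zero_pow (by norm_num), mul_zero]
      exact h0
    rw [hz, zero_mul, zero_add]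
    calc ∑ j ∈ Icc 1 d, p.eval (5 * (j : ℝ) ^ 2) *
        ∏ i ∈ (insert 0 (Icc 1 d)).erase j,
          ((5 * (j : ℝ) ^ 2 - 5 * (i : ℝ) ^ 2)⁻¹ * (1 - 5 * (i : ℝ) ^ 2))
        ≤ ∑ j ∈ Icc 1 d, 2 / 5 * (1 / (j : ℝ) ^ 2) := by
          apply Finset.sum_le_sum
          intro j hj
          rw [← hsplit]
          have hB := basis_le d j hj
          rw [mem_Icc] at hj
          have hjt : 5 * j ^ 2 ≤ t := by
            have : j ^ 2 ≤ d ^ 2 := Nat.pow_le_pow_left hj.2 2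
            omega
          have hbj := hb (5 * j ^ 2) hjt
          push_cast at hbj
          calc _ ≤ |p.eval (5 * (j : ℝ) ^ 2) * ∏ i ∈ (range (d + 1)).erase j,
              ((5 * (j : ℝ) ^ 2 - 5 * (i : ℝ) ^ 2)⁻¹ * (1 - 5 * (i : ℝ) ^ 2))| := le_abs_self _
            _ = p.eval (5 * (j : ℝ) ^ 2) * |∏ i ∈ (range (d + 1)).erase j,
              ((5 * (j : ℝ) ^ 2 - 5 * (i : ℝ) ^ 2)⁻¹ * (1 - 5 * (i : ℝ) ^ 2))| := by
                rw [abs_mul, abs_of_nonneg hbj.1]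
            _ ≤ 1 * (2 / 5 * (1 / (j : ℝ) ^ 2)) :=
                mul_le_mul hbj.2 hB (abs_nonneg _) zero_le_one
            _ = _ := one_mul _
      _ = 2 / 5 * ∑ j ∈ Icc 1 d, 1 / (j : ℝ) ^ 2 := by rw [Finset.mul_sum]
      _ ≤ 2 / 5 * 2 := by
          apply mul_le_mul_of_nonneg_left _ (by norm_num)
          have h2 := sum_le d
          have h3 : 0 ≤ 1 / (d : ℝ) := by positivity
          linarith
      _ = 4 / 5 := by norm_num
  rw [h1] at hle
  norm_num at hle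

end Pool.Agent.Helper600R2.CM.M7
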