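import Pool.Agent.Helper600R2.CM.Stm

/-! Task M8 (helper355): symmetrisation of a function of low degree on the cube. -/

set_option autoImplicit false

namespace Pool.Agent.Helper600R2.CM.M8

open Finset Pool.Agent.Helper600R2 Pool.Agent.H564R2.QF

/-- the symmetrisation is a polynomial of degree at most `d` -/
def Good (t d : ℕ) (g : (Fin t → Bool) → ℝ) : Prop :=
  ∃ p : Polynomial ℝ, p.natDegree ≤ d ∧ ∀ k : ℕ, k ≤ t →
    p.eval (k : ℝ) = (∑ U ∈ powersetCard k (univ : Finset (Fin t)),
      g (fun i => decide (i ∈ U))) / (t.choose k : ℝ)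

lemma good_zero (t d : ℕ) : Good t d 0 := ⟨0, by simp, fun k _ => by simp⟩

lemma good_add {t d : ℕ} {f g : (Fin t → Bool) → ℝ} (hf : Good t d f) (hg : Good t d g) :
    Good t d (f + g) := by
  obtain ⟨p, hp, hp'⟩ := hf
  obtain ⟨q, hq, hq'⟩ := hg
  refine ⟨p + q, (Polynomial.natDegree_add_le _ _).trans (max_le hp hq), fun k hk => ?_⟩
  rw [Polynomial.eval_add, hp' k hk, hq' k hk, ← add_div, ← Finset.sum_add_distrib]
  rfl

lemma good_smul {t d : ℕ} {f : (Fin t → Bool) → ℝ} (c : ℝ) (hf : Good t d f) :
    Good t d (c • f) := by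
  obtain ⟨p, hp, hp'⟩ := hf
  refine ⟨Polynomial.C c * p, (Polynomial.natDegree_C_mul_le _ _).trans hp, fun k hk => ?_⟩
  rw [Polynomial.eval_mul, Polynomial.eval_C, hp' k hk, ← mul_div_assoc, Finset.mul_sum]
  rfl

lemma good_sum {t d : ℕ} {ι : Type} (s : Finset ι) (f : ι → (Fin t → Bool) → ℝ)
    (h : ∀ i ∈ s, Good t d (f i)) : Good t d (∑ i ∈ s, f i) := by
  classical
  induction s using Finset.induction_on with
  | empty => simpa using good_zero t d
  | insert a s ha ih =>
    rw [Finset.sum_insert ha]
    exact good_add (h a (mem_insert_self _ _)) (ih fun i hi => h i (mem_insert_of_mem hi))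

/-- the product of the variables in `T` -/
noncomputable def mon {t : ℕ} (T : Finset (Fin t)) (x : Fin t → Bool) : ℝ :=
  ∏ i ∈ T, if x i = true then 1 else 0

lemma card_sup {t k : ℕ} (T : Finset (Fin t)) (h : T.card ≤ k) :
    ((powersetCard k (univ : Finset (Fin t))).filter (fun U => T ⊆ U)).card =
      (t - T.card).choose (k - T.card) := by
  have h1 : (t - T.card).choose (k - T.card) = (powersetCard (k - T.card) Tᶜ).card := by
    rw [card_powersetCard, card_compl, Fintype.card_fin]
  rw [h1]
  refine Finset.card_nbij' (fun U => U \ T) (fun U => U ∪ T) ?_ ?_ ?_ ?_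
  · intro U hU
    simp only [coe_filter, mem_powersetCard, Set.mem_ofPred_eq, subset_univ, true_and] at hU
    simp only [mem_coe, mem_powersetCard]
    refine ⟨fun i hi => mem_compl.2 (mem_sdiff.1 hi).2, ?_⟩
    rw [card_sdiff_of_subset hU.2, hU.1]
  · intro U hU
    simp only [mem_coe, mem_powersetCard] at hU
    simp only [coe_filter, mem_powersetCard, Set.mem_ofPred_eq, subset_univ, true_and]
    refine ⟨?_, subset_union_right⟩
    rw [card_union_of_disjoint, hU.2]
    · omega
    · rw [Finset.disjoint_left]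
      intro i hi hiT
      exact mem_compl.1 (hU.1 hi) hiT
  · intro U hU
    simp only [coe_filter, mem_powersetCard, Set.mem_ofPred_eq, subset_univ, true_and] at hU
    exact sdiff_union_of_subset hU.2
  · intro U hU
    simp only [mem_coe, mem_powersetCard] at hU
    refine union_sdiff_cancel_right ?_
    rw [Finset.disjoint_left]
    intro i hi hiT
    exact mem_compl.1 (hU.1 hi) hiT

lemma mon_sum {t k : ℕ} (T : Finset (Fin t)) :
    (∑ U ∈ powersetCard k (univ : Finset (Fin t)), mon T (fun i => decide (i ∈ U))) =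
      (((powersetCard k (univ : Finset (Fin t))).filter (fun U => T ⊆ U)).card : ℝ) := by
  rw [Finset.card_filter, Nat.cast_sum]
  refine Finset.sum_congr rfl fun U _ => ?_
  unfold mon
  by_cases h : T ⊆ U
  · rw [if_pos h, Nat.cast_one]
    refine Finset.prod_eq_one fun i hi => ?_
    simp [h hi]
  · rw [if_neg h, Nat.cast_zero]
    obtain ⟨i, hi, hiU⟩ := Finset.not_subset.1 h
    refine Finset.prod_eq_zero hi ?_
    simp [hiU]

lemma good_mon {t d : ℕ} (T : Finset (Fin t)) (hT : T.card ≤ d) : Good t d (mon T) := by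
  have hTt : T.card ≤ t := by simpa using card_le_univ T
  refine ⟨Polynomial.C (1 / ((T.card.factorial : ℝ) * (t.choose T.card : ℝ))) *
    descPochhammer ℝ T.card, ?_, fun k hk => ?_⟩
  · refine (Polynomial.natDegree_C_mul_le _ _).trans ?_
    rw [descPochhammer_natDegree]
    exact hT
  · rw [Polynomial.eval_mul, Polynomial.eval_C, descPochhammer_eval_eq_descFactorial,
      Nat.descFactorial_eq_factorial_mul_choose, mon_sum]
    have h1 : (T.card.factorial : ℝ) ≠ 0 := by exact_mod_cast Nat.factorial_ne_zero _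
    have h2 : (t.choose T.card : ℝ) ≠ 0 := by exact_mod_cast (Nat.choose_pos hTt).ne'
    have h3 : (t.choose k : ℝ) ≠ 0 := by exact_mod_cast (Nat.choose_pos hk).ne'
    by_cases hkT : T.card ≤ k
    · rw [card_sup T hkT]
      have h4 : (t.choose k : ℝ) * (k.choose T.card : ℝ) =
          (t.choose T.card : ℝ) * ((t - T.card).choose (k - T.card) : ℝ) := by
        exact_mod_cast Nat.choose_mul hkT
      push_cast
      field_simp
      linarith
    · have h4 : ((powersetCard k (univ : Finset (Fin t))).filter (fun U => T ⊆ U)) = ∅ := by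
        rw [Finset.filter_eq_empty_iff]
        intro U hU hTU
        rw [mem_powersetCard] at hU
        exact hkT (hU.2 ▸ card_le_card hTU)
      rw [h4, Nat.choose_eq_zero_of_lt (not_le.1 hkT)]
      simp

lemma chi_eq {t : ℕ} (S : Finset (Fin t)) :
    Pool.Agent.H564R2.QF.chi S = ∑ T ∈ S.powerset, ((-2 : ℝ) ^ T.card) • mon T := by
  funext x
  rw [Finset.sum_apply]
  have h1 : Pool.Agent.H564R2.QF.chi S x = ∏ i ∈ S, ((-2 : ℝ) * (if x i = true then 1 else 0) + 1) := by
    unfold Pool.Agent.H564R2.QF.chi
    refine Finset.prod_congr rfl fun i _ => ?_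
    split_ifs <;> norm_num
  rw [h1, Finset.prod_add]
  refine Finset.sum_congr rfl fun T _ => ?_
  rw [Finset.prod_const_one, mul_one, Finset.prod_mul_distrib, Finset.prod_const]
  rfl

theorem proof_M8 : S_Sym := by
  intro t d g hg
  show Good t d g
  induction hg using Submodule.span_induction with
  | mem f hf =>
    obtain ⟨S, hS, rfl⟩ := hf
    rw [chi_eq]
    exact good_sum _ _ fun T hT => good_smul _
      (good_mon T ((card_le_card (mem_powerset.1 hT)).trans hS))
  | zero => exact good_zero t d
  | add a b _ _ ha hb => exact good_add ha hb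
  | smul c a _ ha => exact good_smul c ha

end Pool.Agent.Helper600R2.CM.M8
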