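import Pool.Agent.Helper600R2.CM.Stm

/-! M9: block sensitivity (helper298). -/

namespace Pool.Agent.Helper600R2.CM.M9

open Finset Pool.Agent.Helper600R2 Pool.Agent.H564R2.QF Pool.Agent.Helper600R2.CM

/-- flips of blocks -/
noncomputable def Wm {V : Type} [DecidableEq V] {t : ℕ} (y : V → Bool) (U : Fin t → Finset V)
    (u : Fin t → Bool) : V → Bool :=
  CM.flip y ((univ.filter (fun i => u i = true)).biUnion U)

lemma factor {V : Type} [DecidableEq V] {t : ℕ} (y : V → Bool) (U : Fin t → Finset V)
    (hU : ∀ i j, i ≠ j → Disjoint (U i) (U j)) (v : V) :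
    (fun u : Fin t → Bool => if Wm y U u v = true then (-1 : ℝ) else 1) ∈ LowDeg (Fin t) 1 := by
  by_cases hv : ∃ i, v ∈ U i
  · obtain ⟨i, hi⟩ := hv
    have h1 : ∀ u : Fin t → Bool, Wm y U u v = if u i = true then !(y v) else y v := by
      intro u
      unfold Wm CM.flip
      have h3 : v ∈ (univ.filter (fun i => u i = true)).biUnion U ↔ u i = true := by
        rw [mem_biUnion]
        constructor
        · rintro ⟨j, hj, hvj⟩
          rw [mem_filter] at hj
          by_cases hij : j = i
          · rw [← hij]; exact hj.2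
          · exact absurd hi (Finset.disjoint_left.1 (hU j i hij) hvj)
        · intro h
          exact ⟨i, mem_filter.2 ⟨mem_univ _, h⟩, hi⟩
      by_cases h : u i = true
      · rw [if_pos (h3.2 h), if_pos h]
      · rw [if_neg (fun h' => h (h3.1 h')), if_neg h]
    have h2 : (fun u : Fin t → Bool => if Wm y U u v = true then (-1 : ℝ) else 1) =
        (if y v = true then (-1 : ℝ) else 1) • H564R2.QF.chi {i} := by
      funext u
      rw [h1, Pi.smul_apply, smul_eq_mul]
      unfold H564R2.QF.chi
      rw [prod_singleton]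
      cases y v <;> cases u i <;> simp
    rw [h2]
    exact Submodule.smul_mem _ _ (chi_mem _ (by simp))
  · have h1 : ∀ u : Fin t → Bool, Wm y U u v = y v := by
      intro u
      unfold Wm CM.flip
      rw [if_neg]
      intro h
      rw [mem_biUnion] at h
      obtain ⟨j, _, hj⟩ := h
      exact hv ⟨j, hj⟩
    simp only [h1]
    exact LowDeg.const 1 _

lemma comp_mem {V : Type} [DecidableEq V] {t d : ℕ} (y : V → Bool) (U : Fin t → Finset V)
    (hU : ∀ i j, i ≠ j → Disjoint (U i) (U j)) (g : (V → Bool) → ℝ) (hg : g ∈ LowDeg V d) :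
    (fun u => g (Wm y U u)) ∈ LowDeg (Fin t) d := by
  induction hg using Submodule.span_induction with
  | mem g hg =>
    obtain ⟨S, hS, rfl⟩ := hg
    have h1 := LowDeg.prod S (fun _ => 1)
      (fun v => fun u : Fin t → Bool => if Wm y U u v = true then (-1 : ℝ) else 1)
      (fun v _ => factor y U hU v)
    have h2 : (fun u : Fin t → Bool => H564R2.QF.chi S (Wm y U u)) =
        ∏ v ∈ S, fun u : Fin t → Bool => if Wm y U u v = true then (-1 : ℝ) else 1 := by
      funext u
      rw [Finset.prod_apply]
      rfl
    rw [h2]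
    exact LowDeg.of_le h1 (by simpa using hS)
  | zero => exact Submodule.zero_mem _
  | add a b _ _ ha hb => exact Submodule.add_mem _ ha hb
  | smul c a _ ha => exact Submodule.smul_mem _ c ha

theorem proof_M9 (h7 : S_Lag) (h8 : S_Sym) : S_BS := by
  intro V _ _ f d t hf y U hU hflip
  by_contra hcon
  push Not at hcon
  have ht : 1 ≤ t := by omega
  -- the function `G`
  obtain ⟨G, hG, hG01, hG0, hG1⟩ : ∃ G : (Fin t → Bool) → ℝ, G ∈ LowDeg (Fin t) d ∧
      (∀ u, 0 ≤ G u ∧ G u ≤ 1) ∧ (∀ u, Wm y U u = y → G u = 0) ∧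
      ∀ u i, Wm y U u = CM.flip y (U i) → G u = 1 := by
    have hc := comp_mem y U hU (tr f) hf
    have h01 : ∀ x, 0 ≤ tr f x ∧ tr f x ≤ 1 := by
      intro x
      unfold tr
      split_ifs <;> norm_num
    by_cases hfy : f y = true
    · refine ⟨fun u => 1 - tr f (Wm y U u), Submodule.sub_mem _ (LowDeg.const d 1) hc, ?_, ?_, ?_⟩
      · intro u
        have := h01 (Wm y U u)
        constructor <;> linarith
      · intro u hu
        simp only
        rw [hu]
        unfold tr
        rw [if_pos hfy, sub_self]
      · intro u i hu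
        simp only
        rw [hu]
        have h2 := hflip i
        rw [hfy] at h2
        unfold tr
        rw [if_neg h2, sub_zero]
    · refine ⟨fun u => tr f (Wm y U u), hc, fun u => h01 _, ?_, ?_⟩
      · intro u hu
        simp only
        rw [hu]
        unfold tr
        rw [if_neg hfy]
      · intro u i hu
        simp only
        rw [hu]
        have h2 := hflip i
        have h3 : f y = false := by simpa using hfy
        rw [h3] at h2
        unfold tr
        rw [if_pos (by simpa using h2)]
  obtain ⟨p, hp, hpk⟩ := h8 t d G hG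
  have hbound : ∀ k : ℕ, k ≤ t → 0 ≤ p.eval (k : ℝ) ∧ p.eval (k : ℝ) ≤ 1 := by
    intro k hk
    rw [hpk k hk]
    have hc : (0 : ℝ) < (t.choose k : ℝ) := by exact_mod_cast Nat.choose_pos hk
    constructor
    · exact div_nonneg (Finset.sum_nonneg fun u _ => (hG01 _).1) hc.le
    · rw [div_le_one hc]
      calc ∑ u ∈ powersetCard k (univ : Finset (Fin t)), G (fun i => decide (i ∈ u))
          ≤ ∑ _u ∈ powersetCard k (univ : Finset (Fin t)), (1 : ℝ) :=
            Finset.sum_le_sum fun u _ => (hG01 _).2
        _ = (t.choose k : ℝ) := by simp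
  have h0 : p.eval 0 = 0 := by
    have := hpk 0 (by omega)
    rw [Nat.cast_zero] at this
    rw [this, powersetCard_zero, sum_singleton, hG0, zero_div]
    unfold Wm CM.flip
    funext v
    simp
  have h1 : p.eval 1 = 1 := by
    have := hpk 1 ht
    rw [Nat.cast_one] at this
    rw [this]
    have e : ∀ u ∈ powersetCard 1 (univ : Finset (Fin t)), G (fun i => decide (i ∈ u)) = 1 := by
      intro u hu
      rw [mem_powersetCard] at hu
      obtain ⟨i, rfl⟩ := Finset.card_eq_one.1 hu.2
      apply hG1 _ i
      unfold Wm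
      congr 1
      ext v
      simp
    rw [sum_congr rfl e]
    have ht0 : (t : ℝ) ≠ 0 := by
      have : (1 : ℝ) ≤ t := by exact_mod_cast ht
      linarith
    simp [ht0]
  exact h7 d t p hp hcon.le hbound h0 h1

end Pool.Agent.Helper600R2.CM.M9
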