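import Pool.Agent.Helper600R2.CM.M1
import Pool.Agent.Helper600R2.CM.M2
import Pool.Agent.Helper600R2.CM.M3
import Pool.Agent.Helper600R2.CM.M4
import Pool.Agent.Helper600R2.CM.M5
import Pool.Agent.Helper600R2.CM.M6
import Pool.Agent.Helper600R2.CM.M7
import Pool.Agent.Helper600R2.CM.M8
import Pool.Agent.Helper600R2.CM.M9
import Pool.Agent.Helper600R2.CM.M10
import Pool.Agent.Helper600R2.CM.M11
import Pool.Agent.Helper600R2.CM.M12

/-! All the ingredients. -/

namespace Pool.Agent.Helper600R2.CM

theorem game : S_Game := M5.proof_M5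
theorem main : S_Main := M6.proof_M6 (M3.proof_M3 (M2.proof_M2 M1.proof_M1)) M4.proof_M4
theorem dtree : S_DT := M10.proof_M10 (M9.proof_M9 M7.proof_M7 M8.proof_M8)
theorem cmbn : S_Comb := M11.proof_M11
theorem num : S_Num := M12.proof_M12

end Pool.Agent.Helper600R2.CM
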