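import Pool.Agent.Helper600R2.CM.CoreP2

/-!
The family of all small formulas, prime moduli, abstract lines.
-/

namespace Pool.Agent.Helper600R2.CM

open Finset Pool.Agent.Helper600R2 Pool.Agent.H564R2.QF
open Pool.Agent.Helper600R2.Quad (HoldsA hclause holds_hclause fullv exists_hash2 Apx apx_formula)
open H542 (T evs leavess decode exists_code)

open Classical in
theorem core3P2 (hI : S_Int) (p q B : ℕ) [Fact p.Prime] [Fact q.Prime]
    (hpq : p ≠ q) (hB : q ≤ B + 1) {n k κ s t : ℕ} (hn : 25 ≤ n) (hk : 1 ≤ k) (d : ℕ)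
    (ht : 1 ≤ t) (htk : 2440980 * t ≤ k) (hs : s ≤ d * t ^ 2) (mm : ℕ) (τ : ℝ) (hτ : 0 < τ)
    (hlt : (Fintype.card (Fin (2 * s) → Option ((Vr n B k κ × Bool) ⊕ Bool)) : ℝ) *
      ((1 / 4) ^ d * Real.exp ((Fintype.card (Ix n B) : ℝ) *
      ((192 - 1) * mm / Fintype.card (Fin κ → Bool)))) ^ mm < τ ^ mm) :
    ∃ (π : Equiv.Perm (Fin n)) (h : Ix n B → (Fin κ → Bool) → Fin k),
      (CNF q B π chg h).card ≤ n * (2 ^ κ * 2) ^ (4 * B) ∧
      (∀ c ∈ CNF q B π chg h, c.card ≤ 4 * B * (κ + 1)) ∧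
      (∀ z, ∃ c ∈ CNF q B π chg h, ¬ HoldsA z c) ∧
      ∀ (a S D : ℕ) (L : Type) [Fintype L] (fm : L → T (Vr n B k κ) ⊕ Bool)
        (f : Fin S → (Vr n B k κ → Bool) → Bool), (∀ l, leavess (fm l) ≤ s) →
        (∀ Z : (Ix n B → Bool) → (Vr n B k κ → Bool),
          (∀ l, toK (AlgebraicClosure (ZMod p)) (fun y => evs (Z y) (fm l)) ∈
            J (ι := Ix n B) (α := Bool) (AlgebraicClosure (ZMod p)) d) →
          ∀ j, toK (AlgebraicClosure (ZMod p)) (fun y => f j (Z y)) ∈
            J (ι := Ix n B) (α := Bool) (AlgebraicClosure (ZMod p)) D) →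
        2 * ((a + 1) * D + 4) ≤ n / 60 →
        (Fintype.card L : ℝ) * τ ≤ 1 →
        (∀ j, (∃ c ∈ CNF q B π chg h, ∀ z, HoldsA z c → f j z = true) ∨
          ∃ P : Finset (Fin S), P.card ≤ a ∧ (∀ p ∈ P, p < j) ∧
            ∀ z, (∀ p ∈ P, f p z = true) → f j z = true) →
        ∀ j, ∃ z, f j z = true := by
  let A := Vr n B k κ
  let Cd := Fin (2 * s) → Option ((A × Bool) ⊕ Bool)
  let F : Cd → (A → Bool) → Bool := fun c z =>
    match decode c with
    | some f => if f.leaves ≤ s then f.ev z else false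
    | none => false
  have hF : ∀ c (w : Ix n B × Fin κ → Bool),
      Apx (Ix n B × Fin k) k d (fun z => F c (Sum.elim z w)) := by
    intro c w
    have hconst : Apx (Ix n B × Fin k) k d (fun _ => false) := by
      intro j _
      exact ⟨0, by omega, _, LowDeg.const 0 0, fun z => by simp⟩
    cases hc : decode c with
    | none =>
      simp only [F, hc]
      exact hconst
    | some f =>
      by_cases hf : f.leaves ≤ s
      · simp only [F, hc, if_pos hf]
        exact apx_formula ht htk hs f hf w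
      · simp only [F, hc, if_neg hf]
        exact hconst
  obtain ⟨π, h, h1, h2, h3, h4⟩ := coreP2 hI p q B hpq hB hn hk F d hF mm τ hτ hlt
  refine ⟨π, h, h1, h2, h3, ?_⟩
  intro a S D L _ fm f hsz hdeg hah hSr hsound j
  have hcode : ∀ x : T A ⊕ Bool, leavess x ≤ s →
      ∃ c : Cd, ∀ f, x = .inl f → ∀ z, F c z = f.ev z := by
    intro x hx
    cases hl : x with
    | inl f =>
      have h5 : f.leaves ≤ s := by
        rw [hl] at hx
        exact hx
      obtain ⟨c, hc⟩ := exists_code s f h5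
      refine ⟨c, fun f' hf' z => ?_⟩
      rw [Sum.inl.injEq] at hf'
      subst hf'
      simp only [F, hc, if_pos h5]
    | inr b =>
      refine ⟨fun _ => none, fun f' hf' => ?_⟩
      simp at hf'
  choose cd hcd using fun l => hcode (fm l) (hsz l)
  refine h4 a S D L cd f (fun Z hZ => hdeg Z (fun l => ?_)) hah hSr hsound j
  cases hl : fm l with
  | inl g =>
    have h5 : (fun y => evs (Z y) (Sum.inl g)) = (fun y => F (cd l) (Z y)) := by
      funext y
      rw [hcd l g hl]
      rfl
    rw [h5]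
    exact hZ l
  | inr b =>
    have h5 : toK (AlgebraicClosure (ZMod p))
        (fun y : Ix n B → Bool => evs (Z y) (Sum.inr b : T (Vr n B k κ) ⊕ Bool)) =
        (fun _ => if b = true then 1 else 0) := by
      funext y
      cases b <;> simp [toK, evs]
    rw [h5]
    exact J_const _ _

end Pool.Agent.Helper600R2.CM
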