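import Pool.Agent.Helper600R2.CM.CoreX

/-!
The family of all small formulas.
-/

namespace Pool.Agent.Helper600R2.CM

open Finset Pool.Agent.Helper600R2 Pool.Agent.H564R2.QF
open Pool.Agent.Helper600R2.Quad (HoldsA hclause holds_hclause fullv exists_hash2 Apx apx_formula)
open H542 (T evs leavess decode exists_code)

open Classical in
theorem core3X (h5 : S_Game) (hM : S_Main) (h10 : S_DT) (h11 : S_Comb) (m q B : ℕ) [NeZero q]
    (hm : 2 ≤ m) (hq : 2 ≤ q) (hcop : Nat.Coprime m q) (hB : 2 * q + 1 ≤ B) :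
    ∃ C : ℕ, ∀ {n k κ s t : ℕ}, 25 ≤ n → 1 ≤ k → ∀ (d : ℕ), 1 ≤ t → 2440980 * t ≤ k →
    s ≤ d * t ^ 2 → ∀ (mm : ℕ) (τ : ℝ), 0 < τ →
    (Fintype.card (Fin (2 * s) → Option ((Vr n B k κ × Bool) ⊕ Bool)) : ℝ) *
      ((1 / 4) ^ d * Real.exp ((Fintype.card (Ix n B) : ℝ) *
      ((192 - 1) * mm / Fintype.card (Fin κ → Bool)))) ^ mm < τ ^ mm →
    ∃ (π : Equiv.Perm (Fin n)) (h : Ix n B → (Fin κ → Bool) → Fin k),
      (CNF q B π chg h).card ≤ n * (2 ^ κ * 2) ^ (4 * B) ∧
      (∀ c ∈ CNF q B π chg h, c.card ≤ 4 * B * (κ + 1)) ∧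
      (∀ z, ∃ c ∈ CNF q B π chg h, ¬ HoldsA z c) ∧
      ∀ (a r g S : ℕ) (part : Fin S → Fin r → T (Vr n B k κ) ⊕ Bool)
        (cf : Fin S → Fin g → Vr n B k κ → ZMod m)
        (G : Fin S → (Fin r → Bool) → (Fin g → ZMod m) → Bool),
        (∀ j l, leavess (part j l) ≤ s) →
        2 * (C * ((a + 1) ^ 2 * (g + 1) ^ 2 * (r * (5 * d ^ 4) + 1)) + 4) ≤ n / 60 →
        ((S : ℝ) * r) * τ ≤ 1 →
        (∀ j, (∃ c ∈ CNF q B π chg h, ∀ z, HoldsA z c →
            G j (fun l => evs z (part j l)) (fun l => frm (cf j l) z) = true) ∨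
          ∃ P : Finset (Fin S), P.card ≤ a ∧ (∀ p ∈ P, p < j) ∧
            ∀ z, (∀ p ∈ P, G p (fun l => evs z (part p l)) (fun l => frm (cf p l) z) = true) →
              G j (fun l => evs z (part j l)) (fun l => frm (cf j l) z) = true) →
        ∀ j, ∃ z, G j (fun l => evs z (part j l)) (fun l => frm (cf j l) z) = true := by
  obtain ⟨C, hC⟩ := coreX h5 hM h10 h11 m q B hm hq hcop hB
  refine ⟨C, ?_⟩
  intro n k κ s t hn hk d ht htk hs mm τ hτ hlt
  let A := Vr n B k κ
  let Cd := Fin (2 * s) → Option ((A × Bool) ⊕ Bool)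
  let F : Cd → (A → Bool) → Bool := fun c z =>
    match decode c with
    | some f => if f.leaves ≤ s then f.ev z else false
    | none => false
  have hF : ∀ c (w : Ix n B × Fin κ → Bool),
      Apx (Ix n B × Fin k) k d (fun z => F c (Sum.elim z w)) := by
    intro c w
    have hconst : Apx (Ix n B × Fin k) k d (fun _ => false) := by
      intro j _
      exact ⟨0, by omega, _, LowDeg.const 0 0, fun z => by simp⟩
    cases hc : decode c with
    | none =>
      simp only [F, hc]
      exact hconst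
    | some f =>
      by_cases hf : f.leaves ≤ s
      · simp only [F, hc, if_pos hf]
        exact apx_formula ht htk hs f hf w
      · simp only [F, hc, if_neg hf]
        exact hconst
  obtain ⟨π, h, h1, h2, h3, h4⟩ := hC hn hk F d hF mm τ hτ hlt
  refine ⟨π, h, h1, h2, h3, ?_⟩
  intro a r g S part cf G hsz hah hSr hsound j
  have hcode : ∀ j l, ∃ c : Cd, ∀ f, part j l = .inl f → ∀ z, F c z = f.ev z := by
    intro j l
    cases hl : part j l with
    | inl f =>
      have h5 : f.leaves ≤ s := by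
        have := hsz j l
        rw [hl] at this
        exact this
      obtain ⟨c, hc⟩ := exists_code s f h5
      refine ⟨c, fun f' hf' z => ?_⟩
      rw [Sum.inl.injEq] at hf'
      subst hf'
      simp only [F, hc, if_pos h5]
    | inr b =>
      refine ⟨fun _ => none, fun f' hf' => ?_⟩
      simp at hf'
  choose cd hcd using hcode
  let G' : Fin S → (Fin r → Bool) → (Fin g → ZMod m) → Bool := fun j y u =>
    G j (fun l => match part j l with
      | .inl _ => y l
      | .inr b => b) u
  have hG : ∀ j z, G' j (fun l => F (cd j l) z) (fun l => frm (cf j l) z) =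
      G j (fun l => evs z (part j l)) (fun l => frm (cf j l) z) := by
    intro j z
    simp only [G']
    congr 1
    funext l
    cases hl : part j l with
    | inl f => simp only [evs]; exact hcd j l f hl z
    | inr b => rfl
  have := h4 a r g S cd cf G' hah hSr (by
    intro j
    simp only [hG]
    exact hsound j) j
  simpa only [hG] using this

end Pool.Agent.Helper600R2.CM
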