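import Pool.Agent.Helper600R2.CM.StmP

/-! P1: the real degree of a Boolean function bounds its degree over every field. -/

namespace Pool.Agent.Helper600R2.CM.P1

open Finset Pool.Agent.Helper600R2 Pool.Agent.Helper600R2.CM Pool.Agent.H564R2.QF

variable {V : Type} [DecidableEq V]

/-- indicator of a finite set -/
def ind (T : Finset V) : V → Bool := fun v => decide (v ∈ T)

/-- Moebius coefficient -/
def coef {R : Type} [CommRing R] (S : Finset V) (g : Finset V → R) : R :=
  ∑ T ∈ S.powerset, (-1) ^ (S \ T).card * g T

theorem coef_insert {R : Type} [CommRing R] {a : V} {S : Finset V} (ha : a ∉ S)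
    (g : Finset V → R) :
    coef (insert a S) g = coef S (fun T => g (insert a T)) - coef S g := by
  unfold coef
  rw [Finset.sum_powerset_insert ha]
  have h1 : ∑ T ∈ S.powerset, (-1 : R) ^ (insert a S \ T).card * g T =
      - ∑ T ∈ S.powerset, (-1 : R) ^ (S \ T).card * g T := by
    rw [← Finset.sum_neg_distrib]
    apply Finset.sum_congr rfl
    intro T hT
    have hTS : T ⊆ S := Finset.mem_powerset.mp hT
    have haT : a ∉ T := fun h => ha (hTS h)
    rw [Finset.insert_sdiff_of_notMem _ haT, Finset.card_insert_of_notMem
      (fun h => ha (Finset.mem_sdiff.mp h).1)]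
    ring
  have h2 : ∑ T ∈ S.powerset, (-1 : R) ^ (insert a S \ insert a T).card * g (insert a T) =
      ∑ T ∈ S.powerset, (-1 : R) ^ (S \ T).card * g (insert a T) := by
    apply Finset.sum_congr rfl
    intro T hT
    have : insert a S \ insert a T = S \ T := by
      ext x
      simp only [Finset.mem_sdiff, Finset.mem_insert]
      constructor
      · rintro ⟨hx | hx, h⟩
        · exact absurd (Or.inl hx) h
        · exact ⟨hx, fun h' => h (Or.inr h')⟩
      · rintro ⟨hx, h⟩
        refine ⟨Or.inr hx, ?_⟩
        rintro (h' | h')
        · exact ha (h' ▸ hx)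
        · exact h h'
    rw [this]
  rw [h1, h2]
  ring

theorem inversion {R : Type} [CommRing R] (U : Finset V) : ∀ g : Finset V → R,
    ∑ S ∈ U.powerset, coef S g = g U := by
  induction U using Finset.induction_on with
  | empty =>
    intro g
    simp [coef]
  | insert a U ha ih =>
    intro g
    rw [Finset.sum_powerset_insert ha, ih g]
    have h1 : ∑ S ∈ U.powerset, coef (insert a S) g =
        ∑ S ∈ U.powerset, coef S (fun T => g (insert a T)) - ∑ S ∈ U.powerset, coef S g := by
      rw [← Finset.sum_sub_distrib]
      apply Finset.sum_congr rfl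
      intro S hS
      exact coef_insert (fun h => ha (Finset.mem_powerset.mp hS h)) g
    rw [h1, ih g, ih]
    ring

theorem coef_map {R R' : Type} [CommRing R] [CommRing R'] (φ : R →+* R') (S : Finset V)
    (g : Finset V → R) : coef S (fun T => φ (g T)) = φ (coef S g) := by
  unfold coef
  rw [map_sum]
  apply Finset.sum_congr rfl
  intro T _
  simp

theorem coef_low {d : ℕ} {g : (V → Bool) → ℝ} (hg : g ∈ LowDeg V d) {S : Finset V}
    (hS : d < S.card) : coef S (fun T => g (ind T)) = 0 := by
  unfold LowDeg at hg
  induction hg using Submodule.span_induction with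
  | mem x hx =>
    obtain ⟨A, hA, rfl⟩ := hx
    obtain ⟨a, haS, haA⟩ : ∃ a ∈ S, a ∉ A := by
      by_contra hcon
      push Not at hcon
      have : S.card ≤ A.card := Finset.card_le_card hcon
      omega
    rw [← Finset.insert_erase haS, coef_insert (Finset.notMem_erase a S)]
    have : (fun T => (Pool.Agent.H564R2.QF.chi A) (ind (insert a T))) = fun T => Pool.Agent.H564R2.QF.chi A (ind T) := by
      funext T
      unfold Pool.Agent.H564R2.QF.chi
      apply Finset.prod_congr rfl
      intro v hv
      have hva : v ≠ a := fun h => haA (h ▸ hv)
      have : ind (insert a T) v = ind T v := by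
        simp [ind, Finset.mem_insert, hva]
      rw [this]
    rw [this]
    ring
  | zero => simp [coef]
  | add x y _ _ hx hy =>
    unfold coef at hx hy ⊢
    simp only [Pi.add_apply, mul_add, Finset.sum_add_distrib, hx, hy, add_zero]
  | smul c x _ hx =>
    unfold coef at hx ⊢
    simp only [Pi.smul_apply, smul_eq_mul]
    have : ∀ T ∈ S.powerset, (-1 : ℝ) ^ (S \ T).card * (c * x (ind T)) =
        c * ((-1 : ℝ) ^ (S \ T).card * x (ind T)) := by
      intro T _
      ring
    rw [Finset.sum_congr rfl this, ← Finset.mul_sum, hx, mul_zero]

theorem proof_P1 : S_Int := by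
  intro V _ _ K _ d f hf
  classical
  -- integer coefficients
  let gZ : Finset V → ℤ := fun T => if f (ind T) = true then 1 else 0
  have hZ0 : ∀ S : Finset V, d < S.card → coef S gZ = 0 := by
    intro S hS
    have h1 := coef_low hf hS
    have h2 : (fun T : Finset V => CM.tr f (ind T)) = fun T => (Int.castRingHom ℝ) (gZ T) := by
      funext T
      simp only [CM.tr, gZ]
      split_ifs <;> simp
    rw [h2, coef_map] at h1
    simpa using h1
  have hK0 : ∀ S : Finset V, d < S.card → coef S (fun T => (Int.castRingHom K) (gZ T)) = 0 := by
    intro S hS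
    rw [coef_map, hZ0 S hS, map_zero]
  set gK : Finset V → K := fun T => (Int.castRingHom K) (gZ T) with hgK
  have key : toK K f = ∑ S ∈ (univ : Finset V).powerset,
      (coef S gK) • (fun y : V → Bool => if S ⊆ univ.filter (fun v => y v = true) then (1 : K)
        else 0) := by
    funext y
    rw [Finset.sum_apply]
    simp only [Pi.smul_apply, smul_eq_mul, mul_ite, mul_one, mul_zero]
    rw [← Finset.sum_filter]
    have h3 : (univ : Finset V).powerset.filter (fun S => S ⊆ univ.filter (fun v => y v = true)) =
        (univ.filter (fun v => y v = true)).powerset := by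
      ext S
      simp only [Finset.mem_filter, Finset.mem_powerset, Finset.subset_univ, true_and]
    rw [h3, inversion]
    have h4 : ind (univ.filter (fun v => y v = true)) = y := by
      funext v
      simp [ind]
    simp only [hgK, gZ, h4, toK]
    split_ifs <;> simp
  rw [key]
  apply Submodule.sum_mem
  intro S _
  by_cases hS : d < S.card
  · rw [hK0 S hS, zero_smul]
    exact Submodule.zero_mem _
  · apply Submodule.smul_mem
    refine junta_mem S (by omega) ?_
    intro x y hxy
    have h5 : S ⊆ univ.filter (fun v => x v = true) ↔ S ⊆ univ.filter (fun v => y v = true) := by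
      constructor
      · intro h v hv
        have := h hv
        simp only [Finset.mem_filter, Finset.mem_univ, true_and] at this ⊢
        rw [← hxy v hv]
        exact this
      · intro h v hv
        have := h hv
        simp only [Finset.mem_filter, Finset.mem_univ, true_and] at this ⊢
        rw [hxy v hv]
        exact this
    simp only [h5]

end Pool.Agent.Helper600R2.CM.P1
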