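import Pool.Agent.Helper600R2.CM.CoreD

/-!
Hashed variables and small formulas: exact low degree over all fields after a restriction which
leaves one data variable of every cell free.
-/

namespace Pool.Agent.Helper600R2.CM.DW3

open Finset Pool.Agent.Helper600R2 Pool.Agent.H564R2.QF Pool.Agent.Helper600R2.CM
open Pool.Agent.Helper600R2.Quad (fullv exists_hash2 Apx apx_formula)
open Pool.Agent.Helper600R2.Sharp (rs)
open H542 (T evs leavess decode exists_code)
open Pool.Agent.Helper600R2.CM.DW (Vd cvd)

open Classical in
theorem core3E (hI : S_Int) {n k κ s t : ℕ} (hk : 1 ≤ k) (d : ℕ)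
    (ht : 1 ≤ t) (htk : 2440980 * t ≤ k) (hs : s ≤ d * t ^ 2) (mm : ℕ) (τ : ℝ) (hτ : 0 < τ)
    (hlt : (Fintype.card (Fin (2 * s) → Option ((Vd n k κ × Bool) ⊕ Bool)) : ℝ) *
      ((1 / 4) ^ d * Real.exp ((Fintype.card (Fin n) : ℝ) *
      ((192 - 1) * mm / Fintype.card (Fin κ → Bool)))) ^ mm < τ ^ mm) :
    ∃ h : Fin n → (Fin κ → Bool) → Fin k,
      ∀ (L : Type) [Fintype L] (fm : L → T (Vd n k κ) ⊕ Bool), (∀ l, leavess (fm l) ≤ s) →
        (Fintype.card L : ℝ) * τ ≤ 1 →
        ∃ (sel : Fin n → Fin k) (Z : (Fin n → Bool) → (Vd n k κ → Bool)),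
          (∀ y i, Z (Function.update y i (!(y i))) =
            Function.update (Z y) (.inl (i, sel i)) (!(Z y (.inl (i, sel i))))) ∧
          ∀ (K : Type) [Field K], ∀ l, toK K (fun y => evs (Z y) (fm l)) ∈
            J (ι := Fin n) (α := Bool) K d := by
  let A := Vd n k κ
  let Cd := Fin (2 * s) → Option ((A × Bool) ⊕ Bool)
  let F : Cd → (A → Bool) → Bool := fun c z =>
    match decode c with
    | some f => if f.leaves ≤ s then f.ev z else false
    | none => false
  have hF : ∀ c (w : Fin n × Fin κ → Bool),
      Apx (Fin n × Fin k) k d (fun z => F c (Sum.elim z w)) := by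
    intro c w
    have hconst : Apx (Fin n × Fin k) k d (fun _ => false) := by
      intro j _
      exact ⟨0, by omega, _, LowDeg.const 0 0, fun z => by simp⟩
    cases hc : decode c with
    | none =>
      simp only [F, hc]
      exact hconst
    | some f =>
      by_cases hf : f.leaves ≤ s
      · simp only [F, hc, if_pos hf]
        exact apx_formula ht htk hs f hf w
      · simp only [F, hc, if_neg hf]
        exact hconst
  obtain ⟨h, hh⟩ := exists_hash2 (ι := Fin n) (κt := Fin κ) hk F d hF mm τ hτ hlt
  refine ⟨h, fun L _ fm hsz hL => ?_⟩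
  have hcode : ∀ x : T A ⊕ Bool, leavess x ≤ s →
      ∃ c : Cd, ∀ f, x = .inl f → ∀ z, F c z = f.ev z := by
    intro x hx
    cases hl : x with
    | inl f =>
      have h5 : f.leaves ≤ s := by
        rw [hl] at hx
        exact hx
      obtain ⟨c, hc⟩ := exists_code s f h5
      refine ⟨c, fun f' hf' z => ?_⟩
      rw [Sum.inl.injEq] at hf'
      subst hf'
      simp only [F, hc, if_pos h5]
    | inr b =>
      refine ⟨fun _ => none, fun f' hf' => ?_⟩
      simp at hf'
  choose cd hcd using fun l => hcode (fm l) (hsz l)
  obtain ⟨p, x, hpx⟩ := hh L cd hL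
  refine ⟨fun i => h i (p i), fun y => fullv p (fun i => h i (p i)) x y, fun y i => ?_,
    fun K _ l => ?_⟩
  · funext v
    rcases v with ⟨j, q⟩ | ⟨j, c⟩
    · by_cases hji : j = i
      · subst hji
        by_cases hq : q = h j (p j)
        · subst hq
          simp [fullv, rs]
        · rw [Function.update_of_ne (by simp [hq])]
          simp [fullv, rs, hq]
      · rw [Function.update_of_ne (by simp [hji])]
        simp only [fullv, rs, Sum.elim_inl]
        by_cases hq : q = h j (p j)
        · rw [if_pos hq, if_pos hq, Function.update_of_ne hji]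
        · rw [if_neg hq, if_neg hq]
    · rw [Function.update_of_ne (by simp)]
      simp [fullv]
  · cases hl : fm l with
    | inl g =>
      have h5 : (fun y => evs (fullv p (fun i => h i (p i)) x y) (Sum.inl g)) =
          (fun y => F (cd l) (fullv p (fun i => h i (p i)) x y)) := by
        funext y
        rw [hcd l g hl]
        rfl
      rw [h5]
      exact hI (Fin n) K d _ (hpx l)
    | inr b =>
      have h5 : toK K (fun y : Fin n → Bool => evs (fullv p (fun i => h i (p i)) x y)
          (Sum.inr b : T A ⊕ Bool)) = (fun _ => if b = true then 1 else 0) := by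
        funext y
        cases b <;> simp [toK, evs]
      rw [h5]
      exact J_const _ _

end Pool.Agent.Helper600R2.CM.DW3
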