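import Pool.Agent.Helper600R2.CM.M6c

/-!
The walk for constraints on any number of variables.
-/

namespace Pool.Agent.Helper600R2.CM.M6w

open Finset Pool.Agent.Helper600R2 Pool.Agent.H564R2.QF Pool.Agent.Helper600R2.CM
open Pool.Agent.Helper600R2.CM.M6 (closed_anti closed_grow closed_sub Agree Cert HomP walk ext exY
  Poss poss_of)
open Pool.Agent.Helper600R2.CM.M6c (QW poss_init poss_step)

variable {E : Type} [Fintype E] [DecidableEq E] {m q B : ℕ}

/-- the walk, constraints on at most `w` variables -/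
def S_MainWw : Prop := ∀ (m q B : ℕ), 2 ≤ m → 2 ≤ q → Nat.Coprime m q → 2 * q + 1 ≤ B →
  ∃ C : ℕ, ∀ (E Vt : Type) [Fintype E] [DecidableEq E] (W : ℕ) (st : Vt → Finset E)
    (Cn : Vt → (E → ZMod q) → Prop) (H : Finset E → (E → ZMod q) → Prop),
    IsGame W st Cn H → ∀ w : ℕ, (∀ v, (st v).card ≤ w) →
    ∀ (a G D S : ℕ), C * ((a + 1) ^ 2 * (G + 1) ^ 2 * (D + 1)) + w ≤ W →
    ∀ (c : Fin S → Fin G → E × Fin B → ZMod m) (f : Fin S → (E × Fin B → Bool) → Bool),
      (∀ j, QW (c j) D (f j)) →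
      Sound (fun v y => Cn v (bsum q y)) a f → ∀ j, ∃ y, f j y = true

/-- a possible line is not an axiom -/
lemma poss_axiomW {C0 W : ℕ} (h3 : HomP m q B C0) {Vt : Type} {st : Vt → Finset E}
    {Cn : Vt → (E → ZMod q) → Prop} {H : Finset E → (E → ZMod q) → Prop}
    (hG : IsGame W st Cn H) {w : ℕ} (hst : ∀ v, (st v).card ≤ w) {G W0 : ℕ}
    (c : Fin G → E × Fin B → ZMod m) (f : (E × Fin B → Bool) → Bool)
    (hp : Poss q W0 (C0 * (G + 1)) H c f) (hW : W0 + w ≤ W) (v : Vt)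
    (hv : ∀ y, Cn v (bsum q y) → f y = true) : False := by
  obtain ⟨S, y, hcl, hc, hH, hcert, hf⟩ := hp
  obtain ⟨z1, hz1, hH1⟩ := ext hG S (bsum q y) hH (st v) (by
    have := card_union_le S (st v)
    have := hst v
    omega)
  obtain ⟨y1, hy1, hb1, hf1⟩ := h3 E (Fin G) c S (by rw [Fintype.card_fin]; exact hcl) y z1 hz1
  have h1 : f y1 = false := (hcert y1 hy1 hf1).trans hf
  have h2 : Cn v z1 := hG.2.2.2.2 _ _ v hH1 subset_union_right
  have h5 : bsum q y1 = z1 := funext hb1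
  rw [← h5] at h2
  rw [hv y1 h2] at h1
  exact absurd h1 (by decide)

theorem proof_M6w (h3 : S_Hom) (h4 : S_Closure) : S_MainWw := by
  intro m q B hm hq hmq hB
  obtain ⟨C0, h3'⟩ := h3 m q B hm hq hmq hB
  have h3'' : HomP m q B C0 := h3'
  refine ⟨10 * (C0 + 1) * (m + 1), ?_⟩
  intro E Vt _ _ W st Cn H hG w hst a G D K hW c f hf hsound
  -- sizes
  set X := (a + 1) ^ 2 * (G + 1) ^ 2 * (D + 1) with hX
  have hX1 : 1 ≤ X := Nat.one_le_iff_ne_zero.2 (by positivity)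
  have ea : 1 ≤ (a + 1) ^ 2 := Nat.one_le_iff_ne_zero.2 (by positivity)
  have eG : 1 ≤ (G + 1) ^ 2 := Nat.one_le_iff_ne_zero.2 (by positivity)
  have eaG : 1 ≤ (a + 1) ^ 2 * (G + 1) ^ 2 := Nat.one_le_iff_ne_zero.2 (by positivity)
  have hDX : D + 1 ≤ X := by
    calc D + 1 = 1 * (D + 1) := (one_mul _).symm
      _ ≤ X := Nat.mul_le_mul_right _ eaG
  have hAG : (a + 1) ^ 2 * (G + 1) ^ 2 ≤ X := Nat.le_mul_of_pos_right _ (Nat.succ_pos _)
  have hGG : (G + 1) * G ≤ X := by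
    have h1 : (G + 1) * G ≤ (G + 1) ^ 2 := by nlinarith
    have h2 : (G + 1) ^ 2 ≤ (a + 1) ^ 2 * (G + 1) ^ 2 := Nat.le_mul_of_pos_left _ (by positivity)
    omega
  have e1 : C0 * (G + 1) * (G * m) ≤ C0 * m * X := by
    calc C0 * (G + 1) * (G * m) = C0 * m * ((G + 1) * G) := by ring
      _ ≤ C0 * m * X := Nat.mul_le_mul_left _ hGG
  have e2 : D * (G * m) ≤ m * X := by
    have h1 : D * G ≤ X := by
      have h2 : G ≤ (a + 1) ^ 2 * (G + 1) ^ 2 := by
        have h3 : G ≤ (G + 1) ^ 2 := by nlinarith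
        exact h3.trans (Nat.le_mul_of_pos_left _ (by positivity))
      calc D * G = G * D := mul_comm _ _
        _ ≤ ((a + 1) ^ 2 * (G + 1) ^ 2) * (D + 1) := Nat.mul_le_mul h2 (Nat.le_succ _)
    calc D * (G * m) = m * (D * G) := by ring
      _ ≤ m * X := Nat.mul_le_mul_left _ h1
  have e3 : a * D ≤ X := by
    have h2 : a ≤ (a + 1) ^ 2 * (G + 1) ^ 2 := by
      have h3 : a ≤ (a + 1) ^ 2 := by nlinarith
      exact h3.trans (Nat.le_mul_of_pos_right _ (by positivity))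
    exact Nat.mul_le_mul h2 (Nat.le_succ _)
  have e4 : a * D * ((a + 1) * G * m) ≤ m * X := by
    have h1 : a * (a + 1) * G ≤ (a + 1) ^ 2 * (G + 1) ^ 2 := by
      refine Nat.mul_le_mul (by nlinarith) (by nlinarith)
    calc a * D * ((a + 1) * G * m) = m * ((a * (a + 1) * G) * D) := by ring
      _ ≤ m * X := Nat.mul_le_mul_left _ (Nat.mul_le_mul h1 (Nat.le_succ _))
  have e5 : C0 * ((a + 1) * G + 1) * ((a + 1) * G * m) ≤ C0 * m * X := by
    have h1 : ((a + 1) * G + 1) * ((a + 1) * G) ≤ (a + 1) ^ 2 * (G + 1) ^ 2 := by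
      have h2 : (a + 1) * G + 1 ≤ (a + 1) * (G + 1) := by nlinarith
      have h3 : (a + 1) * G ≤ (a + 1) * (G + 1) := by nlinarith
      calc ((a + 1) * G + 1) * ((a + 1) * G) ≤ ((a + 1) * (G + 1)) * ((a + 1) * (G + 1)) :=
            Nat.mul_le_mul h2 h3
        _ = (a + 1) ^ 2 * (G + 1) ^ 2 := by ring
    calc C0 * ((a + 1) * G + 1) * ((a + 1) * G * m)
        = C0 * m * (((a + 1) * G + 1) * ((a + 1) * G)) := by ring
      _ ≤ C0 * m * X := Nat.mul_le_mul_left _ (h1.trans hAG)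
  have hWX : 10 * (C0 * m * X) + 10 * (C0 * X) + 10 * (m * X) + 10 * X + w ≤ W := by
    calc 10 * (C0 * m * X) + 10 * (C0 * X) + 10 * (m * X) + 10 * X + w
        = 10 * (C0 + 1) * (m + 1) * X + w := by ring
      _ ≤ W := hW
  set W0 := D + C0 * (G + 1) * (G * m) with hW0
  have f1 : (C0 * (G + 1) + D) * (G * m) + D ≤ W := by
    rw [add_mul]; omega
  have f2 : W0 + (a * D + C0 * ((a + 1) * G + 1)) * ((a + 1) * G * m) + a * D ≤ W := by
    rw [add_mul]; omega
  have f3 : W0 + w ≤ W := by omega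
  -- no line is possible
  have key : ∀ n : ℕ, ∀ j : Fin K, j.1 = n → ¬ Poss q W0 (C0 * (G + 1)) H (c j) (f j) := by
    intro n
    induction n using Nat.strong_induction_on with
    | _ n ih =>
      intro j hj hp
      rcases hsound j with ⟨v, hv⟩ | ⟨P, hPa, hPj, hP⟩
      · exact poss_axiomW h3'' hG hst (c j) (f j) hp f3 v hv
      · obtain ⟨p, hpP, hpp⟩ := poss_step h4 hm h3'' hG c f hf j P hPa hP hp le_rfl f2
        exact ih p.1 (by have := hPj p hpP; rw [← hj]; exact this) p rfl hpp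
  intro j
  by_contra hcon
  push Not at hcon
  refine key j.1 j rfl (poss_init h4 hm h3'' hG (c j) (f j) (hf j) ?_ le_rfl f1)
  intro y
  have := hcon y
  simpa using this

end Pool.Agent.Helper600R2.CM.M6w
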