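import Pool.Agent.Helper600R2.CM.CoreXc
import Pool.Agent.Helper600R2.CM.M6w

/-!
Lifting of local consistency: hashed cells, any constraint system.
-/

namespace Pool.Agent.Helper600R2.CM.LW

open Finset Pool.Agent.Helper600R2 Pool.Agent.H564R2.QF Pool.Agent.Helper600R2.CM
open Pool.Agent.Helper600R2.Quad (fullv exists_hash2 Apx apx_formula)
open Pool.Agent.Helper600R2.Sharp (rs)
open H542 (T evs leavess decode exists_code)

abbrev Ce (n B : ℕ) := Fin n × Fin B
abbrev Vl (n B k κ : ℕ) := (Ce n B × Fin k) ⊕ (Ce n B × Fin κ)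

/-- the value of a cell -/
def cval {n B k κ : ℕ} (h : Ce n B → (Fin κ → Bool) → Fin k) (z : Vl n B k κ → Bool)
    (i : Ce n B) : Bool :=
  z (.inl (i, h i (fun c => z (.inr (i, c)))))

/-- the linear form of the surviving variables -/
lemma frm_fullvG {ι : Type} [Fintype ι] [DecidableEq ι] {k κ m : ℕ}
    (cf : (ι × Fin k) ⊕ (ι × Fin κ) → ZMod m) (p : ι → Fin κ → Bool)
    (J : ι → Fin k) (x : ι × Fin k → Bool) :
    ∃ c0 : ZMod m, ∀ y : ι → Bool,
      frm cf (fullv p J x y) = c0 + frm (fun i => cf (.inl (i, J i))) y := by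
  classical
  refine ⟨(∑ i : ι, ∑ j : Fin k, if j = J i then 0 else
      if x (i, j) = true then cf (.inl (i, j)) else 0) +
      ∑ w : ι × Fin κ, (if p w.1 w.2 = true then cf (.inr w) else 0), fun y => ?_⟩
  unfold frm
  rw [Fintype.sum_sum_type]
  have h1 : ∑ a : ι × Fin k, (if fullv p J x y (.inl a) = true then cf (.inl a) else 0) =
      (∑ i : ι, ∑ j : Fin k, if j = J i then 0 else
        if x (i, j) = true then cf (.inl (i, j)) else 0) +
      ∑ i : ι, (if y i = true then cf (.inl (i, J i)) else 0) := by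
    rw [Fintype.sum_prod_type, ← Finset.sum_add_distrib]
    refine Finset.sum_congr rfl (fun i _ => ?_)
    rw [← Finset.add_sum_erase univ _ (mem_univ (J i)),
      ← Finset.add_sum_erase univ (fun j => if j = J i then (0 : ZMod m) else
        if x (i, j) = true then cf (.inl (i, j)) else 0) (mem_univ (J i))]
    have h2 : ∀ j ∈ univ.erase (J i),
        (if fullv p J x y (.inl (i, j)) = true then cf (.inl (i, j)) else 0) =
        (if j = J i then 0 else if x (i, j) = true then cf (.inl (i, j)) else 0) := by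
      intro j hj
      have hj' : j ≠ J i := (mem_erase.mp hj).1
      rw [if_neg hj']
      simp [fullv, rs, hj']
    rw [Finset.sum_congr rfl h2]
    have h3 : fullv p J x y (.inl (i, J i)) = y i := by simp [fullv, rs]
    rw [h3]
    simp only [if_true, zero_add]
    ring
  rw [h1]
  have h4 : ∑ w : ι × Fin κ, (if fullv p J x y (.inr w) = true then cf (.inr w) else 0) =
      ∑ w : ι × Fin κ, (if p w.1 w.2 = true then cf (.inr w) else 0) := rfl
  rw [h4]
  ring

open Classical in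
theorem coreL (hM : M6w.S_MainWw) (h10 : S_DT) (m q B : ℕ)
    (hm : 2 ≤ m) (hq : 2 ≤ q) (hcop : Nat.Coprime m q) (hB : 2 * q + 1 ≤ B) :
    ∃ C : ℕ, ∀ {n k κ : ℕ}, 1 ≤ k → ∀ {Cd : Type} [Fintype Cd]
    (F : Cd → (Vl n B k κ → Bool) → Bool) (d : ℕ),
    (∀ c (w : Ce n B × Fin κ → Bool), Apx (Ce n B × Fin k) k d (fun z => F c (Sum.elim z w))) →
    ∀ (mm : ℕ) (τ : ℝ), 0 < τ →
    (Fintype.card Cd : ℝ) * ((1 / 4) ^ d * Real.exp ((Fintype.card (Ce n B) : ℝ) *
      ((192 - 1) * mm / Fintype.card (Fin κ → Bool)))) ^ mm < τ ^ mm →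
    ∃ h : Ce n B → (Fin κ → Bool) → Fin k,
      ∀ (Vt : Type) (st : Vt → Finset (Fin n)) (Cn : Vt → (Fin n → ZMod q) → Prop) (W : ℕ)
        (H : Finset (Fin n) → (Fin n → ZMod q) → Prop), IsGame W st Cn H →
        ∀ w : ℕ, (∀ v, (st v).card ≤ w) →
      ∀ (a g D S : ℕ) (L : Type) [Fintype L] (cd : L → Cd) (cf : Fin S → Fin g → Vl n B k κ → ZMod m)
        (f : Fin S → (Vl n B k κ → Bool) → Bool),
        (∀ Z : (Ce n B → Bool) → (Vl n B k κ → Bool),
          (∀ l, QD Cst (5 * d ^ 4) (fun y => F (cd l) (Z y))) →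
          ∀ j (w : Fin g → ZMod m), ∃ h' : (Ce n B → Bool) → Bool, QD Cst D h' ∧
            ∀ y, (∀ i, frm (cf j i) (Z y) = w i) → f j (Z y) = h' y) →
        C * ((a + 1) ^ 2 * (g + 1) ^ 2 * (D + 1)) + w ≤ W →
        (Fintype.card L : ℝ) * τ ≤ 1 →
        (∀ j, (∃ v, ∀ z, Cn v (bsum q (cval h z)) → f j z = true) ∨
          ∃ P : Finset (Fin S), P.card ≤ a ∧ (∀ p ∈ P, p < j) ∧
            ∀ z, (∀ p ∈ P, f p z = true) → f j z = true) →
        ∀ j, ∃ z, f j z = true := by
  obtain ⟨C, hC⟩ := hM m q B hm hq hcop hB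
  refine ⟨C, ?_⟩
  intro n k κ hk Cd _ F d hF mm τ hτ hlt
  obtain ⟨h, hh⟩ := exists_hash2 (ι := Ce n B) (κt := Fin κ) hk F d hF mm τ hτ hlt
  refine ⟨h, ?_⟩
  intro Vt st Cn W H hH w hst a g D S L _ cd cf f hline hah hSr hsound j
  obtain ⟨p, x, hpx⟩ := hh L cd hSr
  let Z : (Ce n B → Bool) → (Vl n B k κ → Bool) := fun y => fullv p (fun i => h i (p i)) x y
  choose c0 hc0 using fun (j : Fin S) (l : Fin g) =>
    frm_fullvG (cf j l) p (fun i => h i (p i)) x
  have hcv : ∀ y, cval h (Z y) = y := by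
    intro y
    funext i
    simp [cval, Z, fullv, rs]
  obtain ⟨y, hy⟩ := hC (Fin n) Vt _ _ _ H hH w hst a g
    D S hah (fun j l i => cf j l (.inl (i, h i (p i))))
    (fun j y => f j (Z y))
    (by
      intro j w
      obtain ⟨h', hh1, hh2⟩ := hline Z (fun l => h10 (Ce n B) d _ (hpx l)) j
        (fun i => c0 j i + w i)
      refine ⟨h', QD_cst ?_ hh1, fun y hy => hh2 y (fun i => ?_)⟩
      · intro f' hf' y y' _
        exact hf' y y'
      · rw [hc0 j i y, hy i])
    (by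
      intro j
      rcases hsound j with ⟨v, hv⟩ | ⟨P, hP1, hP2, hP3⟩
      · left
        refine ⟨v, fun y hy => hv _ ?_⟩
        rw [hcv]
        exact hy
      · right
        exact ⟨P, hP1, hP2, fun y hy => hP3 _ hy⟩) j
  exact ⟨_, hy⟩

open Classical in
theorem core3L (hM : M6w.S_MainWw) (h10 : S_DT) (m q B : ℕ)
    (hm : 2 ≤ m) (hq : 2 ≤ q) (hcop : Nat.Coprime m q) (hB : 2 * q + 1 ≤ B) :
    ∃ C : ℕ, ∀ {n k κ s t : ℕ}, 1 ≤ k → ∀ (d : ℕ), 1 ≤ t → 2440980 * t ≤ k →
    s ≤ d * t ^ 2 → ∀ (mm : ℕ) (τ : ℝ), 0 < τ →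
    (Fintype.card (Fin (2 * s) → Option ((Vl n B k κ × Bool) ⊕ Bool)) : ℝ) *
      ((1 / 4) ^ d * Real.exp ((Fintype.card (Ce n B) : ℝ) *
      ((192 - 1) * mm / Fintype.card (Fin κ → Bool)))) ^ mm < τ ^ mm →
    ∃ h : Ce n B → (Fin κ → Bool) → Fin k,
      ∀ (Vt : Type) (st : Vt → Finset (Fin n)) (Cn : Vt → (Fin n → ZMod q) → Prop) (W : ℕ)
        (H : Finset (Fin n) → (Fin n → ZMod q) → Prop), IsGame W st Cn H →
        ∀ w : ℕ, (∀ v, (st v).card ≤ w) →
      ∀ (a g D S : ℕ) (L : Type) [Fintype L] (fm : L → T (Vl n B k κ) ⊕ Bool)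
        (cf : Fin S → Fin g → Vl n B k κ → ZMod m)
        (f : Fin S → (Vl n B k κ → Bool) → Bool), (∀ l, leavess (fm l) ≤ s) →
        (∀ Z : (Ce n B → Bool) → (Vl n B k κ → Bool),
          (∀ l, QD Cst (5 * d ^ 4) (fun y => evs (Z y) (fm l))) →
          ∀ j (w : Fin g → ZMod m), ∃ h' : (Ce n B → Bool) → Bool, QD Cst D h' ∧
            ∀ y, (∀ i, frm (cf j i) (Z y) = w i) → f j (Z y) = h' y) →
        C * ((a + 1) ^ 2 * (g + 1) ^ 2 * (D + 1)) + w ≤ W →
        (Fintype.card L : ℝ) * τ ≤ 1 →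
        (∀ j, (∃ v, ∀ z, Cn v (bsum q (cval h z)) → f j z = true) ∨
          ∃ P : Finset (Fin S), P.card ≤ a ∧ (∀ p ∈ P, p < j) ∧
            ∀ z, (∀ p ∈ P, f p z = true) → f j z = true) →
        ∀ j, ∃ z, f j z = true := by
  obtain ⟨C, hC⟩ := coreL hM h10 m q B hm hq hcop hB
  refine ⟨C, ?_⟩
  intro n k κ s t hk d ht htk hs mm τ hτ hlt
  let A := Vl n B k κ
  let Cd := Fin (2 * s) → Option ((A × Bool) ⊕ Bool)
  let F : Cd → (A → Bool) → Bool := fun c z =>
    match decode c with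
    | some f => if f.leaves ≤ s then f.ev z else false
    | none => false
  have hF : ∀ c (w : Ce n B × Fin κ → Bool),
      Apx (Ce n B × Fin k) k d (fun z => F c (Sum.elim z w)) := by
    intro c w
    have hconst : Apx (Ce n B × Fin k) k d (fun _ => false) := by
      intro j _
      exact ⟨0, by omega, _, LowDeg.const 0 0, fun z => by simp⟩
    cases hc : decode c with
    | none =>
      simp only [F, hc]
      exact hconst
    | some f =>
      by_cases hf : f.leaves ≤ s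
      · simp only [F, hc, if_pos hf]
        exact apx_formula ht htk hs f hf w
      · simp only [F, hc, if_neg hf]
        exact hconst
  obtain ⟨h, h4⟩ := hC hk F d hF mm τ hτ hlt
  refine ⟨h, ?_⟩
  intro Vt st Cn W H hH w hst a g D S L _ fm cf f hsz hline hah hSr hsound j
  have hcode : ∀ x : T A ⊕ Bool, leavess x ≤ s →
      ∃ c : Cd, ∀ f, x = .inl f → ∀ z, F c z = f.ev z := by
    intro x hx
    cases hl : x with
    | inl f =>
      have h5 : f.leaves ≤ s := by
        rw [hl] at hx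
        exact hx
      obtain ⟨c, hc⟩ := exists_code s f h5
      refine ⟨c, fun f' hf' z => ?_⟩
      rw [Sum.inl.injEq] at hf'
      subst hf'
      simp only [F, hc, if_pos h5]
    | inr b =>
      refine ⟨fun _ => none, fun f' hf' => ?_⟩
      simp at hf'
  choose cd hcd using fun l => hcode (fm l) (hsz l)
  refine h4 Vt st Cn W H hH w hst a g D S L cd cf f (fun Z hZ => hline Z (fun l => ?_)) hah hSr
    hsound j
  cases hl : fm l with
  | inl g =>
    have h5 : (fun y => evs (Z y) (Sum.inl g)) = (fun y => F (cd l) (Z y)) := by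
      funext y
      rw [hcd l g hl]
      rfl
    rw [h5]
    exact hZ l
  | inr b => exact QD.leaf (fun y y' => rfl)

end Pool.Agent.Helper600R2.CM.LW
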