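import Pool.Agent.Helper600R2.CM.LowP

/-!
Prime moduli: lines which are arbitrary functions of small degree after a restriction.
-/

namespace Pool.Agent.Helper600R2.CM

open Finset Pool.Agent.Helper600R2 Pool.Agent.H564R2.QF
open Pool.Agent.Helper600R2.Quad (HoldsA hclause holds_hclause fullv exists_hash2 Apx)
open Pool.Agent.Helper600R2.Sharp (rs)

open Classical in
/-- the CNF and the lower bound for lines which have small degree whenever the functions of a
small family have -/
theorem coreP2 (hI : S_Int) (p q B : ℕ) [Fact p.Prime] [Fact q.Prime]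
    (hpq : p ≠ q) (hB : q ≤ B + 1) {n k κ : ℕ} (hn : 25 ≤ n) (hk : 1 ≤ k) {Cd : Type} [Fintype Cd]
    (F : Cd → (Vr n B k κ → Bool) → Bool) (d : ℕ)
    (hF : ∀ c (w : Ix n B × Fin κ → Bool),
      Apx (Ix n B × Fin k) k d (fun z => F c (Sum.elim z w)))
    (mm : ℕ) (τ : ℝ) (hτ : 0 < τ)
    (hlt : (Fintype.card Cd : ℝ) * ((1 / 4) ^ d * Real.exp ((Fintype.card (Ix n B) : ℝ) *
      ((192 - 1) * mm / Fintype.card (Fin κ → Bool)))) ^ mm < τ ^ mm) :
    ∃ (π : Equiv.Perm (Fin n)) (h : Ix n B → (Fin κ → Bool) → Fin k),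
      (CNF q B π chg h).card ≤ n * (2 ^ κ * 2) ^ (4 * B) ∧
      (∀ c ∈ CNF q B π chg h, c.card ≤ 4 * B * (κ + 1)) ∧
      (∀ z, ∃ c ∈ CNF q B π chg h, ¬ HoldsA z c) ∧
      ∀ (a S D : ℕ) (L : Type) [Fintype L] (cd : L → Cd)
        (f : Fin S → (Vr n B k κ → Bool) → Bool),
        (∀ Z : (Ix n B → Bool) → (Vr n B k κ → Bool),
          (∀ l, toK (AlgebraicClosure (ZMod p)) (fun y => F (cd l) (Z y)) ∈
            J (ι := Ix n B) (α := Bool) (AlgebraicClosure (ZMod p)) d) →
          ∀ j, toK (AlgebraicClosure (ZMod p)) (fun y => f j (Z y)) ∈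
            J (ι := Ix n B) (α := Bool) (AlgebraicClosure (ZMod p)) D) →
        2 * ((a + 1) * D + 4) ≤ n / 60 →
        (Fintype.card L : ℝ) * τ ≤ 1 →
        (∀ j, (∃ c ∈ CNF q B π chg h, ∀ z, HoldsA z c → f j z = true) ∨
          ∃ P : Finset (Fin S), P.card ≤ a ∧ (∀ p ∈ P, p < j) ∧
            ∀ z, (∀ p ∈ P, f p z = true) → f j z = true) →
        ∀ j, ∃ z, f j z = true := by
  have hp : p.Prime := Fact.out
  have hq : q.Prime := Fact.out
  obtain ⟨π, hπ⟩ := exists_expander hn
  obtain ⟨h, hh⟩ := exists_hash2 (ι := Ix n B) (κt := Fin κ) hk F d hF mm τ hτ hlt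
  refine ⟨π, h, ?_, ?_, ?_, ?_⟩
  · refine card_biUnion_le.trans ?_
    calc ∑ v : Fin n, ((idx q B π chg v).image (hclause h (cells q B π v))).card
        ≤ ∑ v : Fin n, (2 ^ κ * 2) ^ (4 * B) := sum_le_sum fun v _ => by
          refine card_image_le.trans ((card_filter_le _ _).trans ?_)
          rw [card_univ, Fintype.card_prod, Fintype.card_fun, Fintype.card_fun, Fintype.card_fun,
            Fintype.card_bool, Fintype.card_coe, Fintype.card_fin, ← mul_pow]
          exact Nat.pow_le_pow_right (by positivity) (cells_card π v)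
      _ = n * (2 ^ κ * 2) ^ (4 * B) := by simp
  · intro c hc
    rw [CNF, mem_biUnion] at hc
    obtain ⟨v, _, hv⟩ := hc
    rw [mem_image] at hv
    obtain ⟨Pw, _, rfl⟩ := hv
    exact (hclause_card _ _ _).trans (Nat.mul_le_mul_right _ (cells_card π v))
  · intro z
    let P : Ix n B → Fin κ → Bool := fun i c => z (.inr (i, c))
    let y : Ix n B → Bool := fun i => z (.inl (i, h i (P i)))
    obtain ⟨v, hv⟩ : ∃ v, flow (ghd π) gtl v (bsum q y) ≠ chg v := by
      by_contra hcon
      push Not at hcon
      have h2 := flow_sum' π (bsum q y)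
      simp only [hcon, chg] at h2
      have h3 : ∑ v : Fin n, (if v.val = 0 then (1 : ZMod q) else 0) = 1 := by
        rw [Finset.sum_eq_single (⟨0, by omega⟩ : Fin n)]
        · simp
        · intro v _ hv
          rw [if_neg]
          intro h
          exact hv (Fin.ext h)
        · intro h; exact absurd (mem_univ _) h
      rw [h3] at h2
      exact one_ne_zero h2
    refine ⟨hclause h (cells q B π v) (fun i => P i.1, fun i => y i.1), ?_, ?_⟩
    · rw [CNF, mem_biUnion]
      refine ⟨v, mem_univ v, mem_image_of_mem _ ?_⟩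
      simp only [idx, mem_filter, mem_univ, true_and]
      rw [flow_congr q π v (ext fun i : cells q B π v => y i.1) y (fun i hi => by
        simp only [ext, dif_pos hi])]
      exact hv
    · rw [holds_hclause]
      rintro ⟨i, ⟨c, hc⟩ | hi⟩
      · exact hc rfl
      · exact hi rfl
  · intro a S D L _ cd f hdeg hah hSr hsound j
    obtain ⟨p', x, hpx⟩ := hh L cd hSr
    let Z : (Ix n B → Bool) → (Vr n B k κ → Bool) := fun y => fullv p' (fun i => h i (p' i)) x y
    let K := AlgebraicClosure (ZMod p)
    -- the field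
    have hqK : (q : K) ≠ 0 := by
      intro h
      rw [CharP.cast_eq_zero_iff K p q] at h
      rw [Nat.prime_dvd_prime_iff_eq hp hq] at h
      exact hpq h
    have : NeZero (q : ZMod p) := ⟨by
      intro h
      rw [CharP.cast_eq_zero_iff (ZMod p) p q] at h
      rw [Nat.prime_dvd_prime_iff_eq hp hq] at h
      exact hpq h⟩
    obtain ⟨ζ, hζ⟩ := HasEnoughRootsOfUnity.exists_primitiveRoot (AlgebraicClosure (ZMod p)) q
    have hprim := AddChar.zmodChar_primitive_of_primitive_root q hζ
    obtain ⟨y, hy⟩ := noLow π _ hprim hqK hB (by omega) hπ chg D a hah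
      (fun j y => f j (Z y)) (by
        intro j
        rcases hsound j with ⟨c, hc, hcj⟩ | ⟨P, hP1, hP2, hP3⟩
        · left
          rw [CNF, mem_biUnion] at hc
          obtain ⟨v, _, hv⟩ := hc
          rw [mem_image] at hv
          obtain ⟨Pw, hPw, rfl⟩ := hv
          refine ⟨v, fun y hy => hcj _ ?_⟩
          rw [holds_hclause]
          by_contra hcon
          push Not at hcon
          simp only [idx, mem_filter, mem_univ, true_and] at hPw
          apply hPw
          have h1 : ∀ i : cells q B π v, Pw.1 i = p' i.1 := by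
            intro i
            funext c
            exact ((hcon i).1 c).symm
          have h2 : ∀ i : cells q B π v, Pw.2 i = y i.1 := by
            intro i
            rw [← (hcon i).2, h1 i]
            simp [Z, fullv, rs]
          rw [flow_congr q π v (ext Pw.2) y (fun i hi => by
            simp only [ext, dif_pos hi]
            exact h2 ⟨i, hi⟩)]
          exact hy
        · right
          exact ⟨P, hP1, hP2, fun y hy => hP3 _ hy⟩)
      (hdeg Z (fun l => hI (Ix n B) K d _ (hpx l))) j
    exact ⟨_, hy⟩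

end Pool.Agent.Helper600R2.CM
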