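import Pool.Agent.Helper600R2.CM.Stm
import Pool.Agent.Helper600R2.Quad.Codes

/-!
The CNF built from the Tseitin system modulo `q` of an expander, every edge variable being the sum
modulo `q` of `B` bits, and hash tables; the lower bound for lines which read few functions of
small approximate degree and few linear forms modulo `m`.
-/

namespace Pool.Agent.Helper600R2.CM

open Finset Pool.Agent.Helper600R2 Pool.Agent.H564R2.QF
open Pool.Agent.Helper600R2.Quad (HoldsA hclause holds_hclause fullv exists_hash2 Apx)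
open Pool.Agent.Helper600R2.Sharp (rs)

abbrev Ix (n B : ℕ) := (Fin n × Bool) × Fin B
abbrev Vr (n B k κ : ℕ) := (Ix n B × Fin k) ⊕ (Ix n B × Fin κ)

/-- the edges at `v` -/
def st (q : ℕ) [NeZero q] {n : ℕ} (π : Equiv.Perm (Fin n)) (v : Fin n) : Finset (Fin n × Bool) :=
  nsupp (q := q) (dd (ghd π) gtl (Pi.single v (1 : ZMod q)))

/-- the cells at `v` -/
def cells (q : ℕ) [NeZero q] {n : ℕ} (B : ℕ) (π : Equiv.Perm (Fin n)) (v : Fin n) :
    Finset (Ix n B) := st q π v ×ˢ univ

/-- extension by `false` -/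
def ext {ι : Type} [DecidableEq ι] {R : Finset ι} (w : R → Bool) : ι → Bool :=
  fun i => if h : i ∈ R then w ⟨i, h⟩ else false

lemma flow_congr (q : ℕ) [NeZero q] {n B : ℕ} (π : Equiv.Perm (Fin n)) (v : Fin n)
    (y y' : Ix n B → Bool) (h : ∀ i ∈ cells q B π v, y i = y' i) :
    flow (ghd π) gtl v (bsum q y) = flow (ghd π) gtl v (bsum q y') := by
  simp only [flow]
  refine Finset.sum_congr rfl (fun e _ => ?_)
  by_cases he : dd (ghd π) gtl (Pi.single v (1 : ZMod q)) e = 0
  · rw [he, zero_mul, zero_mul]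
  · congr 1
    simp only [bsum]
    refine Finset.sum_congr rfl (fun t _ => ?_)
    rw [h (e, t)]
    simp only [cells, st, mem_product, mem_univ, and_true, nsupp, mem_filter, true_and]
    exact he

open Classical in
/-- the clauses of the equation at `v` -/
noncomputable def idx (q : ℕ) [NeZero q] {n κ : ℕ} (B : ℕ) (π : Equiv.Perm (Fin n))
    (b : Fin n → ZMod q) (v : Fin n) :
    Finset ((cells q B π v → Fin κ → Bool) × (cells q B π v → Bool)) :=
  univ.filter fun Pw => flow (ghd π) gtl v (bsum q (ext Pw.2)) ≠ b v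

open Classical in
/-- the CNF -/
noncomputable def CNF (q : ℕ) [NeZero q] {n k κ : ℕ} (B : ℕ) (π : Equiv.Perm (Fin n))
    (b : Fin n → ZMod q) (h : Ix n B → (Fin κ → Bool) → Fin k) :
    Finset (Finset (Vr n B k κ × Bool)) :=
  univ.biUnion fun v => (idx q B π b v).image (hclause h (cells q B π v))

/-- the linear form of the surviving variables -/
lemma frm_fullv {n B k κ m : ℕ} (cf : Vr n B k κ → ZMod m) (p : Ix n B → Fin κ → Bool)
    (J : Ix n B → Fin k) (x : Ix n B × Fin k → Bool) :
    ∃ c0 : ZMod m, ∀ y : Ix n B → Bool,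
      frm cf (fullv p J x y) = c0 + frm (fun i => cf (.inl (i, J i))) y := by
  classical
  refine ⟨(∑ i : Ix n B, ∑ j : Fin k, if j = J i then 0 else
      if x (i, j) = true then cf (.inl (i, j)) else 0) +
      ∑ w : Ix n B × Fin κ, (if p w.1 w.2 = true then cf (.inr w) else 0), fun y => ?_⟩
  unfold frm
  rw [Fintype.sum_sum_type]
  have h1 : ∑ a : Ix n B × Fin k, (if fullv p J x y (.inl a) = true then cf (.inl a) else 0) =
      (∑ i : Ix n B, ∑ j : Fin k, if j = J i then 0 else
        if x (i, j) = true then cf (.inl (i, j)) else 0) +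
      ∑ i : Ix n B, (if y i = true then cf (.inl (i, J i)) else 0) := by
    rw [Fintype.sum_prod_type, ← Finset.sum_add_distrib]
    refine Finset.sum_congr rfl (fun i _ => ?_)
    rw [← Finset.add_sum_erase univ _ (mem_univ (J i)),
      ← Finset.add_sum_erase univ (fun j => if j = J i then (0 : ZMod m) else
        if x (i, j) = true then cf (.inl (i, j)) else 0) (mem_univ (J i))]
    have h2 : ∀ j ∈ univ.erase (J i),
        (if fullv p J x y (.inl (i, j)) = true then cf (.inl (i, j)) else 0) =
        (if j = J i then 0 else if x (i, j) = true then cf (.inl (i, j)) else 0) := by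
      intro j hj
      have hj' : j ≠ J i := (mem_erase.mp hj).1
      rw [if_neg hj']
      simp [fullv, rs, hj']
    rw [Finset.sum_congr rfl h2]
    have h3 : fullv p J x y (.inl (i, J i)) = y i := by simp [fullv, rs]
    rw [h3]
    simp only [if_true, zero_add]
    ring
  rw [h1]
  have h4 : ∑ w : Ix n B × Fin κ, (if fullv p J x y (.inr w) = true then cf (.inr w) else 0) =
      ∑ w : Ix n B × Fin κ, (if p w.1 w.2 = true then cf (.inr w) else 0) := rfl
  rw [h4]
  ring

/-- the charges -/
def chg {q n : ℕ} (v : Fin n) : ZMod q := if v.val = 0 then 1 else 0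

lemma st_card {q : ℕ} [NeZero q] {n : ℕ} (π : Equiv.Perm (Fin n)) (v : Fin n) :
    (st q π v).card ≤ 4 := graph_deg (q := q) π v 1

lemma cells_card {q : ℕ} [NeZero q] {n B : ℕ} (π : Equiv.Perm (Fin n)) (v : Fin n) :
    (cells q B π v).card ≤ 4 * B := by
  rw [cells, card_product, card_univ, Fintype.card_fin]
  exact Nat.mul_le_mul_right _ (st_card π v)

lemma flow_sum' {q : ℕ} [NeZero q] {n : ℕ} (π : Equiv.Perm (Fin n)) (z : Fin n × Bool → ZMod q) :
    ∑ v, flow (ghd π) gtl v z = 0 := by
  simp only [flow]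
  rw [Finset.sum_comm]
  apply Finset.sum_eq_zero
  intro e _
  rw [← Finset.sum_mul]
  have : ∑ v, dd (ghd π) gtl (Pi.single v (1 : ZMod q)) e = 0 := by
    simp only [dd, Finset.sum_sub_distrib, Pi.single_apply]
    simp
  rw [this, zero_mul]

lemma hclause_card {E : Type} [DecidableEq E] {k κ : ℕ} (h : E → (Fin κ → Bool) → Fin k)
    (Rv : Finset E) (Pw : (Rv → Fin κ → Bool) × (Rv → Bool)) :
    (hclause h Rv Pw).card ≤ Rv.card * (κ + 1) := by
  unfold hclause
  refine (card_union_le _ _).trans ?_
  rw [mul_add, mul_one]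
  apply add_le_add
  · refine card_biUnion_le.trans ?_
    refine (Finset.sum_le_sum (fun i _ => card_image_le)).trans ?_
    simp
  · refine card_image_le.trans ?_
    rw [card_univ, Fintype.card_coe]

open Classical in
theorem coreX (h5 : S_Game) (hM : S_Main) (h10 : S_DT) (h11 : S_Comb) (m q B : ℕ) [NeZero q]
    (hm : 2 ≤ m) (hq : 2 ≤ q) (hcop : Nat.Coprime m q) (hB : 2 * q + 1 ≤ B) :
    ∃ C : ℕ, ∀ {n k κ : ℕ}, 25 ≤ n → 1 ≤ k → ∀ {Cd : Type} [Fintype Cd]
    (F : Cd → (Vr n B k κ → Bool) → Bool) (d : ℕ),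
    (∀ c (w : Ix n B × Fin κ → Bool), Apx (Ix n B × Fin k) k d (fun z => F c (Sum.elim z w))) →
    ∀ (mm : ℕ) (τ : ℝ), 0 < τ →
    (Fintype.card Cd : ℝ) * ((1 / 4) ^ d * Real.exp ((Fintype.card (Ix n B) : ℝ) *
      ((192 - 1) * mm / Fintype.card (Fin κ → Bool)))) ^ mm < τ ^ mm →
    ∃ (π : Equiv.Perm (Fin n)) (h : Ix n B → (Fin κ → Bool) → Fin k),
      (CNF q B π chg h).card ≤ n * (2 ^ κ * 2) ^ (4 * B) ∧
      (∀ c ∈ CNF q B π chg h, c.card ≤ 4 * B * (κ + 1)) ∧
      (∀ z, ∃ c ∈ CNF q B π chg h, ¬ HoldsA z c) ∧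
      ∀ (a r g S : ℕ) (part : Fin S → Fin r → Cd) (cf : Fin S → Fin g → Vr n B k κ → ZMod m)
        (G : Fin S → (Fin r → Bool) → (Fin g → ZMod m) → Bool),
        2 * (C * ((a + 1) ^ 2 * (g + 1) ^ 2 * (r * (5 * d ^ 4) + 1)) + 4) ≤ n / 60 →
        ((S : ℝ) * r) * τ ≤ 1 →
        (∀ j, (∃ c ∈ CNF q B π chg h, ∀ z, HoldsA z c →
            G j (fun l => F (part j l) z) (fun l => frm (cf j l) z) = true) ∨
          ∃ P : Finset (Fin S), P.card ≤ a ∧ (∀ p ∈ P, p < j) ∧
            ∀ z, (∀ p ∈ P, G p (fun l => F (part p l) z) (fun l => frm (cf p l) z) = true) →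
              G j (fun l => F (part j l) z) (fun l => frm (cf j l) z) = true) →
        ∀ j, ∃ z, G j (fun l => F (part j l) z) (fun l => frm (cf j l) z) = true := by
  obtain ⟨C, hC⟩ := hM m q B hm hq hcop hB
  refine ⟨C, ?_⟩
  intro n k κ hn hk Cd _ F d hF mm τ hτ hlt
  obtain ⟨π, hπ⟩ := exists_expander hn
  obtain ⟨h, hh⟩ := exists_hash2 (ι := Ix n B) (κt := Fin κ) hk F d hF mm τ hτ hlt
  refine ⟨π, h, ?_, ?_, ?_, ?_⟩
  · refine card_biUnion_le.trans ?_
    calc ∑ v : Fin n, ((idx q B π chg v).image (hclause h (cells q B π v))).card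
        ≤ ∑ v : Fin n, (2 ^ κ * 2) ^ (4 * B) := sum_le_sum fun v _ => by
          refine card_image_le.trans ((card_filter_le _ _).trans ?_)
          rw [card_univ, Fintype.card_prod, Fintype.card_fun, Fintype.card_fun, Fintype.card_fun,
            Fintype.card_bool, Fintype.card_coe, Fintype.card_fin, ← mul_pow]
          exact Nat.pow_le_pow_right (by positivity) (cells_card π v)
      _ = n * (2 ^ κ * 2) ^ (4 * B) := by simp
  · intro c hc
    rw [CNF, mem_biUnion] at hc
    obtain ⟨v, _, hv⟩ := hc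
    rw [mem_image] at hv
    obtain ⟨Pw, _, rfl⟩ := hv
    exact (hclause_card _ _ _).trans (Nat.mul_le_mul_right _ (cells_card π v))
  · intro z
    let P : Ix n B → Fin κ → Bool := fun i c => z (.inr (i, c))
    let y : Ix n B → Bool := fun i => z (.inl (i, h i (P i)))
    obtain ⟨v, hv⟩ : ∃ v, flow (ghd π) gtl v (bsum q y) ≠ chg v := by
      by_contra hcon
      push Not at hcon
      have h2 := flow_sum' π (bsum q y)
      simp only [hcon, chg] at h2
      have h3 : ∑ v : Fin n, (if v.val = 0 then (1 : ZMod q) else 0) = 1 := by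
        rw [Finset.sum_eq_single (⟨0, by omega⟩ : Fin n)]
        · simp
        · intro v _ hv
          rw [if_neg]
          intro h
          exact hv (Fin.ext h)
        · intro h; exact absurd (mem_univ _) h
      rw [h3] at h2
      have : Fact (1 < q) := ⟨by omega⟩
      exact one_ne_zero h2
    refine ⟨hclause h (cells q B π v) (fun i => P i.1, fun i => y i.1), ?_, ?_⟩
    · rw [CNF, mem_biUnion]
      refine ⟨v, mem_univ v, mem_image_of_mem _ ?_⟩
      simp only [idx, mem_filter, mem_univ, true_and]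
      rw [flow_congr q π v (ext fun i : cells q B π v => y i.1) y (fun i hi => by
        simp only [ext, dif_pos hi])]
      exact hv
    · rw [holds_hclause]
      rintro ⟨i, ⟨c, hc⟩ | hi⟩
      · exact hc rfl
      · exact hi rfl
  · intro a r g S part cf G hah hSr hsound j
    obtain ⟨p, x, hpx⟩ := hh (Fin S × Fin r) (fun l => part l.1 l.2)
      (by rw [Fintype.card_prod, Fintype.card_fin, Fintype.card_fin]; push_cast; exact hSr)
    let Z : (Ix n B → Bool) → (Vr n B k κ → Bool) := fun y => fullv p (fun i => h i (p i)) x y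
    obtain ⟨H, hH⟩ := h5 n q hq (by omega) π hπ chg
      (C * ((a + 1) ^ 2 * (g + 1) ^ 2 * (r * (5 * d ^ 4) + 1))) hah
    choose c0 hc0 using fun (j : Fin S) (l : Fin g) =>
      frm_fullv (cf j l) p (fun i => h i (p i)) x
    obtain ⟨y, hy⟩ := hC (Fin n × Bool) (Fin n) _ _ _ H hH (fun v => st_card π v) a g
      (r * (5 * d ^ 4)) S le_rfl (fun j l i => cf j l (.inl (i, h i (p i))))
      (fun j y => G j (fun l => F (part j l) (Z y)) (fun l => frm (cf j l) (Z y)))
      (by
        intro j
        have h1 : ∀ l, QD Cst (5 * d ^ 4) (fun y : Ix n B → Bool => F (part j l) (Z y)) := by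
          intro l
          exact h10 (Ix n B) d _ (hpx (j, l))
        have h2 := h11 (Ix n B) (Leaf fun (l : Fin g) (i : Ix n B) =>
          cf j l (.inl (i, h i (p i)))) r (5 * d ^ 4) _ h1
          (fun u y => G j u (fun l => frm (cf j l) (Z y))) (by
            intro u y y' hyy
            have h3 : (fun l => frm (cf j l) (Z y)) = (fun l => frm (cf j l) (Z y')) := by
              funext l
              rw [hc0 j l y, hc0 j l y', hyy l]
            simp only [h3])
        exact h2)
      (by
        intro j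
        rcases hsound j with ⟨c, hc, hcj⟩ | ⟨P, hP1, hP2, hP3⟩
        · left
          rw [CNF, mem_biUnion] at hc
          obtain ⟨v, _, hv⟩ := hc
          rw [mem_image] at hv
          obtain ⟨Pw, hPw, rfl⟩ := hv
          refine ⟨v, fun y hy => hcj _ ?_⟩
          rw [holds_hclause]
          by_contra hcon
          push Not at hcon
          simp only [idx, mem_filter, mem_univ, true_and] at hPw
          apply hPw
          have h1 : ∀ i : cells q B π v, Pw.1 i = p i.1 := by
            intro i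
            funext c
            exact ((hcon i).1 c).symm
          have h2 : ∀ i : cells q B π v, Pw.2 i = y i.1 := by
            intro i
            rw [← (hcon i).2, h1 i]
            simp [Z, fullv, rs]
          rw [flow_congr q π v (ext Pw.2) y (fun i hi => by
            simp only [ext, dif_pos hi]
            exact h2 ⟨i, hi⟩)]
          exact hy
        · right
          exact ⟨P, hP1, hP2, fun y hy => hP3 _ hy⟩) j
    exact ⟨_, hy⟩

end Pool.Agent.Helper600R2.CM
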