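import Pool.Agent.Helper600R2.CM.M6

/-!
The walk for lines which are shallow decision trees once the values of the forms are known.
-/

namespace Pool.Agent.Helper600R2.CM.M6c

open Finset Pool.Agent.Helper600R2 Pool.Agent.H564R2.QF Pool.Agent.Helper600R2.CM
open Pool.Agent.Helper600R2.CM.M6 (closed_anti closed_grow closed_sub Agree Cert HomP walk ext exY
  Poss poss_of poss_axiom)

variable {E : Type} [Fintype E] [DecidableEq E] {m q B : ℕ}

/-- for all values `w` of the forms `c` the function `f` agrees, where the forms have the values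
`w`, with a function computed by a tree of depth `D` -/
def QW {V : Type} [Fintype V] {m G : ℕ} (c : Fin G → V → ZMod m) (D : ℕ)
    (f : (V → Bool) → Bool) : Prop :=
  ∀ w : Fin G → ZMod m, ∃ g, QD (Leaf c) D g ∧ ∀ y, (∀ i, frm (c i) y = w i) → f y = g y

/-- the walk, generalised -/
def S_MainW : Prop := ∀ (m q B : ℕ), 2 ≤ m → 2 ≤ q → Nat.Coprime m q → 2 * q + 1 ≤ B →
  ∃ C : ℕ, ∀ (E Vt : Type) [Fintype E] [DecidableEq E] (W : ℕ) (st : Vt → Finset E)
    (Cn : Vt → (E → ZMod q) → Prop) (H : Finset E → (E → ZMod q) → Prop),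
    IsGame W st Cn H → (∀ v, (st v).card ≤ 4) →
    ∀ (a G D S : ℕ), C * ((a + 1) ^ 2 * (G + 1) ^ 2 * (D + 1)) ≤ W →
    ∀ (c : Fin S → Fin G → E × Fin B → ZMod m) (f : Fin S → (E × Fin B → Bool) → Bool),
      (∀ j, QW (c j) D (f j)) →
      Sound (fun v y => Cn v (bsum q y)) a f → ∀ j, ∃ y, f j y = true

lemma walkW {C0 W : ℕ} (h3 : HomP m q B C0) {Vt : Type} {st : Vt → Finset E}
    {Cn : Vt → (E → ZMod q) → Prop} {H : Finset E → (E → ZMod q) → Prop}
    (hG : IsGame W st Cn H) {I : Type} [Fintype I] (l : I → E × Fin B → ZMod m) {G : ℕ}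
    (c : Fin G → E × Fin B → ZMod m) (ι : Fin G → I) (hι : ∀ i, c i = l (ι i)) {D : ℕ}
    {f : (E × Fin B → Bool) → Bool} (hf : QW c D f)
    (Sc : Finset E) (yc : E × Fin B → Bool) (hcl : Closed (C0 * (Fintype.card I + 1) + D) l Sc)
    (hcard : Sc.card + D ≤ W) (hH : H Sc (bsum q yc)) :
      ∃ (S' : Finset E) (y' : E × Fin B → Bool) (Q : Finset E), Sc ⊆ S' ∧ Q ⊆ S' ∧
        S'.card ≤ Sc.card + D ∧ Q.card ≤ D ∧ Agree Sc yc y' ∧
        (∀ i, frm (l i) y' = frm (l i) yc) ∧ H S' (bsum q y') ∧ Cert c f Q y' := by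
  obtain ⟨g0, hg0, heq⟩ := hf (fun i => frm (c i) yc)
  obtain ⟨S', y', Q, h1, h2, h4, h5, h6, h7, h8, h9⟩ := walk h3 hG l c hg0 Sc yc hcl hcard hH
  refine ⟨S', y', Q, h1, h2, h4, h5, h6, h7, h8, ?_⟩
  have hy' : ∀ i, frm (c i) y' = frm (c i) yc := by
    intro i
    rw [hι i]
    exact h7 _
  intro y'' hag hfr
  rw [heq y'' (fun i => (hfr i).trans (hy' i)), heq y' hy']
  exact h9 y'' hag hfr

/-- a line which is identically false is possible -/
lemma poss_init (h4 : S_Closure) (hm : 2 ≤ m) {C0 W : ℕ} (h3 : HomP m q B C0) {Vt : Type}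
    {st : Vt → Finset E} {Cn : Vt → (E → ZMod q) → Prop}
    {H : Finset E → (E → ZMod q) → Prop} (hG : IsGame W st Cn H) {G D W0 : ℕ}
    (c : Fin G → E × Fin B → ZMod m) (f : (E × Fin B → Bool) → Bool) (hf : QW c D f)
    (hfalse : ∀ y, f y = false) (hW0 : D + C0 * (G + 1) * (G * m) ≤ W0)
    (hW : (C0 * (G + 1) + D) * (G * m) + D ≤ W) : Poss q W0 (C0 * (G + 1)) H c f := by
  obtain ⟨S1, _, hcl1, hc1, _⟩ := h4 m B hm E (Fin G) c (C0 * (G + 1) + D) ∅
  rw [Fintype.card_fin, card_empty, zero_add] at hc1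
  obtain ⟨z, hz⟩ := hG.1
  obtain ⟨z1, _, hz1⟩ := ext hG ∅ z hz S1 (by rw [empty_union]; omega)
  rw [empty_union] at hz1
  obtain ⟨y1, hy1⟩ := exY (m := m) (B := B) h3 z1
  have hH1 : H S1 (bsum q y1) := hG.2.1 _ _ _ (fun e _ => (hy1 e).symm) hz1
  obtain ⟨S', y', Q, hS, hQ, hc, hQc, _, _, hH, hcert⟩ := walkW h3 hG c c id (fun _ => rfl) hf S1 y1
    (by rw [Fintype.card_fin]; exact hcl1) (by omega) hH1
  exact poss_of h4 hm hG c f (closed_grow hcl1 hS hc le_rfl) hQ hQc hH hcert (hfalse _) hW0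

/-- walk through finitely many lines -/
lemma walks {C0 W : ℕ} (h3 : HomP m q B C0) {Vt : Type} {st : Vt → Finset E}
    {Cn : Vt → (E → ZMod q) → Prop} {H : Finset E → (E → ZMod q) → Prop}
    (hG : IsGame W st Cn H) {I : Type} [Fintype I] (l : I → E × Fin B → ZMod m) {K G D : ℕ}
    (c : Fin K → Fin G → E × Fin B → ZMod m) (f : Fin K → (E × Fin B → Bool) → Bool)
    (hf : ∀ j, QW (c j) D (f j)) (R : ℕ) (S1 : Finset E) (y1 : E × Fin B → Bool)
    (hcl : Closed R l S1) (hH : H S1 (bsum q y1)) (P : Finset (Fin K))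
    (ι : Fin K → Fin G → I) (hι : ∀ p ∈ P, ∀ i, c p i = l (ι p i)) :
    ∀ P' : Finset (Fin K), P' ⊆ P → C0 * (Fintype.card I + 1) + P'.card * D ≤ R →
      S1.card + P'.card * D ≤ W →
      ∃ (S' : Finset E) (y' : E × Fin B → Bool), S1 ⊆ S' ∧ S'.card ≤ S1.card + P'.card * D ∧
        Agree S1 y1 y' ∧ (∀ i, frm (l i) y' = frm (l i) y1) ∧ H S' (bsum q y') ∧
        ∀ p ∈ P', ∃ Q : Finset E, Q ⊆ S' ∧ Q.card ≤ D ∧ Cert (c p) (f p) Q y' := by
  intro P'
  induction P' using Finset.induction_on with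
  | empty =>
    intro _ _ _
    exact ⟨S1, y1, Subset.rfl, by simp, fun e _ t => rfl, fun i => rfl, hH, by simp⟩
  | @insert p P' hp ih =>
    intro hsub hR hW
    rw [card_insert_of_notMem hp, add_mul, one_mul] at hR hW
    obtain ⟨S2, y2, hS2, hc2, hag2, hfr2, hH2, hcert2⟩ :=
      ih ((subset_insert _ _).trans hsub) (by omega) (by omega)
    have hcl2 : Closed (C0 * (Fintype.card I + 1) + D) l S2 :=
      closed_grow hcl hS2 hc2 (by omega)
    obtain ⟨S3, y3, Q, hS3, hQ, hc3, hQc, hag3, hfr3, hH3, hcert3⟩ :=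
      walkW h3 hG l (c p) (ι p) (hι p (hsub (mem_insert_self _ _))) (hf p) S2 y2 hcl2
        (by omega) hH2
    refine ⟨S3, y3, hS2.trans hS3, ?_, ?_, ?_, hH3, ?_⟩
    · rw [card_insert_of_notMem hp, add_mul, one_mul]; omega
    · intro e he t
      rw [hag3 e (hS2 he) t, hag2 e he t]
    · intro i
      rw [hfr3, hfr2]
    · intro p' hp'
      rw [mem_insert] at hp'
      rcases hp' with rfl | hp'
      · exact ⟨Q, hQ, hQc, hcert3⟩
      · obtain ⟨Q', hQ', hQc', hcert'⟩ := hcert2 p' hp'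
        refine ⟨Q', hQ'.trans hS3, hQc', ?_⟩
        have hfrm : ∀ i, frm (c p' i) y3 = frm (c p' i) y2 := by
          intro i
          rw [hι p' (hsub (mem_insert_of_mem hp')) i]
          exact hfr3 _
        have hag : Agree Q' y2 y3 := fun e he t => hag3 e (hQ' he) t
        intro y4 hy4 hf4
        rw [hcert' y3 hag hfrm]
        exact hcert' y4 (fun e he t => (hy4 e he t).trans (hag e he t))
          (fun i => (hf4 i).trans (hfrm i))

/-- if the line `j` is possible then one of its premises is possible -/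
lemma poss_step (h4 : S_Closure) (hm : 2 ≤ m) {C0 W : ℕ} (h3 : HomP m q B C0) {Vt : Type}
    {st : Vt → Finset E} {Cn : Vt → (E → ZMod q) → Prop}
    {H : Finset E → (E → ZMod q) → Prop} (hG : IsGame W st Cn H) {K G D W0 a : ℕ}
    (c : Fin K → Fin G → E × Fin B → ZMod m) (f : Fin K → (E × Fin B → Bool) → Bool)
    (hf : ∀ j, QW (c j) D (f j)) (j : Fin K) (P : Finset (Fin K)) (hPa : P.card ≤ a)
    (hsound : ∀ x, (∀ p ∈ P, f p x = true) → f j x = true)
    (hp : Poss q W0 (C0 * (G + 1)) H (c j) (f j))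
    (hW0 : D + C0 * (G + 1) * (G * m) ≤ W0)
    (hW : W0 + (a * D + C0 * ((a + 1) * G + 1)) * ((a + 1) * G * m) + a * D ≤ W) :
    ∃ p ∈ P, Poss q W0 (C0 * (G + 1)) H (c p) (f p) := by
  classical
  obtain ⟨S, y, hcl, hc, hH, hcert, hfj⟩ := hp
  let I : Type := {p // p ∈ insert j P} × Fin G
  let l : I → E × Fin B → ZMod m := fun i => c i.1.1 i.2
  have hcardI : Fintype.card I ≤ (a + 1) * G := by
    have h1 : Fintype.card I = (insert j P).card * G := by
      rw [Fintype.card_prod, Fintype.card_coe, Fintype.card_fin]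
    rw [h1]
    exact Nat.mul_le_mul_right _ ((card_insert_le _ _).trans (by omega))
  set R := a * D + C0 * ((a + 1) * G + 1) with hR
  obtain ⟨S1, hS1, hcl1, hc1, _⟩ := h4 m B hm E I l R S
  have hc1' : S1.card ≤ W0 + R * ((a + 1) * G * m) := by
    refine hc1.trans (add_le_add hc (Nat.mul_le_mul_left _ (Nat.mul_le_mul_right _ hcardI)))
  obtain ⟨z1, hz1, hHz1⟩ := ext hG S (bsum q y) hH S1 (by
    rw [union_eq_right.2 hS1]; omega)
  rw [union_eq_right.2 hS1] at hHz1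
  obtain ⟨y1, hy1, hb1, hf1⟩ := h3 E (Fin G) (c j) S (by rw [Fintype.card_fin]; exact hcl) y z1 hz1
  have hfj1 : f j y1 = false := (hcert y1 hy1 hf1).trans hfj
  have hH1 : H S1 (bsum q y1) := hG.2.1 _ _ _ (fun e _ => (hb1 e).symm) hHz1
  let ι : Fin K → Fin G → I := fun p i =>
    if h : p ∈ insert j P then (⟨p, h⟩, i) else (⟨j, mem_insert_self _ _⟩, i)
  have hι : ∀ p ∈ insert j P, ∀ i, c p i = l (ι p i) := by
    intro p hp i
    simp only [ι, l, dif_pos hp]
  have hPD : P.card * D ≤ a * D := Nat.mul_le_mul_right _ hPa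
  have hCI : C0 * (Fintype.card I + 1) ≤ C0 * ((a + 1) * G + 1) :=
    Nat.mul_le_mul_left _ (by omega)
  obtain ⟨S2, y2, hS2, hc2, hag2, hfr2, hH2, hcert2⟩ := walks h3 hG l c f hf R S1 y1 hcl1 hH1
    (insert j P) ι hι P (subset_insert _ _) (by omega) (by omega)
  have hfj2 : f j y2 = false := by
    rw [hcert y2 ?_ ?_, hfj]
    · intro e he t
      rw [hag2 e (hS1 he) t, hy1 e he t]
    · intro i
      rw [hι j (mem_insert_self _ _) i, hfr2, ← hι j (mem_insert_self _ _) i, hf1]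
  obtain ⟨p, hpP, hfp⟩ : ∃ p ∈ P, f p y2 = false := by
    by_contra hcon
    push Not at hcon
    have := hsound y2 (fun p hp => by
      have := hcon p hp
      simpa using this)
    rw [hfj2] at this
    exact absurd this (by decide)
  obtain ⟨Q, hQ, hQc, hcertp⟩ := hcert2 p hpP
  refine ⟨p, hpP, poss_of h4 hm hG (c p) (f p) (closed_sub (ι p)
    (hι p (mem_insert_of_mem hpP)) (closed_grow hcl1 hS2 hc2 (r := C0 * (G + 1)) ?_)) hQ hQc hH2
    hcertp hfp hW0⟩
  have h6 : C0 * (G + 1) ≤ C0 * ((a + 1) * G + 1) := by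
    refine Nat.mul_le_mul_left _ ?_
    nlinarith [Nat.zero_le (a * G)]
  omega


theorem proof_M6c (h3 : S_Hom) (h4 : S_Closure) : S_MainW := by
  intro m q B hm hq hmq hB
  obtain ⟨C0, h3'⟩ := h3 m q B hm hq hmq hB
  have h3'' : HomP m q B C0 := h3'
  refine ⟨10 * (C0 + 1) * (m + 1), ?_⟩
  intro E Vt _ _ W st Cn H hG hst a G D K hW c f hf hsound
  -- sizes
  set X := (a + 1) ^ 2 * (G + 1) ^ 2 * (D + 1) with hX
  have hX1 : 1 ≤ X := Nat.one_le_iff_ne_zero.2 (by positivity)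
  have ea : 1 ≤ (a + 1) ^ 2 := Nat.one_le_iff_ne_zero.2 (by positivity)
  have eG : 1 ≤ (G + 1) ^ 2 := Nat.one_le_iff_ne_zero.2 (by positivity)
  have eaG : 1 ≤ (a + 1) ^ 2 * (G + 1) ^ 2 := Nat.one_le_iff_ne_zero.2 (by positivity)
  have hDX : D + 1 ≤ X := by
    calc D + 1 = 1 * (D + 1) := (one_mul _).symm
      _ ≤ X := Nat.mul_le_mul_right _ eaG
  have hAG : (a + 1) ^ 2 * (G + 1) ^ 2 ≤ X := Nat.le_mul_of_pos_right _ (Nat.succ_pos _)
  have hGG : (G + 1) * G ≤ X := by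
    have h1 : (G + 1) * G ≤ (G + 1) ^ 2 := by nlinarith
    have h2 : (G + 1) ^ 2 ≤ (a + 1) ^ 2 * (G + 1) ^ 2 := Nat.le_mul_of_pos_left _ (by positivity)
    omega
  have e1 : C0 * (G + 1) * (G * m) ≤ C0 * m * X := by
    calc C0 * (G + 1) * (G * m) = C0 * m * ((G + 1) * G) := by ring
      _ ≤ C0 * m * X := Nat.mul_le_mul_left _ hGG
  have e2 : D * (G * m) ≤ m * X := by
    have h1 : D * G ≤ X := by
      have h2 : G ≤ (a + 1) ^ 2 * (G + 1) ^ 2 := by
        have h3 : G ≤ (G + 1) ^ 2 := by nlinarith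
        exact h3.trans (Nat.le_mul_of_pos_left _ (by positivity))
      calc D * G = G * D := mul_comm _ _
        _ ≤ ((a + 1) ^ 2 * (G + 1) ^ 2) * (D + 1) := Nat.mul_le_mul h2 (Nat.le_succ _)
    calc D * (G * m) = m * (D * G) := by ring
      _ ≤ m * X := Nat.mul_le_mul_left _ h1
  have e3 : a * D ≤ X := by
    have h2 : a ≤ (a + 1) ^ 2 * (G + 1) ^ 2 := by
      have h3 : a ≤ (a + 1) ^ 2 := by nlinarith
      exact h3.trans (Nat.le_mul_of_pos_right _ (by positivity))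
    exact Nat.mul_le_mul h2 (Nat.le_succ _)
  have e4 : a * D * ((a + 1) * G * m) ≤ m * X := by
    have h1 : a * (a + 1) * G ≤ (a + 1) ^ 2 * (G + 1) ^ 2 := by
      refine Nat.mul_le_mul (by nlinarith) (by nlinarith)
    calc a * D * ((a + 1) * G * m) = m * ((a * (a + 1) * G) * D) := by ring
      _ ≤ m * X := Nat.mul_le_mul_left _ (Nat.mul_le_mul h1 (Nat.le_succ _))
  have e5 : C0 * ((a + 1) * G + 1) * ((a + 1) * G * m) ≤ C0 * m * X := by
    have h1 : ((a + 1) * G + 1) * ((a + 1) * G) ≤ (a + 1) ^ 2 * (G + 1) ^ 2 := by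
      have h2 : (a + 1) * G + 1 ≤ (a + 1) * (G + 1) := by nlinarith
      have h3 : (a + 1) * G ≤ (a + 1) * (G + 1) := by nlinarith
      calc ((a + 1) * G + 1) * ((a + 1) * G) ≤ ((a + 1) * (G + 1)) * ((a + 1) * (G + 1)) :=
            Nat.mul_le_mul h2 h3
        _ = (a + 1) ^ 2 * (G + 1) ^ 2 := by ring
    calc C0 * ((a + 1) * G + 1) * ((a + 1) * G * m)
        = C0 * m * (((a + 1) * G + 1) * ((a + 1) * G)) := by ring
      _ ≤ C0 * m * X := Nat.mul_le_mul_left _ (h1.trans hAG)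
  have hWX : 10 * (C0 * m * X) + 10 * (C0 * X) + 10 * (m * X) + 10 * X ≤ W := by
    calc 10 * (C0 * m * X) + 10 * (C0 * X) + 10 * (m * X) + 10 * X
        = 10 * (C0 + 1) * (m + 1) * X := by ring
      _ ≤ W := hW
  set W0 := D + C0 * (G + 1) * (G * m) with hW0
  have f1 : (C0 * (G + 1) + D) * (G * m) + D ≤ W := by
    rw [add_mul]; omega
  have f2 : W0 + (a * D + C0 * ((a + 1) * G + 1)) * ((a + 1) * G * m) + a * D ≤ W := by
    rw [add_mul]; omega
  have f3 : W0 + 4 ≤ W := by omega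
  -- no line is possible
  have key : ∀ n : ℕ, ∀ j : Fin K, j.1 = n → ¬ Poss q W0 (C0 * (G + 1)) H (c j) (f j) := by
    intro n
    induction n using Nat.strong_induction_on with
    | _ n ih =>
      intro j hj hp
      rcases hsound j with ⟨v, hv⟩ | ⟨P, hPa, hPj, hP⟩
      · exact poss_axiom h3'' hG hst (c j) (f j) hp f3 v hv
      · obtain ⟨p, hpP, hpp⟩ := poss_step h4 hm h3'' hG c f hf j P hPa hP hp le_rfl f2
        exact ih p.1 (by have := hPj p hpP; rw [← hj]; exact this) p rfl hpp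
  intro j
  by_contra hcon
  push Not at hcon
  refine key j.1 j rfl (poss_init h4 hm h3'' hG (c j) (f j) (hf j) ?_ le_rfl f1)
  intro y
  have := hcon y
  simpa using this

end Pool.Agent.Helper600R2.CM.M6c
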