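import Mathlib

/-!
Decision trees.
-/

namespace Pool.Agent.Helper600R2.CM.DTr

/-- The Boolean functions computed by decision trees of depth at most `d` which query only
variables in `A`. -/
inductive DT {V : Type} (A : Finset V) : ℕ → ((V → Bool) → Bool) → Prop
  | const (d : ℕ) (b : Bool) : DT A d (fun _ => b)
  | query (d : ℕ) (v : V) (f g : (V → Bool) → Bool) : v ∈ A → DT A d f → DT A d g →
      DT A (d + 1) (fun z => if z v = true then f z else g z)

theorem seq {V : Type} {A : Finset V} {d : ℕ} (vs : List V) (hvs : ∀ v ∈ vs, v ∈ A) :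
    ∀ F : List Bool → (V → Bool) → Bool, (∀ l, DT A d (F l)) →
      DT A (d + vs.length) (fun z => F (vs.map z) z) := by
  induction vs with
  | nil => intro F hF; exact hF []
  | cons v vs ih =>
    intro F hF
    have h1 := ih (fun w hw => hvs w (List.mem_cons_of_mem _ hw)) (fun l => F (true :: l))
      (fun l => hF _)
    have h0 := ih (fun w hw => hvs w (List.mem_cons_of_mem _ hw)) (fun l => F (false :: l))
      (fun l => hF _)
    have h2 := DT.query (d + vs.length) v _ _ (hvs v List.mem_cons_self) h1 h0
    have h3 : (fun z : V → Bool => F ((v :: vs).map z) z) = (fun z => if z v = true then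
        F (true :: vs.map z) z else F (false :: vs.map z) z) := by
      funext z
      rw [List.map_cons]
      cases z v <;> rfl
    rw [h3, List.length_cons, ← add_assoc]
    exact h2

theorem cell {V : Type} {A : Finset V} {d κ : ℕ} (sel : (Fin κ → Bool) → V) (ptr : Fin κ → V)
    (hsel : ∀ p, sel p ∈ A) (hptr : ∀ c, ptr c ∈ A) (f g : (V → Bool) → Bool) (hf : DT A d f)
    (hg : DT A d g) :
    DT A (d + (κ + 1)) (fun z => if z (sel (fun c => z (ptr c))) = true then f z else g z) := by
  have h1 := seq (A := A) (d := d + 1) (List.ofFn ptr) (by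
      intro v hv
      rw [List.mem_ofFn] at hv
      obtain ⟨c, rfl⟩ := hv
      exact hptr c)
    (fun l z => if z (sel (fun c => l.getD c false)) = true then f z else g z)
    (fun l => DT.query d _ f g (hsel _) hf hg)
  rw [List.length_ofFn] at h1
  have h2 : (fun z : V → Bool => if z (sel (fun c : Fin κ => ((List.ofFn ptr).map z).getD c false))
      = true then f z else g z) =
      (fun z => if z (sel (fun c => z (ptr c))) = true then f z else g z) := by
    funext z
    have h3 : (fun c : Fin κ => ((List.ofFn ptr).map z).getD c false) =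
        (fun c => z (ptr c)) := by
      funext c
      rw [List.getD_eq_getElem _ _ (by rw [List.length_map, List.length_ofFn]; exact c.2),
        List.getElem_map, List.getElem_ofFn]
    rw [h3]
  rw [h2] at h1
  have h4 : d + 1 + κ = d + (κ + 1) := by ring
  rw [h4] at h1
  exact h1

theorem sum {V : Type} {A : Finset V} {κ q : ℕ} {I : Type} [DecidableEq I] (s : Finset I)
    (sel : I → (Fin κ → Bool) → V) (ptr : I → Fin κ → V) (hsel : ∀ i p, sel i p ∈ A)
    (hptr : ∀ i c, ptr i c ∈ A) : ∀ acc : ZMod q,
    DT A (s.card * (κ + 1)) (fun z => decide (acc + ∑ i ∈ s,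
      (if z (sel i (fun c => z (ptr i c))) = true then (1 : ZMod q) else 0) ≠ 0)) := by
  classical
  induction s using Finset.induction_on with
  | empty =>
    intro acc
    simpa using DT.const (A := A) (0 * (κ + 1)) (decide (acc ≠ 0))
  | insert i s hi ih =>
    intro acc
    have h1 := cell (sel i) (ptr i) (hsel i) (hptr i) _ _ (ih (acc + 1)) (ih (acc + 0))
    rw [Finset.card_insert_of_notMem hi, add_mul, one_mul]
    have h2 : (fun z : V → Bool => decide (acc + ∑ i ∈ insert i s,
        (if z (sel i (fun c => z (ptr i c))) = true then (1 : ZMod q) else 0) ≠ 0)) =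
        (fun z => if z (sel i (fun c => z (ptr i c))) = true then
          decide (acc + 1 + ∑ i ∈ s,
            (if z (sel i (fun c => z (ptr i c))) = true then (1 : ZMod q) else 0) ≠ 0)
          else decide (acc + 0 + ∑ i ∈ s,
            (if z (sel i (fun c => z (ptr i c))) = true then (1 : ZMod q) else 0) ≠ 0)) := by
      funext z
      rw [Finset.sum_insert hi, ← add_assoc]
      by_cases h : z (sel i (fun c => z (ptr i c))) = true
      · simp only [h, if_true]
      · simp only [if_neg h]
    rw [h2]
    exact h1

end Pool.Agent.Helper600R2.CM.DTr
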