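import Pool.Agent.Helper600R2.CM.Stm

/-! Statements for prime moduli. -/

namespace Pool.Agent.Helper600R2.CM

open Finset Pool.Agent.Helper600R2 Pool.Agent.H564R2.QF

/-- P1: the real degree of a Boolean function bounds its degree over every field -/
def S_Int : Prop := ∀ (V : Type) [Fintype V] [DecidableEq V] (K : Type) [Field K] (d : ℕ)
  (f : (V → Bool) → Bool), CM.tr f ∈ LowDeg V d → toK K f ∈ J (ι := V) (α := Bool) K d

/-- P2: Boolean functions of Boolean functions and of functions with values in `ZMod p` of small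
degree over an extension field -/
def S_CombP : Prop := ∀ (V : Type) [Fintype V] [DecidableEq V] (p : ℕ) [Fact p.Prime] (K : Type)
  [Field K] [Algebra (ZMod p) K] (r g d : ℕ) (f : Fin r → (V → Bool) → Bool)
  (s : Fin g → (V → Bool) → ZMod p), (∀ l, toK K (f l) ∈ J (ι := V) (α := Bool) K d) →
  (∀ l, (fun y => algebraMap (ZMod p) K (s l y)) ∈ J (ι := V) (α := Bool) K d) →
  ∀ G : (Fin r → Bool) → (Fin g → ZMod p) → Bool,
    toK K (fun y => G (fun l => f l y) (fun l => s l y)) ∈
      J (ι := V) (α := Bool) K (r * d + g * ((p - 1) * d))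

end Pool.Agent.Helper600R2.CM
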