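import Pool.Agent.Helper600R2.CM.CoreX
import Pool.Agent.Helper600R2.CM.StmP

/-!
Prime moduli: the degree lower bound for the CNF of `CoreX`.
-/

namespace Pool.Agent.Helper600R2.CM

open Finset Pool.Agent.Helper600R2 Pool.Agent.H564R2.QF
open Pool.Agent.Helper600R2.Quad (HoldsA hclause holds_hclause fullv exists_hash2 Apx)
open Pool.Agent.Helper600R2.Sharp (rs)

lemma thermoB {q B : ℕ} [NeZero q] (hB : q ≤ B + 1) (z : ZMod q) :
    (∑ t : Fin B, if t.val < z.val then (1 : ZMod q) else 0) = z := by
  have h1 : (∑ t : Fin B, if t.val < z.val then (1 : ZMod q) else 0) =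
      ((univ.filter (fun t : Fin B => t.val < z.val)).card : ZMod q) := by
    rw [Finset.sum_boole]
  rw [h1]
  have hz : z.val < q := ZMod.val_lt z
  have h2 : (univ.filter (fun t : Fin B => t.val < z.val)).card = z.val := by
    have h3 : (univ.filter (fun t : Fin B => t.val < z.val)).card =
        ((univ.filter (fun t : Fin B => t.val < z.val)).map Fin.valEmbedding).card := by
      rw [card_map]
    rw [h3]
    have h4 : (univ.filter (fun t : Fin B => t.val < z.val)).map Fin.valEmbedding =
        range z.val := by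
      ext k
      simp only [mem_map, mem_filter, mem_univ, true_and, mem_range, Fin.valEmbedding_apply]
      constructor
      · rintro ⟨a, ha, rfl⟩; exact ha
      · intro hk; exact ⟨⟨k, by omega⟩, hk, rfl⟩
    rw [h4, card_range]
  rw [h2, ZMod.natCast_val, ZMod.cast_id]

/-- no refutation of the block system consists of functions of low degree -/
theorem noLow {n : ℕ} (π : Equiv.Perm (Fin n)) {q : ℕ} [NeZero q] {B : ℕ} {K : Type} [Field K]
    (ψ : AddChar (ZMod q) K) (hψ : ψ.IsPrimitive) (hq : (q : K) ≠ 0) (hB : q ≤ B + 1)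
    (hn : 4 ≤ n)
    (hπ : ∀ U : Finset (Fin n), n ≤ 3 * U.card → 3 * U.card ≤ 2 * n →
      n / 60 < (bd (finRotate n) U).card ∨ n / 60 < (bd π U).card)
    (b : Fin n → ZMod q) (w k : ℕ) (hw : 2 * ((k + 1) * w + 4) ≤ n / 60)
    {L : ℕ} (f : Fin L → (Ix n B → Bool) → Bool)
    (hf : Sound (fun v y => flow (ghd π) gtl v (bsum q y) = b v) k f)
    (hdeg : ∀ i, toK K (f i) ∈ J (ι := Ix n B) (α := Bool) K w) (i : Fin L) :
    ∃ x, f i x = true := by
  classical
  let y : (Fin n × Bool → ZMod q) → (Ix n B → Bool) := fun z p => decide (p.2.val < (z p.1).val)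
  have hzs : ∀ z, bsum q (y z) = z := by
    intro z
    funext e
    simp only [bsum, y, decide_eq_true_eq]
    exact thermoB hB (z e)
  let g : Fin L → (Fin n × Bool → ZMod q) → Bool := fun i z => f i (y z)
  have hg : Sound (fun v z => flow (ghd π) gtl v z = b v) k g := by
    intro i
    rcases hf i with ⟨v, hv⟩ | ⟨P, hPk, hPlt, hP⟩
    · left
      refine ⟨v, fun z hz => hv _ ?_⟩
      show flow (ghd π) gtl v (bsum q (y z)) = b v
      rw [hzs]
      exact hz
    · right
      exact ⟨P, hPk, hPlt, fun z hz => hP _ hz⟩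
  have hgdeg : ∀ i, toK K (g i) ∈ DC ψ w := by
    intro i
    apply J_le_DC ψ hψ hq w
    refine J_comp (hdeg i) y (fun p => p.1) ?_
    intro p z z' hzz
    simp only [y, hzz]
  obtain ⟨z, hz⟩ := no_low_degree (ghd π) gtl ψ hψ hq b (by rw [Fintype.card_fin]; omega) 4 w k
    (graph_deg π) (graph_conn π) (graph_exp π hπ hw) g hg hgdeg i
  exact ⟨_, hz⟩

open Classical in
/-- the CNF and the lower bound for lines which are functions of functions of small approximate
degree and of sums modulo `p` of such functions -/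
theorem coreP (hI : S_Int) (hCm : S_CombP) (p q B : ℕ) [Fact p.Prime] [Fact q.Prime]
    (hpq : p ≠ q) (hB : q ≤ B + 1) {n k κ : ℕ} (hn : 25 ≤ n) (hk : 1 ≤ k) {Cd : Type} [Fintype Cd]
    (F : Cd → (Vr n B k κ → Bool) → Bool) (d : ℕ)
    (hF : ∀ c (w : Ix n B × Fin κ → Bool),
      Apx (Ix n B × Fin k) k d (fun z => F c (Sum.elim z w)))
    (mm : ℕ) (τ : ℝ) (hτ : 0 < τ)
    (hlt : (Fintype.card Cd : ℝ) * ((1 / 4) ^ d * Real.exp ((Fintype.card (Ix n B) : ℝ) *
      ((192 - 1) * mm / Fintype.card (Fin κ → Bool)))) ^ mm < τ ^ mm) :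
    ∃ (π : Equiv.Perm (Fin n)) (h : Ix n B → (Fin κ → Bool) → Fin k),
      (CNF q B π chg h).card ≤ n * (2 ^ κ * 2) ^ (4 * B) ∧
      (∀ c ∈ CNF q B π chg h, c.card ≤ 4 * B * (κ + 1)) ∧
      (∀ z, ∃ c ∈ CNF q B π chg h, ¬ HoldsA z c) ∧
      ∀ (a r g S M : ℕ) (part : Fin S → Fin r → Cd) (sm : Fin M → Cd)
        (cf : Fin S → Fin g → Fin M → ZMod p)
        (G : Fin S → (Fin r → Bool) → (Fin g → ZMod p) → Bool),
        2 * ((a + 1) * (r * d + g * ((p - 1) * d)) + 4) ≤ n / 60 →
        ((S : ℝ) * r + M) * τ ≤ 1 →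
        (∀ j, (∃ c ∈ CNF q B π chg h, ∀ z, HoldsA z c →
            G j (fun l => F (part j l) z)
              (fun l => ∑ i, if F (sm i) z = true then cf j l i else 0) = true) ∨
          ∃ P : Finset (Fin S), P.card ≤ a ∧ (∀ p ∈ P, p < j) ∧
            ∀ z, (∀ p ∈ P, G p (fun l => F (part p l) z)
                (fun l => ∑ i, if F (sm i) z = true then cf p l i else 0) = true) →
              G j (fun l => F (part j l) z)
                (fun l => ∑ i, if F (sm i) z = true then cf j l i else 0) = true) →
        ∀ j, ∃ z, G j (fun l => F (part j l) z)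
          (fun l => ∑ i, if F (sm i) z = true then cf j l i else 0) = true := by
  have hp : p.Prime := Fact.out
  have hq : q.Prime := Fact.out
  obtain ⟨π, hπ⟩ := exists_expander hn
  obtain ⟨h, hh⟩ := exists_hash2 (ι := Ix n B) (κt := Fin κ) hk F d hF mm τ hτ hlt
  refine ⟨π, h, ?_, ?_, ?_, ?_⟩
  · refine card_biUnion_le.trans ?_
    calc ∑ v : Fin n, ((idx q B π chg v).image (hclause h (cells q B π v))).card
        ≤ ∑ v : Fin n, (2 ^ κ * 2) ^ (4 * B) := sum_le_sum fun v _ => by
          refine card_image_le.trans ((card_filter_le _ _).trans ?_)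
          rw [card_univ, Fintype.card_prod, Fintype.card_fun, Fintype.card_fun, Fintype.card_fun,
            Fintype.card_bool, Fintype.card_coe, Fintype.card_fin, ← mul_pow]
          exact Nat.pow_le_pow_right (by positivity) (cells_card π v)
      _ = n * (2 ^ κ * 2) ^ (4 * B) := by simp
  · intro c hc
    rw [CNF, mem_biUnion] at hc
    obtain ⟨v, _, hv⟩ := hc
    rw [mem_image] at hv
    obtain ⟨Pw, _, rfl⟩ := hv
    exact (hclause_card _ _ _).trans (Nat.mul_le_mul_right _ (cells_card π v))
  · intro z
    let P : Ix n B → Fin κ → Bool := fun i c => z (.inr (i, c))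
    let y : Ix n B → Bool := fun i => z (.inl (i, h i (P i)))
    obtain ⟨v, hv⟩ : ∃ v, flow (ghd π) gtl v (bsum q y) ≠ chg v := by
      by_contra hcon
      push Not at hcon
      have h2 := flow_sum' π (bsum q y)
      simp only [hcon, chg] at h2
      have h3 : ∑ v : Fin n, (if v.val = 0 then (1 : ZMod q) else 0) = 1 := by
        rw [Finset.sum_eq_single (⟨0, by omega⟩ : Fin n)]
        · simp
        · intro v _ hv
          rw [if_neg]
          intro h
          exact hv (Fin.ext h)
        · intro h; exact absurd (mem_univ _) h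
      rw [h3] at h2
      exact one_ne_zero h2
    refine ⟨hclause h (cells q B π v) (fun i => P i.1, fun i => y i.1), ?_, ?_⟩
    · rw [CNF, mem_biUnion]
      refine ⟨v, mem_univ v, mem_image_of_mem _ ?_⟩
      simp only [idx, mem_filter, mem_univ, true_and]
      rw [flow_congr q π v (ext fun i : cells q B π v => y i.1) y (fun i hi => by
        simp only [ext, dif_pos hi])]
      exact hv
    · rw [holds_hclause]
      rintro ⟨i, ⟨c, hc⟩ | hi⟩
      · exact hc rfl
      · exact hi rfl
  · intro a r g S M part sm cf G hah hSr hsound j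
    obtain ⟨p', x, hpx⟩ := hh ((Fin S × Fin r) ⊕ Fin M) (Sum.elim (fun l => part l.1 l.2) sm)
      (by
        rw [Fintype.card_sum, Fintype.card_prod, Fintype.card_fin, Fintype.card_fin,
          Fintype.card_fin]
        push_cast; exact hSr)
    let Z : (Ix n B → Bool) → (Vr n B k κ → Bool) := fun y => fullv p' (fun i => h i (p' i)) x y
    let K := AlgebraicClosure (ZMod p)
    -- the field
    have hqK : (q : K) ≠ 0 := by
      intro h
      rw [CharP.cast_eq_zero_iff K p q] at h
      rw [Nat.prime_dvd_prime_iff_eq hp hq] at h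
      exact hpq h
    have : NeZero (q : ZMod p) := ⟨by
      intro h
      rw [CharP.cast_eq_zero_iff (ZMod p) p q] at h
      rw [Nat.prime_dvd_prime_iff_eq hp hq] at h
      exact hpq h⟩
    obtain ⟨ζ, hζ⟩ := HasEnoughRootsOfUnity.exists_primitiveRoot (AlgebraicClosure (ZMod p)) q
    have hprim := AddChar.zmodChar_primitive_of_primitive_root q hζ
    have hJ : ∀ l : (Fin S × Fin r) ⊕ Fin M,
        toK K (fun y => F (Sum.elim (fun l => part l.1 l.2) sm l) (Z y)) ∈
          J (ι := Ix n B) (α := Bool) K d := fun l => hI (Ix n B) K d _ (hpx l)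
    obtain ⟨y, hy⟩ := noLow π _ hprim hqK hB (by omega) hπ chg (r * d + g * ((p - 1) * d)) a hah
      (fun j y => G j (fun l => F (part j l) (Z y))
        (fun l => ∑ i, if F (sm i) (Z y) = true then cf j l i else 0)) (by
        intro j
        rcases hsound j with ⟨c, hc, hcj⟩ | ⟨P, hP1, hP2, hP3⟩
        · left
          rw [CNF, mem_biUnion] at hc
          obtain ⟨v, _, hv⟩ := hc
          rw [mem_image] at hv
          obtain ⟨Pw, hPw, rfl⟩ := hv
          refine ⟨v, fun y hy => hcj _ ?_⟩
          rw [holds_hclause]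
          by_contra hcon
          push Not at hcon
          simp only [idx, mem_filter, mem_univ, true_and] at hPw
          apply hPw
          have h1 : ∀ i : cells q B π v, Pw.1 i = p' i.1 := by
            intro i
            funext c
            exact ((hcon i).1 c).symm
          have h2 : ∀ i : cells q B π v, Pw.2 i = y i.1 := by
            intro i
            rw [← (hcon i).2, h1 i]
            simp [Z, fullv, rs]
          rw [flow_congr q π v (ext Pw.2) y (fun i hi => by
            simp only [ext, dif_pos hi]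
            exact h2 ⟨i, hi⟩)]
          exact hy
        · right
          exact ⟨P, hP1, hP2, fun y hy => hP3 _ hy⟩)
      (by
        intro j
        refine hCm (Ix n B) p K r g d (fun l y => F (part j l) (Z y))
          (fun l y => ∑ i, if F (sm i) (Z y) = true then cf j l i else 0)
          (fun l => hJ (.inl (j, l))) (fun l => ?_) (G j)
        have h3 : (fun y => algebraMap (ZMod p) K
            (∑ i, if F (sm i) (Z y) = true then cf j l i else 0)) =
            ∑ i : Fin M, algebraMap (ZMod p) K (cf j l i) • toK K (fun y => F (sm i) (Z y)) := by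
          funext y
          rw [map_sum, Finset.sum_apply]
          refine Finset.sum_congr rfl (fun i _ => ?_)
          by_cases hi : F (sm i) (Z y) = true
          · simp [toK, hi]
          · simp [toK, hi]
        rw [h3]
        exact Submodule.sum_mem _ (fun i _ => Submodule.smul_mem _ _ (hJ (.inr i)))) j
    exact ⟨_, hy⟩

end Pool.Agent.Helper600R2.CM
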