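import Pool.Agent.Helper600R2.CM.Stm

set_option autoImplicit false

namespace Pool.Agent.Helper600R2.CM.M1

open Finset Pool.Agent.Helper600R2 Pool.Agent.Helper600R2.CM

theorem frm_ind {m B : ℕ} (c : Fin B → ZMod m) (U : Finset (Fin B)) :
    frm c (fun i => decide (i ∈ U)) = ∑ i ∈ U, c i := by
  unfold frm
  simp only [decide_eq_true_eq]
  rw [Finset.sum_ite_mem, Finset.univ_inter]

theorem sum_ind {q B : ℕ} (U : Finset (Fin B)) :
    (∑ t, (if (fun i => decide (i ∈ U)) t = true then (1 : ZMod q) else 0)) = (U.card : ZMod q) := by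
  simp only [decide_eq_true_eq]
  rw [Finset.sum_ite_mem, Finset.univ_inter]
  simp

theorem proof_M1 : S_NC := by
  intro m q B hm hq hco hB c hc z
  by_contra hcon
  push Not at hcon
  haveI : NeZero q := ⟨by omega⟩
  -- w
  obtain ⟨w, hw1, hwq, hwz⟩ : ∃ w : ℕ, 1 ≤ w ∧ w ≤ q ∧ (w : ZMod q) = z := by
    by_cases hz : z = 0
    · exact ⟨q, by omega, le_refl _, by simp [hz]⟩
    · refine ⟨z.val, ?_, (ZMod.val_lt z).le, ZMod.natCast_zmod_val z⟩
      rcases Nat.eq_zero_or_pos z.val with h | h
      · exact absurd ((ZMod.val_eq_zero z).1 h) hz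
      · exact h
  have key : ∀ U U' : Finset (Fin B), (U.card : ZMod q) = z → (U'.card : ZMod q) = z →
      ∑ i ∈ U, c i = ∑ i ∈ U', c i := by
    intro U U' hU hU'
    have h := hcon (fun i => decide (i ∈ U)) (fun i => decide (i ∈ U'))
      (by rw [← hU]; exact sum_ind U) (by rw [← hU']; exact sum_ind U')
    rwa [frm_ind, frm_ind] at h
  have hconst : ∀ i j : Fin B, c i = c j := by
    intro i j
    by_cases hij : i = j
    · rw [hij]
    have hcard : w - 1 ≤ ((univ : Finset (Fin B)) \ {i, j}).card := by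
      rw [Finset.card_sdiff_of_subset (Finset.subset_univ _), Finset.card_pair hij]
      simp
      omega
    obtain ⟨T, hT, hTc⟩ := Finset.exists_subset_card_eq hcard
    have hiT : i ∉ T := fun h => by
      have := hT h
      simp at this
    have hjT : j ∉ T := fun h => by
      have := hT h
      simp at this
    have h1 : (insert i T).card = w := by rw [Finset.card_insert_of_notMem hiT, hTc]; omega
    have h2 : (insert j T).card = w := by rw [Finset.card_insert_of_notMem hjT, hTc]; omega
    have h3 := key (insert i T) (insert j T) (by rw [h1, hwz]) (by rw [h2, hwz])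
    rw [Finset.sum_insert hiT, Finset.sum_insert hjT] at h3
    exact add_right_cancel h3
  obtain ⟨t0, ht0⟩ := hc
  apply ht0
  have hA : w ≤ (univ : Finset (Fin B)).card := by simp; omega
  have hA' : w + q ≤ (univ : Finset (Fin B)).card := by simp; omega
  obtain ⟨A, -, hAc⟩ := Finset.exists_subset_card_eq hA
  obtain ⟨A', -, hAc'⟩ := Finset.exists_subset_card_eq hA'
  have h4 := key A A' (by rw [hAc, hwz]) (by rw [hAc']; push_cast; rw [hwz]; simp)
  have hs : ∀ U : Finset (Fin B), ∑ i ∈ U, c i = (U.card : ZMod m) * c t0 := by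
    intro U
    rw [Finset.sum_congr rfl (fun i _ => hconst i t0)]
    simp
  rw [hs, hs, hAc, hAc'] at h4
  push_cast at h4
  have h5 : (q : ZMod m) * c t0 = 0 := by
    have : (w : ZMod m) * c t0 + (q : ZMod m) * c t0 = (w : ZMod m) * c t0 + 0 := by
      rw [add_zero, ← add_mul]; exact h4.symm
    exact add_left_cancel this
  have hu : IsUnit (q : ZMod m) := (ZMod.isUnit_iff_coprime q m).2 hco.symm
  exact (hu.mul_right_eq_zero).1 h5

end Pool.Agent.Helper600R2.CM.M1
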