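import Pool.Agent.Helper600R2.CM.Stm2

/-! M6a: the walk through one decision tree (helper724). -/

namespace Pool.Agent.Helper600R2.CM.M6a

open Finset Pool.Agent.Helper600R2 Pool.Agent.H564R2.QF Pool.Agent.Helper600R2.CM

theorem closed_mono {E I : Type} [Fintype E] [DecidableEq E] [Fintype I] {m B : ℕ} {r r' : ℕ}
    {c : I → E × Fin B → ZMod m} {S : Finset E} (h : Closed r c S) (hr : r' ≤ r) :
    Closed r' c S := by
  intro a
  rcases h a with h | h
  · exact Or.inl h
  · exact Or.inr (hr.trans h)

theorem closed_insert {E I : Type} [Fintype E] [DecidableEq E] [Fintype I] {m B : ℕ} {r : ℕ}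
    {c : I → E × Fin B → ZMod m} {S : Finset E} (e : E) (h : Closed (r + 1) c S) :
    Closed r c (insert e S) := by
  intro a
  rcases h a with h | h
  · exact Or.inl (h.trans (subset_insert _ _))
  · refine Or.inr ?_
    have h1 : live c a \ S ⊆ insert e (live c a \ insert e S) := by
      intro x hx
      simp only [mem_insert, mem_sdiff] at hx ⊢
      tauto
    have h2 := card_le_card h1
    have h3 := card_insert_le e (live c a \ insert e S)
    omega

theorem proof_M6a : S_Walk := by
  intro m q B C0 hHom E Vt I _ _ _ W st Cn H hG l G c hc D g hg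
  obtain ⟨-, hG2, hG3, hG4, -⟩ := hG
  induction hg with
  | leaf hf =>
    intro Sc yc hcl hW hH
    refine ⟨Sc, ∅, yc, Subset.refl _, by simp, by simp, by simp, fun _ _ _ => rfl,
      fun _ => rfl, hH, ?_⟩
    intro y'' _ hy
    exact hf y'' yc hy
  | @node D f v g' hg' hf ih =>
    intro Sc yc hcl hW hH
    obtain ⟨e, t⟩ := v
    by_cases he : e ∈ Sc
    · obtain ⟨S', Q, y', h1, h2, h3, h4, h5, h6, h7, h8⟩ :=
        ih (yc (e, t)) Sc yc (closed_mono hcl (by omega)) (by omega) hH
      refine ⟨S', insert e Q, y', h1, by omega, ?_, ?_, h5, h6, h7, ?_⟩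
      · exact insert_subset (h1 he) h3
      · exact (card_insert_le _ _).trans (by omega)
      · intro y'' hQ hcv
        rw [hf y'', hf y', hQ e (mem_insert_self _ _) t, h5 e he t]
        exact h8 y'' (fun e' he' => hQ e' (mem_insert_of_mem he')) hcv
    · obtain ⟨z', hz', hHz'⟩ := hG4 Sc (bsum q yc) e (by omega) hH
      obtain ⟨y1, hy1, hy1z, hy1l⟩ := hHom E I l Sc (closed_mono hcl (by omega)) yc z' hz'
      have hH1 : H (insert e Sc) (bsum q y1) := hG2 _ z' _ (fun e' _ => (hy1z e').symm) hHz'
      obtain ⟨S', Q, y', h1, h2, h3, h4, h5, h6, h7, h8⟩ :=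
        ih (y1 (e, t)) (insert e Sc) y1 (closed_insert e hcl)
          (by have := card_insert_le e Sc; omega) hH1
      refine ⟨S', insert e Q, y', (subset_insert _ _).trans h1, ?_, ?_, ?_, ?_, ?_, h7, ?_⟩
      · have h9 : S' \ Sc ⊆ insert e (S' \ insert e Sc) := by
          intro x hx
          simp only [mem_insert, mem_sdiff] at hx ⊢
          tauto
        exact (card_le_card h9).trans ((card_insert_le _ _).trans (by omega))
      · exact insert_subset (h1 (mem_insert_self _ _)) h3
      · exact (card_insert_le _ _).trans (by omega)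
      · intro e' he' t'
        rw [h5 e' (mem_insert_of_mem he') t', hy1 e' he' t']
      · intro i
        rw [h6 i, hy1l i]
      · intro y'' hQ hcv
        rw [hf y'', hf y', hQ e (mem_insert_self _ _) t, h5 e (mem_insert_self _ _) t]
        exact h8 y'' (fun e' he' => hQ e' (mem_insert_of_mem he')) hcv

end Pool.Agent.Helper600R2.CM.M6a
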