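import Pool.Agent.Helper600R2.CM.StmP

/-! Boolean functions of functions of low degree. -/

namespace Pool.Agent.Helper600R2.CM.P2

open Finset Pool.Agent.Helper600R2 Pool.Agent.H564R2.QF Pool.Agent.Helper600R2.CM

theorem proof_P2 : S_CombP := by
  classical
  intro V _ _ p _ K _ _ r g d f s hf hs G
  have h : toK K (fun y => G (fun l => f l y) (fun l => s l y)) =
      ∑ b : Fin r → Bool, ∑ u : Fin g → ZMod p, (if G b u = true then (1 : K) else 0) •
        ((∏ l, (if b l = true then toK K (f l) else 1 - toK K (f l))) *
          ∏ l, (1 - (fun y => algebraMap (ZMod p) K (s l y) -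
            algebraMap (ZMod p) K (u l)) ^ (p - 1))) := by
    funext y
    rw [Finset.sum_apply, Finset.sum_eq_single (fun l => f l y)]
    · rw [Finset.sum_apply, Finset.sum_eq_single (fun l => s l y)]
      · rw [Pi.smul_apply, Pi.mul_apply, Finset.prod_apply, Finset.prod_apply,
          Finset.prod_eq_one, Finset.prod_eq_one]
        · simp only [smul_eq_mul, mul_one, toK]
        · intro l _
          have hp1 : p - 1 ≠ 0 := by
            have := (Fact.out : p.Prime).two_le
            omega
          simp [hp1]
        · intro l _
          by_cases h : f l y = true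
          · simp [h, toK]
          · simp [h, toK]
      · intro u _ hu
        rw [Pi.smul_apply, Pi.mul_apply, Finset.prod_apply, Finset.prod_apply]
        have : ∃ l, s l y ≠ u l := by
          by_contra hcon
          push Not at hcon
          exact hu (funext fun l => (hcon l).symm)
        obtain ⟨l, hl⟩ := this
        rw [Finset.prod_eq_zero (mem_univ l), mul_zero, smul_zero]
        have h1 : (s l y - u l) ^ (p - 1) = 1 := ZMod.pow_card_sub_one_eq_one (sub_ne_zero.mpr hl)
        have h2 := congrArg (algebraMap (ZMod p) K) h1
        rw [map_pow, map_sub, map_one] at h2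
        simp [h2]
      · intro h; exact absurd (mem_univ _) h
    · intro b _ hb
      rw [Finset.sum_apply]
      refine Finset.sum_eq_zero (fun u _ => ?_)
      rw [Pi.smul_apply, Pi.mul_apply, Finset.prod_apply, Finset.prod_apply]
      have : ∃ l, b l ≠ f l y := by
        by_contra hcon
        push Not at hcon
        exact hb (funext hcon)
      obtain ⟨l, hl⟩ := this
      rw [Finset.prod_eq_zero (mem_univ l), zero_mul, smul_zero]
      cases h1 : b l <;> cases h2 : f l y
      · exact absurd (h1.trans h2.symm) hl
      · simp [toK, h2]
      · simp [toK, h2]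
      · exact absurd (h1.trans h2.symm) hl
    · intro h; exact absurd (mem_univ _) h
  rw [h]
  refine Submodule.sum_mem _ (fun b _ => Submodule.sum_mem _ (fun u _ =>
    Submodule.smul_mem _ _ ?_))
  have h1 := J_prod (K := K) (ι := V) (α := Bool) (univ : Finset (Fin r))
    (fun l => if b l = true then toK K (f l) else 1 - toK K (f l)) (fun _ => d) (by
      intro l _
      by_cases hb : b l = true
      · simp only [hb, if_true]
        exact hf l
      · simp only [hb]
        exact Submodule.sub_mem _ (J_one _) (hf l))
  have h2 := J_prod (K := K) (ι := V) (α := Bool) (univ : Finset (Fin g))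
    (fun l => (1 - (fun y => algebraMap (ZMod p) K (s l y) -
      algebraMap (ZMod p) K (u l)) ^ (p - 1))) (fun _ => (p - 1) * d) (by
      intro l _
      exact Submodule.sub_mem _ (J_one _) (J_pow (Submodule.sub_mem _ (hs l) (J_const _ _)) _))
  have h3 := J_mul h1 h2
  simpa using h3

end Pool.Agent.Helper600R2.CM.P2
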