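import Pool.Agent.Helper600R2.CM.Stm

/-! The walk through one decision tree. -/

namespace Pool.Agent.Helper600R2.CM

open Finset Pool.Agent.Helper600R2 Pool.Agent.H564R2.QF

/-- the property of the constant in `S_Hom` -/
def HomP (m q B C0 : ℕ) : Prop :=
  ∀ (E I : Type) [Fintype E] [DecidableEq E] [Fintype I] (c : I → E × Fin B → ZMod m)
    (S : Finset E), Closed (C0 * (Fintype.card I + 1)) c S →
    ∀ (y : E × Fin B → Bool) (z : E → ZMod q), (∀ e ∈ S, z e = bsum q y e) →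
      ∃ y' : E × Fin B → Bool, (∀ e ∈ S, ∀ t, y' (e, t) = y (e, t)) ∧
        (∀ e, bsum q y' e = z e) ∧ ∀ i, frm (c i) y' = frm (c i) y

/-- M6a: the walk through one decision tree -/
def S_Walk : Prop := ∀ (m q B C0 : ℕ), HomP m q B C0 →
  ∀ (E Vt I : Type) [Fintype E] [DecidableEq E] [Fintype I] (W : ℕ) (st : Vt → Finset E)
    (Cn : Vt → (E → ZMod q) → Prop) (H : Finset E → (E → ZMod q) → Prop),
    IsGame W st Cn H →
    ∀ (l : I → E × Fin B → ZMod m) (G : ℕ) (c : Fin G → E × Fin B → ZMod m),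
      (∀ i, ∃ i', c i = l i') → ∀ (D : ℕ) (g : (E × Fin B → Bool) → Bool), QD (Leaf c) D g →
      ∀ (Sc : Finset E) (yc : E × Fin B → Bool),
        Closed (C0 * (Fintype.card I + 1) + D) l Sc → Sc.card + D ≤ W → H Sc (bsum q yc) →
        ∃ (S' Q : Finset E) (y' : E × Fin B → Bool), Sc ⊆ S' ∧ (S' \ Sc).card ≤ D ∧ Q ⊆ S' ∧
          Q.card ≤ D ∧ (∀ e ∈ Sc, ∀ t, y' (e, t) = yc (e, t)) ∧
          (∀ i, frm (l i) y' = frm (l i) yc) ∧ H S' (bsum q y') ∧
          ∀ y'' : E × Fin B → Bool, (∀ e ∈ Q, ∀ t, y'' (e, t) = y' (e, t)) →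
            (∀ i, frm (c i) y'' = frm (c i) y') → g y'' = g y'

end Pool.Agent.Helper600R2.CM
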